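import Mathlib

set_option autoImplicit false

open MeasureTheory Set

namespace Pool.Agent.H8KM

/-- A finite family of intervals in `[a,b]` has a subfamily with the same union and total
length at most `2(b-a)`. -/
theorem exists_subcover {ι : Type*} (l r : ι → ℝ) (a b : ℝ) (G : Finset ι)
    (hl : ∀ i ∈ G, a ≤ l i) (hr : ∀ i ∈ G, r i ≤ b) :
    ∃ G' ⊆ G, (⋃ i ∈ G', Icc (l i) (r i)) = (⋃ i ∈ G, Icc (l i) (r i)) ∧
      ∑ i ∈ G', volume (Icc (l i) (r i)) ≤ 2 * ENNReal.ofReal (b - a) := by
  classical
  let U : Finset ι → Set ℝ := fun G' => ⋃ i ∈ G', Icc (l i) (r i)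
  have hne : (G.powerset.filter (fun G' => U G' = U G)).Nonempty :=
    ⟨G, by simp⟩
  obtain ⟨G', hG', hmin⟩ := Finset.exists_min_image _ Finset.card hne
  rw [Finset.mem_filter, Finset.mem_powerset] at hG'
  refine ⟨G', hG'.1, hG'.2, ?_⟩
  -- multiplicity at most two
  have hmult : ∀ x : ℝ, (G'.filter (fun i => x ∈ Icc (l i) (r i))).card ≤ 2 := by
    intro x
    by_contra hcon
    push Not at hcon
    set A := G'.filter (fun i => x ∈ Icc (l i) (r i)) with hA
    have hAne : A.Nonempty := by
      rw [← Finset.card_pos]; omega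
    obtain ⟨i, hi, hil⟩ := Finset.exists_min_image A l hAne
    obtain ⟨k, hk, hkr⟩ := Finset.exists_max_image A r hAne
    have hj : ∃ j ∈ A, j ≠ i ∧ j ≠ k := by
      by_contra hno
      push Not at hno
      have hsub : A ⊆ {i, k} := by
        intro j hj
        by_cases h1 : j = i
        · simp [h1]
        · simp [hno j hj h1]
      have := Finset.card_le_card hsub
      have h2 : ({i, k} : Finset ι).card ≤ 2 := Finset.card_le_two
      omega
    obtain ⟨j, hj, hji, hjk⟩ := hj
    have hj' := hj
    rw [hA, Finset.mem_filter] at hi hk hj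
    have hsub : Icc (l j) (r j) ⊆ Icc (l i) (r i) ∪ Icc (l k) (r k) := by
      intro y hy
      rcases le_total y x with hyx | hyx
      · left
        exact ⟨le_trans (hil j hj') hy.1, le_trans hyx hi.2.2⟩
      · right
        exact ⟨le_trans hk.2.1 hyx, le_trans hy.2 (hkr j hj')⟩
    have hU : U (G'.erase j) = U G := by
      rw [← hG'.2]
      apply Subset.antisymm
      · intro y hy
        simp only [U, mem_iUnion, Finset.mem_erase] at hy ⊢
        obtain ⟨m, hm, hmy⟩ := hy
        exact ⟨m, hm.2, hmy⟩
      · intro y hy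
        simp only [U, mem_iUnion, Finset.mem_erase] at hy ⊢
        obtain ⟨m, hm, hmy⟩ := hy
        by_cases hmj : m = j
        · subst hmj
          rcases hsub hmy with h | h
          · exact ⟨i, ⟨fun h' => hji h'.symm, hi.1⟩, h⟩
          · exact ⟨k, ⟨fun h' => hjk h'.symm, hk.1⟩, h⟩
        · exact ⟨m, ⟨hmj, hm⟩, hmy⟩
    have hmem : G'.erase j ∈ G.powerset.filter (fun G' => U G' = U G) := by
      rw [Finset.mem_filter, Finset.mem_powerset]
      exact ⟨(Finset.erase_subset _ _).trans hG'.1, hU⟩
    have h3 := hmin _ hmem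
    have h4 := Finset.card_erase_lt_of_mem hj.1
    omega
  calc ∑ i ∈ G', volume (Icc (l i) (r i))
      = ∑ i ∈ G', ∫⁻ x, (Icc (l i) (r i)).indicator (fun _ => (1 : ENNReal)) x := by
        refine Finset.sum_congr rfl fun i _ => ?_
        rw [lintegral_indicator measurableSet_Icc]
        simp
    _ = ∫⁻ x, ∑ i ∈ G', (Icc (l i) (r i)).indicator (fun _ => (1 : ENNReal)) x := by
        rw [lintegral_finsetSum]
        intro i _
        exact measurable_const.indicator measurableSet_Icc
    _ ≤ ∫⁻ x, (Icc a b).indicator (fun _ => (2 : ENNReal)) x := by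
        apply lintegral_mono
        intro x
        by_cases hx : x ∈ Icc a b
        · rw [indicator_of_mem hx]
          have h1 : ∑ i ∈ G', (Icc (l i) (r i)).indicator (fun _ => (1 : ENNReal)) x
              = ((G'.filter (fun i => x ∈ Icc (l i) (r i))).card : ENNReal) := by
            rw [Finset.card_filter]
            push_cast
            refine Finset.sum_congr rfl fun i _ => ?_
            by_cases h : x ∈ Icc (l i) (r i)
            · rw [indicator_of_mem h, if_pos h]
            · rw [indicator_of_notMem h, if_neg h]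
          simp only [h1]
          exact_mod_cast hmult x
        · rw [indicator_of_notMem hx]
          apply le_of_eq
          apply Finset.sum_eq_zero
          intro i hi
          apply indicator_of_notMem
          intro h
          exact hx ⟨le_trans (hl i (hG'.1 hi)) h.1, le_trans h.2 (hr i (hG'.1 hi))⟩
    _ = 2 * ENNReal.ofReal (b - a) := by
        rw [lintegral_indicator measurableSet_Icc]
        simp

end Pool.Agent.H8KM
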