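import Mathlib

set_option autoImplicit false

open MeasureTheory Set Polynomial

namespace Pool.Agent.H8KM

/-- complex roots of a real polynomial -/
noncomputable def croots (f : ℝ[X]) : Multiset ℂ := (f.map (algebraMap ℝ ℂ)).roots

lemma card_croots (f : ℝ[X]) : (croots f).card = f.natDegree := by
  unfold croots
  rw [← (IsAlgClosed.splits (f.map (algebraMap ℝ ℂ))).natDegree_eq_card_roots, natDegree_map]

lemma abs_eval_eq (f : ℝ[X]) (x : ℝ) :
    |f.eval x| = |f.leadingCoeff| * ((croots f).map (fun z => ‖(x:ℂ) - z‖)).prod := by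
  have h := (IsAlgClosed.splits (f.map (algebraMap ℝ ℂ))).eval_eq_prod_roots (x : ℂ)
  have h1 : (f.map (algebraMap ℝ ℂ)).eval (x : ℂ) = ((f.eval x : ℝ) : ℂ) := by
    rw [show (x : ℂ) = algebraMap ℝ ℂ x from rfl, eval_map_algebraMap, aeval_algebraMap_apply]
    simp
  have h2 : ‖((f.eval x : ℝ) : ℂ)‖ = |f.eval x| := by
    rw [Complex.norm_real, Real.norm_eq_abs]
  rw [← h2, ← h1, h, norm_mul, leadingCoeff_map]
  congr 1
  · simp
  · unfold croots
    have := map_multiset_prod (normHom : ℂ →*₀ ℝ)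
      (Multiset.map (fun x_1 => (x:ℂ) - x_1) (f.map (algebraMap ℝ ℂ)).roots)
    rw [Multiset.map_map] at this
    exact this

lemma eval_compare (f : ℝ[X]) {x y t L : ℝ} (ht : 0 < t) (hL : |x - y| ≤ L)
    (h : ∀ z ∈ croots f, t ≤ ‖(x:ℂ) - z‖) :
    |f.eval y| ≤ |f.eval x| * (1 + L / t) ^ f.natDegree := by
  rw [abs_eval_eq, abs_eval_eq, mul_assoc]
  refine mul_le_mul_of_nonneg_left ?_ (abs_nonneg _)
  have hL0 : 0 ≤ L := (abs_nonneg _).trans hL
  have h1 : ((croots f).map (fun z => ‖(x:ℂ) - z‖)).prod * (1 + L / t) ^ f.natDegree =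
      ((croots f).map (fun z => ‖(x:ℂ) - z‖ * (1 + L / t))).prod := by
    rw [Multiset.prod_map_mul, Multiset.map_const', Multiset.prod_replicate, card_croots]
  rw [h1]
  apply Multiset.prod_map_le_prod_map₀
  · intro z _; positivity
  · intro z hz
    have h2 : ‖(y:ℂ) - z‖ ≤ ‖(x:ℂ) - z‖ + L := by
      have : (y:ℂ) - z = ((x:ℂ) - z) - ((x:ℂ) - y) := by ring
      rw [this]
      refine (norm_sub_le _ _).trans ?_
      have h3 : ‖(x:ℂ) - y‖ = |x - y| := by
        rw [← Complex.ofReal_sub, Complex.norm_real, Real.norm_eq_abs]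
      rw [h3]; linarith
    have h4 := h z hz
    have h5 : L ≤ ‖(x:ℂ) - z‖ * (L / t) := by
      have : L = t * (L / t) := by field_simp
      calc L = t * (L / t) := this
        _ ≤ ‖(x:ℂ) - z‖ * (L / t) := mul_le_mul_of_nonneg_right h4 (by positivity)
    linarith

/-- the set of reals close to the real part of some root is small -/
lemma volume_near_roots (f : ℝ[X]) (t : ℝ) :
    volume {x : ℝ | ∃ z ∈ croots f, |x - z.re| < t} ≤ ENNReal.ofReal (2 * t * f.natDegree) := by
  classical
  rcases le_or_gt t 0 with ht | ht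
  · have : {x : ℝ | ∃ z ∈ croots f, |x - z.re| < t} = ∅ := by
      ext x
      simp only [mem_ofPred_eq, mem_empty_iff_false, iff_false, not_exists, not_and, not_lt]
      intro z _
      exact ht.trans (abs_nonneg _)
    rw [this]; simp
  have hsub : {x : ℝ | ∃ z ∈ croots f, |x - z.re| < t} ⊆
      ⋃ z ∈ (croots f).toFinset, Ioo (z.re - t) (z.re + t) := by
    rintro x ⟨z, hz, hx⟩
    rw [mem_iUnion₂]
    refine ⟨z, Multiset.mem_toFinset.2 hz, ?_⟩
    rw [abs_lt] at hx
    constructor <;> linarith [hx.1, hx.2]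
  calc volume {x : ℝ | ∃ z ∈ croots f, |x - z.re| < t}
      ≤ volume (⋃ z ∈ (croots f).toFinset, Ioo (z.re - t) (z.re + t)) := measure_mono hsub
    _ ≤ ∑ z ∈ (croots f).toFinset, volume (Ioo (z.re - t) (z.re + t)) :=
        measure_biUnion_finset_le _ _
    _ = ∑ z ∈ (croots f).toFinset, ENNReal.ofReal (2 * t) := by
        refine Finset.sum_congr rfl fun z _ => ?_
        rw [Real.volume_Ioo]; congr 1; ring
    _ = ((croots f).toFinset.card : ENNReal) * ENNReal.ofReal (2 * t) := by
        rw [Finset.sum_const, nsmul_eq_mul]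
    _ ≤ (f.natDegree : ENNReal) * ENNReal.ofReal (2 * t) := by
        gcongr
        rw [← card_croots f]
        exact Multiset.toFinset_card_le _
    _ = ENNReal.ofReal (2 * t * f.natDegree) := by
        rw [mul_comm, ENNReal.ofReal_mul (by positivity : (0:ℝ) ≤ 2 * t)]
        simp

lemma re_close {x t : ℝ} {z : ℂ} (h : ‖(x:ℂ) - z‖ < t) : |x - z.re| < t := by
  have := Complex.abs_re_le_norm ((x:ℂ) - z)
  simp at this
  exact this.trans_lt h

/-- sublevel sets of polynomials -/
theorem sublevel_bound (f : ℝ[X]) (D : ℕ) (hD : 1 ≤ D) (hf : f.natDegree ≤ D) (a b : ℝ)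
    (hab : a < b) (hy : ∃ y ∈ Icc a b, 1 ≤ |f.eval y|) (ε : ℝ) (hε : 0 < ε) :
    volume {x ∈ Icc a b | |f.eval x| < ε} ≤
      ENNReal.ofReal (4 * D * ε ^ ((1:ℝ) / D) * (b - a)) := by
  obtain ⟨y, hyab, hy1⟩ := hy
  have hD0 : (0:ℝ) < D := by exact_mod_cast hD
  set η : ℝ := ε ^ ((1:ℝ) / D) with hη
  have hη0 : 0 < η := Real.rpow_pos_of_pos hε _
  have hηD : η ^ D = ε := by
    rw [hη, ← Real.rpow_natCast, ← Real.rpow_mul hε.le]
    rw [one_div, inv_mul_cancel₀ hD0.ne', Real.rpow_one]
  rcases le_or_gt (2 * η) 1 with h2η | h2η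
  · have hsub : {x ∈ Icc a b | |f.eval x| < ε} ⊆
        {x : ℝ | ∃ z ∈ croots f, |x - z.re| < 2 * η * (b - a)} := by
      rintro x ⟨hxab, hx⟩
      by_contra hcon
      rw [mem_ofPred_eq] at hcon
      push Not at hcon
      have hba : 0 < b - a := by linarith
      have ht : 0 < 2 * η * (b - a) := by positivity
      have hroots : ∀ z ∈ croots f, 2 * η * (b - a) ≤ ‖(x:ℂ) - z‖ := by
        intro z hz
        by_contra h
        push Not at h
        exact absurd (re_close h) (not_lt.2 (hcon z hz))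
      have hxy : |x - y| ≤ b - a := by
        rw [abs_le]; constructor <;> linarith [hxab.1, hxab.2, hyab.1, hyab.2]
      have h1 := eval_compare f ht hxy hroots
      have h3 : (b - a) / (2 * η * (b - a)) = 1 / (2 * η) := by
        field_simp
      rw [h3] at h1
      have h4 : 1 + 1 / (2 * η) ≤ 1 / η := by
        have h41 : (1:ℝ) ≤ 1 / (2 * η) := by
          rw [le_div_iff₀ (by positivity)]; linarith
        have h42 : 1 / η = 1 / (2 * η) + 1 / (2 * η) := by field_simp; norm_num
        rw [h42]; linarith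
      have h5 : (1 + 1 / (2 * η)) ^ f.natDegree ≤ (1 / η) ^ D := by
        have h6 : (1:ℝ) ≤ 1 / η := by
          rw [le_div_iff₀ hη0]; linarith
        calc (1 + 1 / (2 * η)) ^ f.natDegree ≤ (1 / η) ^ f.natDegree :=
              pow_le_pow_left₀ (by positivity) h4 _
          _ ≤ (1 / η) ^ D := pow_le_pow_right₀ h6 hf
      have h7 : (1 / η) ^ D = 1 / ε := by rw [div_pow, one_pow, hηD]
      rw [h7] at h5
      have h8 : |f.eval x| * (1 + 1 / (2 * η)) ^ f.natDegree < 1 := by
        calc |f.eval x| * (1 + 1 / (2 * η)) ^ f.natDegree ≤ |f.eval x| * (1 / ε) :=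
              mul_le_mul_of_nonneg_left h5 (abs_nonneg _)
          _ < ε * (1 / ε) := by
              apply mul_lt_mul_of_pos_right hx (by positivity)
          _ = 1 := by field_simp
      linarith
    refine (measure_mono hsub).trans ((volume_near_roots f _).trans ?_)
    apply ENNReal.ofReal_le_ofReal
    have : (f.natDegree : ℝ) ≤ D := by exact_mod_cast hf
    have hba : 0 < b - a := by linarith
    calc 2 * (2 * η * (b - a)) * (f.natDegree : ℝ) ≤ 2 * (2 * η * (b - a)) * D :=
          mul_le_mul_of_nonneg_left this (by positivity)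
      _ = 4 * D * η * (b - a) := by ring
  · have : volume {x ∈ Icc a b | |f.eval x| < ε} ≤ volume (Icc a b) :=
      measure_mono (fun x hx => hx.1)
    refine this.trans ?_
    rw [Real.volume_Icc]
    apply ENNReal.ofReal_le_ofReal
    have hba : 0 < b - a := by linarith
    have hD1 : (1:ℝ) ≤ D := by exact_mod_cast hD
    nlinarith [mul_pos hη0 hba, mul_le_mul hD1 h2η.le (by norm_num) hD0.le]

/-- lower bound of integer polynomials on an interval -/
theorem exists_large_value (f : ℤ[X]) (hf0 : f ≠ 0) (D : ℕ) (hf : f.natDegree ≤ D) (a b : ℝ)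
    (hab : a < b) : ∃ y ∈ Icc a b,
      (min 1 ((b - a) / (4 * (D + 1)))) ^ D ≤ |(f.map (Int.castRingHom ℝ)).eval y| := by
  set g := f.map (Int.castRingHom ℝ) with hg
  have hinj : Function.Injective (Int.castRingHom ℝ) := Int.cast_injective
  have hgd : g.natDegree = f.natDegree := natDegree_map_eq_of_injective hinj _
  have hlc : 1 ≤ |g.leadingCoeff| := by
    rw [hg, leadingCoeff_map_of_injective hinj]
    simp only [eq_intCast]
    rw [← Int.cast_abs]
    exact_mod_cast Int.one_le_abs (leadingCoeff_ne_zero.2 hf0)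
  set t := (b - a) / (4 * (D + 1)) with ht
  have hba : 0 < b - a := by linarith
  have ht0 : 0 < t := by positivity
  have hex : ∃ y ∈ Icc a b, ∀ z ∈ croots g, t ≤ ‖(y:ℂ) - z‖ := by
    by_contra hcon
    push Not at hcon
    have hsub : Icc a b ⊆ {x : ℝ | ∃ z ∈ croots g, |x - z.re| < t} := by
      intro x hx
      obtain ⟨z, hz, hzt⟩ := hcon x hx
      exact ⟨z, hz, re_close hzt⟩
    have h1 := (measure_mono hsub).trans (volume_near_roots g t)
    rw [Real.volume_Icc, ENNReal.ofReal_le_ofReal_iff (by positivity)] at h1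
    have h2 : (g.natDegree : ℝ) ≤ D := by rw [hgd]; exact_mod_cast hf
    have h3 : 2 * t * (g.natDegree : ℝ) ≤ 2 * t * D := mul_le_mul_of_nonneg_left h2 (by positivity)
    have h4 : 2 * t * D < b - a := by
      rw [ht]
      have h5 : 2 * ((b - a) / (4 * ((D:ℝ) + 1))) * D = (b - a) * (D / (2 * (D + 1))) := by
        field_simp; ring
      rw [h5]
      have h6 : (D:ℝ) / (2 * (D + 1)) < 1 := by
        rw [div_lt_one (by positivity)]
        have : (0:ℝ) ≤ D := Nat.cast_nonneg _
        linarith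
      nlinarith
    linarith
  obtain ⟨y, hy, hyz⟩ := hex
  refine ⟨y, hy, ?_⟩
  rw [abs_eval_eq]
  have hprod : (min 1 t) ^ g.natDegree ≤ ((croots g).map (fun z => ‖(y:ℂ) - z‖)).prod := by
    have h1 : ((croots g).map (fun _ => min 1 t)).prod = (min 1 t) ^ g.natDegree := by
      rw [Multiset.map_const', Multiset.prod_replicate, card_croots]
    rw [← h1]
    apply Multiset.prod_map_le_prod_map₀
    · intro z _; positivity
    · intro z hz
      exact (min_le_right _ _).trans (hyz z hz)
  have hmin1 : (min 1 t) ^ D ≤ (min 1 t) ^ g.natDegree :=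
    pow_le_pow_of_le_one (by positivity) (min_le_left _ _) (by rw [hgd]; exact hf)
  calc (min 1 t) ^ D ≤ 1 * ((croots g).map (fun z => ‖(y:ℂ) - z‖)).prod := by
        rw [one_mul]; exact hmin1.trans hprod
    _ ≤ |g.leadingCoeff| * ((croots g).map (fun z => ‖(y:ℂ) - z‖)).prod := by
        apply mul_le_mul_of_nonneg_right hlc
        apply Multiset.prod_nonneg
        intro w hw
        rw [Multiset.mem_map] at hw
        obtain ⟨z, _, rfl⟩ := hw
        positivity

end Pool.Agent.H8KM
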