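import Pool.Agent.H8KM.Height
import Pool.Agent.H8KM.PolyGood

set_option autoImplicit false

open Polynomial MeasureTheory Set

namespace Pool.Agent.H8KM

/-- column sums of the Sylvester matrix -/
lemma sylv_col (g : ℝ[X]) (N j n : ℕ) (hj : j + n < N) (hg : g.natDegree ≤ n) (x : ℝ) :
    ∑ i : Fin N, x ^ (i:ℕ) * (if (i:ℕ) ∈ Set.Icc j (j + n) then g.coeff (i - j) else 0) =
      x ^ j * g.eval x := by
  rw [Fin.sum_univ_eq_sum_range
    (fun i => x ^ i * (if i ∈ Set.Icc j (j + n) then g.coeff (i - j) else 0)) N]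
  have h1 : ∑ i ∈ Finset.range N, x ^ i * (if i ∈ Set.Icc j (j + n) then g.coeff (i - j) else 0) =
      ∑ i ∈ Finset.Ico j (j + (n+1)),
        x ^ i * (if i ∈ Set.Icc j (j + n) then g.coeff (i - j) else 0) := by
    symm
    apply Finset.sum_subset
    · intro i hi
      rw [Finset.mem_Ico] at hi
      rw [Finset.mem_range]; omega
    · intro i _ hi
      rw [Finset.mem_Ico] at hi
      rw [if_neg, mul_zero]
      rw [Set.mem_Icc]; omega
  rw [h1, Finset.sum_Ico_eq_sum_range, eval_eq_sum_range' (n := n+1) (by omega), Finset.mul_sum]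
  have h2 : j + (n+1) - j = n + 1 := by omega
  rw [h2]
  refine Finset.sum_congr rfl fun i hi => ?_
  rw [Finset.mem_range] at hi
  rw [if_pos (by rw [Set.mem_Icc]; omega), Nat.add_sub_cancel_left, pow_add]
  ring

lemma sylv_bound (f g : ℤ[X]) (B : ℝ) (hB : 1 ≤ B) (hfB : ∀ i, |((f.coeff i : ℤ) : ℝ)| ≤ B)
    (hgB : ∀ i, |((g.coeff i : ℤ) : ℝ)| ≤ B) (hfg : resultant f g ≠ 0)
    (h : 0 < f.natDegree + g.natDegree) (x : ℝ) (hx : |x| ≤ 1) :
    1 ≤ ((f.natDegree + g.natDegree : ℕ) : ℝ) * ((f.natDegree + g.natDegree).factorial *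
      B ^ (f.natDegree + g.natDegree)) *
      max |(f.map (Int.castRingHom ℝ)).eval x| |(g.map (Int.castRingHom ℝ)).eval x| := by
  set m := f.natDegree with hm
  set n := g.natDegree with hn
  set M := max |(f.map (Int.castRingHom ℝ)).eval x| |(g.map (Int.castRingHom ℝ)).eval x| with hM
  set S : Matrix (Fin (m+n)) (Fin (m+n)) ℝ :=
    sylvester (f.map (Int.castRingHom ℝ)) (g.map (Int.castRingHom ℝ)) m n with hS
  have hM0 : 0 ≤ M := (abs_nonneg _).trans (le_max_left _ _)
  have hdet : 1 ≤ |S.det| := by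
    have h1 : S.det = ((resultant f g m n : ℤ) : ℝ) := by
      have := resultant_map_map f g m n (Int.castRingHom ℝ)
      rw [hS]
      exact this
    rw [h1, ← Int.cast_abs]
    exact_mod_cast Int.one_le_abs hfg
  have hentry : ∀ i j, |S i j| ≤ B := by
    intro i j
    rw [hS]
    simp only [sylvester, Matrix.of_apply]
    refine Fin.addCases (fun j₁ => ?_) (fun j₁ => ?_) j
    · rw [Fin.addCases_left]
      split_ifs
      · rw [coeff_map]; exact hgB _
      · rw [abs_zero]; linarith
    · rw [Fin.addCases_right]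
      split_ifs
      · rw [coeff_map]; exact hfB _
      · rw [abs_zero]; linarith
  set E : Fin (m+n) → ℝ := fun i => x ^ (i:ℕ) with hE
  have hcol : ∀ k, |Matrix.vecMul E S k| ≤ M := by
    intro k
    have h1 : Matrix.vecMul E S k = ∑ i : Fin (m+n), x ^ (i:ℕ) * S i k := rfl
    rw [h1, hS]
    simp only [sylvester, Matrix.of_apply]
    refine Fin.addCases (fun j₁ => ?_) (fun j₁ => ?_) k
    · simp only [Fin.addCases_left]
      rw [sylv_col _ (m+n) j₁ n (by omega) natDegree_map_le, abs_mul, abs_pow]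
      have h2 : |x| ^ (j₁:ℕ) ≤ 1 := pow_le_one₀ (abs_nonneg _) hx
      calc |x| ^ (j₁:ℕ) * |(g.map (Int.castRingHom ℝ)).eval x| ≤ 1 * M :=
            mul_le_mul h2 (le_max_right _ _) (abs_nonneg _) zero_le_one
        _ = M := one_mul M
    · simp only [Fin.addCases_right]
      rw [sylv_col _ (m+n) j₁ m (by omega) natDegree_map_le, abs_mul, abs_pow]
      have h2 : |x| ^ (j₁:ℕ) ≤ 1 := pow_le_one₀ (abs_nonneg _) hx
      calc |x| ^ (j₁:ℕ) * |(f.map (Int.castRingHom ℝ)).eval x| ≤ 1 * M :=
            mul_le_mul h2 (le_max_left _ _) (abs_nonneg _) zero_le_one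
        _ = M := one_mul M
  set i0 : Fin (m+n) := ⟨0, h⟩ with hi0
  have hadj : ∀ k, |S.adjugate k i0| ≤ (m+n).factorial * B ^ (m+n) := by
    intro k
    rw [Matrix.adjugate_apply]
    have := Matrix.det_le (A := S.updateRow i0 (Pi.single k 1))
      (abv := (AbsoluteValue.abs : AbsoluteValue ℝ ℝ)) (x := B) (by
        intro i j
        rw [AbsoluteValue.abs_apply, Matrix.updateRow_apply]
        split_ifs
        · rw [Pi.single_apply]
          split_ifs <;> simp <;> linarith
        · exact hentry i j)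
    rw [AbsoluteValue.abs_apply, Fintype.card_fin, nsmul_eq_mul] at this
    exact this
  have hmain : S.det = ∑ k, Matrix.vecMul E S k * S.adjugate k i0 := by
    have h1 : Matrix.vecMul (Matrix.vecMul E S) S.adjugate i0 = S.det := by
      rw [Matrix.vecMul_vecMul, Matrix.mul_adjugate, Matrix.vecMul_smul, Matrix.vecMul_one]
      simp [hE, hi0]
    rw [← h1]; rfl
  calc (1:ℝ) ≤ |S.det| := hdet
    _ ≤ ∑ k, |Matrix.vecMul E S k * S.adjugate k i0| := by
        rw [hmain]; exact Finset.abs_sum_le_sum_abs _ _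
    _ ≤ ∑ _k : Fin (m+n), M * ((m+n).factorial * B ^ (m+n)) := by
        refine Finset.sum_le_sum fun k _ => ?_
        rw [abs_mul]
        exact mul_le_mul (hcol k) (hadj k) (abs_nonneg _) hM0
    _ = ((m + n : ℕ) : ℝ) * ((m + n).factorial * B ^ (m + n)) * M := by
        rw [Finset.sum_const, Finset.card_univ, Fintype.card_fin, nsmul_eq_mul]; ring

/-- if all roots are at distance at least `t` then the logarithmic derivative is small -/
lemma log_deriv_bound (f : ℝ[X]) {x t : ℝ} (ht : 0 < t) (hx : f.eval x ≠ 0)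
    (h : ∀ z ∈ croots f, t ≤ ‖(x:ℂ) - z‖) :
    |(derivative f).eval x| * t ≤ f.natDegree * |f.eval x| := by
  have hx' : (f.map (algebraMap ℝ ℂ)).eval (x:ℂ) = ((f.eval x : ℝ) : ℂ) := by
    rw [show (x : ℂ) = algebraMap ℝ ℂ x from rfl, eval_map_algebraMap, aeval_algebraMap_apply]
    simp
  have hd' : (derivative (f.map (algebraMap ℝ ℂ))).eval (x:ℂ) =
      (((derivative f).eval x : ℝ) : ℂ) := by
    rw [derivative_map, show (x : ℂ) = algebraMap ℝ ℂ x from rfl, eval_map_algebraMap,
      aeval_algebraMap_apply]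
    simp
  have hne : (f.map (algebraMap ℝ ℂ)).eval (x:ℂ) ≠ 0 := by
    rw [hx']; exact_mod_cast hx
  have h1 := (IsAlgClosed.splits (f.map (algebraMap ℝ ℂ))).eval_derivative_div_eval_of_ne_zero hne
  have h2 : ‖((f.map (algebraMap ℝ ℂ)).roots.map fun z ↦ 1 / ((x:ℂ) - z)).sum‖ ≤
      f.natDegree * (1 / t) := by
    refine (norm_multiset_sum_le _).trans ?_
    rw [Multiset.map_map]
    have h3 : ((f.map (algebraMap ℝ ℂ)).roots.map
        ((fun x => ‖x‖) ∘ fun z ↦ 1 / ((x:ℂ) - z))).sum ≤
        ((f.map (algebraMap ℝ ℂ)).roots.map (fun _ => 1 / t)).sum := by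
      apply Multiset.sum_map_le_sum_map
      intro z hz
      simp only [Function.comp_apply, norm_div, norm_one]
      exact one_div_le_one_div_of_le ht (h z hz)
    refine h3.trans ?_
    rw [Multiset.map_const', Multiset.sum_replicate]
    have h4 : (f.map (algebraMap ℝ ℂ)).roots.card = f.natDegree := card_croots f
    rw [h4, nsmul_eq_mul]
  rw [← h1, hx', hd', norm_div, Complex.norm_real, Complex.norm_real, Real.norm_eq_abs,
    Real.norm_eq_abs] at h2
  have hpos : 0 < |f.eval x| := abs_pos.2 hx
  rw [div_le_iff₀ hpos] at h2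
  calc |(derivative f).eval x| * t ≤ (f.natDegree * (1 / t) * |f.eval x|) * t :=
        mul_le_mul_of_nonneg_right h2 ht.le
    _ = f.natDegree * |f.eval x| := by field_simp

lemma resultant_irred {P : ℤ[X]} (hP : Irreducible P) (hd : 1 ≤ P.natDegree) :
    resultant P (derivative P) ≠ 0 := by
  have hprim : P.IsPrimitive := hP.isPrimitive (by omega)
  have hQ : Irreducible (P.map (Int.castRingHom ℚ)) :=
    (IsPrimitive.Int.irreducible_iff_irreducible_map_cast hprim).1 hP
  have hsep : IsCoprime (P.map (Int.castRingHom ℚ)) (derivative (P.map (Int.castRingHom ℚ))) :=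
    hQ.separable
  have h1 := resultant_ne_zero _ _ hsep
  have hinj : Function.Injective (Int.castRingHom ℚ) := Int.cast_injective
  intro h0
  apply h1
  rw [derivative_map, natDegree_map_eq_of_injective hinj, natDegree_map_eq_of_injective hinj,
    resultant_map_map, h0, map_zero]

/-- constant in the derivative bound -/
noncomputable def Kd (n : ℕ) : ℝ := (2 * n : ℕ) * ((2 * n).factorial * (n:ℝ) ^ (2 * n))

lemma max_bound {n : ℕ} {P : ℤ[X]} (hP : Irreducible P) (hd : 1 ≤ P.natDegree)
    (hn : P.natDegree ≤ n) (x : ℝ) (hx : |x| ≤ 1) :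
    1 ≤ Kd n * (ht P : ℝ) ^ (2 * n) * max |(P.map (Int.castRingHom ℝ)).eval x|
      |((derivative P).map (Int.castRingHom ℝ)).eval x| := by
  have hP0 : P ≠ 0 := hP.ne_zero
  have hH : (1:ℝ) ≤ ht P := by exact_mod_cast one_le_ht hP0
  have hn1 : (1:ℝ) ≤ n := by exact_mod_cast hd.trans hn
  have hB : (1:ℝ) ≤ n * ht P := by nlinarith
  have h1 := sylv_bound P (derivative P) (n * ht P) hB (by
    intro i
    refine (abs_coeff_le_ht P i).trans ?_
    nlinarith) (by
    intro i
    by_cases hi : i + 1 ≤ n
    · rw [coeff_derivative]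
      push_cast
      rw [abs_mul, mul_comm]
      have h2 : |((i:ℝ) + 1)| ≤ n := by
        rw [abs_of_nonneg (by positivity)]; exact_mod_cast hi
      exact mul_le_mul h2 (abs_coeff_le_ht P _) (abs_nonneg _) (by positivity)
    · rw [coeff_derivative, coeff_eq_zero_of_natDegree_lt (by omega)]
      simp; positivity) (resultant_irred hP hd) (by omega) x hx
  refine h1.trans ?_
  apply mul_le_mul_of_nonneg_right _ (le_max_of_le_left (abs_nonneg _))
  have hN : P.natDegree + (derivative P).natDegree ≤ 2 * n := by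
    have := natDegree_derivative_le P
    omega
  set N := P.natDegree + (derivative P).natDegree
  have hfac : (N.factorial : ℝ) ≤ ((2 * n).factorial : ℝ) := by
    exact_mod_cast Nat.factorial_le hN
  have hNr : (N : ℝ) ≤ ((2 * n : ℕ) : ℝ) := by exact_mod_cast hN
  calc (N:ℝ) * (N.factorial * (n * (ht P : ℝ)) ^ N)
      ≤ ((2 * n : ℕ) : ℝ) * ((2 * n).factorial * (n * (ht P : ℝ)) ^ (2 * n)) := by
        apply mul_le_mul hNr _ (by positivity) (by positivity)
        apply mul_le_mul hfac (pow_le_pow_right₀ hB hN) (by positivity) (by positivity)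
    _ = Kd n * (ht P : ℝ) ^ (2 * n) := by
        unfold Kd
        rw [mul_pow]; ring

/-- volume of the set where an irreducible polynomial is small -/
theorem volume_irred {n : ℕ} {P : ℤ[X]} (hP : Irreducible P) (hd : 1 ≤ P.natDegree)
    (hn : P.natDegree ≤ n) (δ : ℝ) (hδ : 0 < δ) :
    volume {x ∈ Icc (0:ℝ) 1 | |(P.map (Int.castRingHom ℝ)).eval x| < δ} ≤
      ENNReal.ofReal ((2 * n ^ 2 + 1) * Kd n * (ht P : ℝ) ^ (2 * n) * δ) := by
  have hP0 : P ≠ 0 := hP.ne_zero
  have hH : (1:ℝ) ≤ ht P := by exact_mod_cast one_le_ht hP0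
  have hn1 : (1:ℝ) ≤ n := by exact_mod_cast hd.trans hn
  have hKd : 0 < Kd n := by
    unfold Kd
    have : 0 < n := by omega
    positivity
  set K := Kd n * (ht P : ℝ) ^ (2 * n) with hK
  have hK0 : 0 < K := by positivity
  by_cases hbig : 1 ≤ K * δ
  · calc volume {x ∈ Icc (0:ℝ) 1 | |(P.map (Int.castRingHom ℝ)).eval x| < δ} ≤
        volume (Icc (0:ℝ) 1) := measure_mono fun x hx => hx.1
      _ = ENNReal.ofReal 1 := by rw [Real.volume_Icc]; norm_num
      _ ≤ _ := by
        apply ENNReal.ofReal_le_ofReal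
        have : (2 * (n:ℝ) ^ 2 + 1) * Kd n * (ht P : ℝ) ^ (2 * n) * δ =
          (2 * (n:ℝ) ^ 2 + 1) * (K * δ) := by rw [hK]; ring
        rw [this]
        nlinarith
  · push Not at hbig
    set t := n * δ * K with ht'
    have ht0 : 0 < t := by positivity
    have hsub : {x ∈ Icc (0:ℝ) 1 | |(P.map (Int.castRingHom ℝ)).eval x| < δ} ⊆
        {x : ℝ | ∃ z ∈ croots (P.map (Int.castRingHom ℝ)), |x - z.re| < t} := by
      rintro x ⟨hx, hxδ⟩
      by_contra hcon
      have hfar : ∀ z ∈ croots (P.map (Int.castRingHom ℝ)), t ≤ ‖(x:ℂ) - z‖ := by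
        intro z hz
        by_contra hz'
        push Not at hz'
        exact hcon ⟨z, hz, re_close hz'⟩
      have hxabs : |x| ≤ 1 := by rw [abs_le]; constructor <;> linarith [hx.1, hx.2]
      have hmax := max_bound hP hd hn x hxabs
      rw [← hK] at hmax
      have hsmall : K * |(P.map (Int.castRingHom ℝ)).eval x| < 1 := by
        calc K * |(P.map (Int.castRingHom ℝ)).eval x| ≤ K * δ :=
              mul_le_mul_of_nonneg_left hxδ.le hK0.le
          _ < 1 := hbig
      have hder : 1 ≤ K * |((derivative P).map (Int.castRingHom ℝ)).eval x| := by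
        rcases le_total |(P.map (Int.castRingHom ℝ)).eval x|
          |((derivative P).map (Int.castRingHom ℝ)).eval x| with h | h
        · rwa [max_eq_right h] at hmax
        · rw [max_eq_left h] at hmax; linarith
      have hne : (P.map (Int.castRingHom ℝ)).eval x ≠ 0 := by
        intro h0
        have h1 : ((P.map (Int.castRingHom ℝ)).map (algebraMap ℝ ℂ)) ≠ 0 := by
          rw [Polynomial.map_map]
          intro h2
          exact hP0 ((Polynomial.map_eq_zero_iff (f := (algebraMap ℝ ℂ).comp (Int.castRingHom ℝ))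
            (by
              intro a b hab
              have : ((a:ℂ)) = b := by simpa using hab
              exact_mod_cast this)).1 h2)
        have h3 : (x:ℂ) ∈ croots (P.map (Int.castRingHom ℝ)) := by
          unfold croots
          rw [mem_roots h1, IsRoot.def]
          rw [show (x : ℂ) = algebraMap ℝ ℂ x from rfl, eval_map_algebraMap,
            aeval_algebraMap_apply]
          simp only [coe_aeval_eq_eval, h0, map_zero]
        have h4 := hfar _ h3
        rw [sub_self, norm_zero] at h4
        linarith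
      have hlog := log_deriv_bound _ ht0 hne hfar
      rw [derivative_map] at hlog
      have hdeg : ((P.map (Int.castRingHom ℝ)).natDegree : ℝ) ≤ n := by
        exact_mod_cast natDegree_map_le.trans hn
      have h5 : |((derivative P).map (Int.castRingHom ℝ)).eval x| * t < n * δ := by
        calc _ ≤ ((P.map (Int.castRingHom ℝ)).natDegree : ℝ) *
              |(P.map (Int.castRingHom ℝ)).eval x| := hlog
          _ ≤ n * |(P.map (Int.castRingHom ℝ)).eval x| :=
              mul_le_mul_of_nonneg_right hdeg (abs_nonneg _)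
          _ < n * δ := by
              apply mul_lt_mul_of_pos_left hxδ; linarith
      have h6 : n * δ ≤ |((derivative P).map (Int.castRingHom ℝ)).eval x| * t := by
        rw [ht']
        have h7 : 0 < (n:ℝ) * δ := by positivity
        nlinarith
      linarith
    refine (measure_mono hsub).trans ((volume_near_roots _ t).trans ?_)
    apply ENNReal.ofReal_le_ofReal
    have hdeg : ((P.map (Int.castRingHom ℝ)).natDegree : ℝ) ≤ n := by
      exact_mod_cast natDegree_map_le.trans hn
    calc 2 * t * ((P.map (Int.castRingHom ℝ)).natDegree : ℝ) ≤ 2 * t * n :=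
          mul_le_mul_of_nonneg_left hdeg (by positivity)
      _ = 2 * n ^ 2 * (K * δ) := by rw [ht']; ring
      _ ≤ (2 * n ^ 2 + 1) * (K * δ) := by
          have : 0 < K * δ := by positivity
          nlinarith
      _ = _ := by rw [hK]; ring

end Pool.Agent.H8KM
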