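import Pool.Agent.H8KM.DerivBound

set_option autoImplicit false

open Polynomial MeasureTheory Set

namespace Pool.Agent.H8KM

/-- all polynomials of degree at most `n` with coefficients in `[-H, H]` -/
noncomputable def polysOf (n H : ℕ) : Finset ℤ[X] := by
  classical
  exact (Fintype.piFinset fun _ : Fin (n+1) => Finset.Icc (-(H:ℤ)) H).image
    (fun c : Fin (n+1) → ℤ => ∑ i : Fin (n+1), C (c i) * X ^ (i:ℕ))

lemma card_polysOf (n H : ℕ) : (polysOf n H).card ≤ (2 * H + 1) ^ (n+1) := by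
  classical
  unfold polysOf
  refine Finset.card_image_le.trans ?_
  rw [Fintype.card_piFinset]
  simp only [Int.card_Icc, Finset.prod_const, Finset.card_univ, Fintype.card_fin]
  apply Nat.pow_le_pow_left
  omega

lemma mem_polysOf {n H : ℕ} {P : ℤ[X]} (hn : P.natDegree ≤ n) (hH : ht P ≤ H) :
    P ∈ polysOf n H := by
  classical
  unfold polysOf
  rw [Finset.mem_image]
  refine ⟨fun i => P.coeff i, ?_, ?_⟩
  · rw [Fintype.mem_piFinset]
    intro i
    rw [Finset.mem_Icc]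
    have := (natAbs_coeff_le_ht P i).trans hH
    omega
  · have h1 := P.as_sum_range_C_mul_X_pow' (n := n+1) (by omega)
    rw [Finset.sum_range] at h1
    exact h1.symm

theorem irred_measure (n s : ℕ) (hn : 1 ≤ n) : ∃ K : ℝ, 0 < K ∧ ∀ H0 : ℕ, 1 ≤ H0 →
    volume {x ∈ Icc (0:ℝ) 1 | ∃ P : ℤ[X], Irreducible P ∧ 1 ≤ P.natDegree ∧ P.natDegree ≤ n ∧
      H0 ≤ ht P ∧ |(P.map (Int.castRingHom ℝ)).eval x| * (ht P : ℝ) ^ (3 * n + 3 + s) < 1} ≤
      ENNReal.ofReal (K / (H0:ℝ) ^ (s+1)) := by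
  classical
  have hKd : 0 < Kd n := by
    unfold Kd
    have : 0 < n := by omega
    positivity
  set K1 : ℝ := 3 ^ (n+1) * ((2 * n ^ 2 + 1) * Kd n) with hK1
  have hK1pos : 0 < K1 := by positivity
  refine ⟨2 * K1, by positivity, ?_⟩
  intro H0 hH0
  set w := 3 * n + 3 + s with hw
  set G : ℕ → Finset ℤ[X] := fun i => (polysOf n (H0 + i)).filter
    (fun P => Irreducible P ∧ 1 ≤ P.natDegree ∧ P.natDegree ≤ n ∧ ht P = H0 + i) with hG
  have hsub : {x ∈ Icc (0:ℝ) 1 | ∃ P : ℤ[X], Irreducible P ∧ 1 ≤ P.natDegree ∧ P.natDegree ≤ n ∧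
      H0 ≤ ht P ∧ |(P.map (Int.castRingHom ℝ)).eval x| * (ht P : ℝ) ^ w < 1} ⊆
      ⋃ i : ℕ, ⋃ P ∈ G i, {x ∈ Icc (0:ℝ) 1 | |(P.map (Int.castRingHom ℝ)).eval x| <
        1 / ((H0 + i : ℕ) : ℝ) ^ w} := by
    rintro x ⟨hx, P, h1, h2, h3, h4, h5⟩
    simp only [mem_iUnion]
    have h6 : H0 + (ht P - H0) = ht P := by omega
    refine ⟨ht P - H0, P, ?_, hx, ?_⟩
    · simp only [hG, Finset.mem_filter]
      exact ⟨mem_polysOf h3 (by omega), h1, h2, h3, h6.symm⟩
    · change |(P.map (Int.castRingHom ℝ)).eval x| < 1 / ((H0 + (ht P - H0) : ℕ) : ℝ) ^ w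
      rw [h6]
      have : (0:ℝ) < (ht P : ℝ) ^ w := by
        have : 0 < ht P := by omega
        positivity
      rwa [lt_div_iff₀ this]
  have hterm : ∀ i : ℕ, volume (⋃ P ∈ G i, {x ∈ Icc (0:ℝ) 1 |
      |(P.map (Int.castRingHom ℝ)).eval x| < 1 / ((H0 + i : ℕ) : ℝ) ^ w}) ≤
      ENNReal.ofReal (K1 / ((H0 + i : ℕ) : ℝ) ^ (s + 2)) := by
    intro i
    set H := H0 + i with hH
    have hH1 : (1:ℝ) ≤ (H:ℝ) := by
      have : 1 ≤ H := by omega
      exact_mod_cast this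
    have hHpos : (0:ℝ) < (H:ℝ) := by linarith
    calc volume (⋃ P ∈ G i, {x ∈ Icc (0:ℝ) 1 |
          |(P.map (Int.castRingHom ℝ)).eval x| < 1 / (H : ℝ) ^ w})
        ≤ ∑ P ∈ G i, volume {x ∈ Icc (0:ℝ) 1 |
          |(P.map (Int.castRingHom ℝ)).eval x| < 1 / (H : ℝ) ^ w} :=
          measure_biUnion_finset_le _ _
      _ ≤ ∑ _P ∈ G i, ENNReal.ofReal ((2 * n ^ 2 + 1) * Kd n * (H : ℝ) ^ (2 * n) *
            (1 / (H : ℝ) ^ w)) := by
          refine Finset.sum_le_sum fun P hP => ?_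
          simp only [hG, Finset.mem_filter] at hP
          obtain ⟨_, h1, h2, h3, h4⟩ := hP
          have := volume_irred h1 h2 h3 (1 / (H:ℝ) ^ w) (by positivity)
          rw [h4] at this
          exact this
      _ = ((G i).card : ENNReal) * ENNReal.ofReal ((2 * n ^ 2 + 1) * Kd n * (H : ℝ) ^ (2 * n) *
            (1 / (H : ℝ) ^ w)) := by
          rw [Finset.sum_const, nsmul_eq_mul]
      _ ≤ ENNReal.ofReal ((3 * H : ℝ) ^ (n+1)) * ENNReal.ofReal ((2 * n ^ 2 + 1) * Kd n *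
            (H : ℝ) ^ (2 * n) * (1 / (H : ℝ) ^ w)) := by
          gcongr
          have h1 : (G i).card ≤ (3 * H) ^ (n+1) := by
            calc (G i).card ≤ (polysOf n H).card := Finset.card_filter_le _ _
              _ ≤ (2 * H + 1) ^ (n+1) := card_polysOf n H
              _ ≤ (3 * H) ^ (n+1) := Nat.pow_le_pow_left (by omega) _
          have h2 : ((3 * H : ℝ) ^ (n+1)) = (((3 * H) ^ (n+1) : ℕ) : ℝ) := by push_cast; ring
          rw [h2, ENNReal.ofReal_natCast]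
          exact_mod_cast h1
      _ = ENNReal.ofReal (K1 / (H : ℝ) ^ (s + 2)) := by
          rw [← ENNReal.ofReal_mul (by positivity)]
          congr 1
          rw [hK1, hw, mul_pow]
          have : (H:ℝ) ^ (3 * n + 3 + s) = (H:ℝ) ^ (n+1) * (H:ℝ) ^ (2 * n) * (H:ℝ) ^ (s+2) := by
            rw [← pow_add, ← pow_add]; congr 1; ring
          rw [this]
          field_simp
  refine (measure_mono hsub).trans ((measure_iUnion_le _).trans ?_)
  apply ENNReal.tsum_le_of_sum_range_le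
  intro N
  have hH0r : (1:ℝ) ≤ H0 := by exact_mod_cast hH0
  calc ∑ i ∈ Finset.range N, volume (⋃ P ∈ G i, {x ∈ Icc (0:ℝ) 1 |
      |(P.map (Int.castRingHom ℝ)).eval x| < 1 / ((H0 + i : ℕ) : ℝ) ^ w})
      ≤ ∑ i ∈ Finset.range N, ENNReal.ofReal (2 * K1 / (H0:ℝ) ^ s *
          (1 / ((H0:ℝ) + i) - 1 / ((H0:ℝ) + (i + 1 : ℕ)))) := by
        refine Finset.sum_le_sum fun i _ => (hterm i).trans ?_
        apply ENNReal.ofReal_le_ofReal
        push_cast
        have hi0 : (0:ℝ) ≤ (i:ℝ) := Nat.cast_nonneg i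
        have ha : (1:ℝ) ≤ (H0:ℝ) + i := by linarith
        set a : ℝ := (H0:ℝ) + i with ha'
        have e1 : (1 / a - 1 / ((H0:ℝ) + (i + 1))) = 1 / (a * (a + 1)) := by
          rw [ha']; field_simp; ring
        rw [e1]
        have e2 : (H0:ℝ) ^ s ≤ a ^ s := pow_le_pow_left₀ (by linarith) (by rw [ha']; linarith) s
        rw [pow_add, div_mul_div_comm, div_le_div_iff₀ (by positivity) (by positivity)]
        have e3 : a * (a + 1) ≤ 2 * a ^ 2 := by nlinarith
        have e4 : (H0:ℝ) ^ s * (a * (a + 1)) ≤ a ^ s * (2 * a ^ 2) :=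
          mul_le_mul e2 e3 (by positivity) (by positivity)
        calc K1 * ((H0:ℝ) ^ s * (a * (a + 1))) ≤ K1 * (a ^ s * (2 * a ^ 2)) :=
              mul_le_mul_of_nonneg_left e4 hK1pos.le
          _ = 2 * K1 * 1 * (a ^ s * a ^ 2) := by ring
    _ = ENNReal.ofReal (∑ i ∈ Finset.range N, (2 * K1 / (H0:ℝ) ^ s *
          (1 / ((H0:ℝ) + i) - 1 / ((H0:ℝ) + (i + 1 : ℕ))))) := by
        rw [ENNReal.ofReal_sum_of_nonneg]
        intro i _
        have hi0 : (0:ℝ) ≤ (i:ℝ) := Nat.cast_nonneg i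
        apply mul_nonneg (by positivity)
        rw [sub_nonneg]
        apply one_div_le_one_div_of_le (by linarith)
        push_cast; linarith
    _ ≤ ENNReal.ofReal (2 * K1 / (H0:ℝ) ^ (s+1)) := by
        apply ENNReal.ofReal_le_ofReal
        rw [← Finset.mul_sum, Finset.sum_range_sub' (fun i : ℕ => 1 / ((H0:ℝ) + i))]
        rw [Nat.cast_zero, add_zero, pow_succ]
        have h1 : (1:ℝ) / H0 - 1 / (H0 + N) ≤ 1 / H0 := by
          have : (0:ℝ) ≤ 1 / (H0 + N) := by positivity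
          linarith
        calc 2 * K1 / (H0:ℝ) ^ s * (1 / H0 - 1 / (H0 + N)) ≤ 2 * K1 / (H0:ℝ) ^ s * (1 / H0) :=
              mul_le_mul_of_nonneg_left h1 (by positivity)
          _ = 2 * K1 / ((H0:ℝ) ^ s * H0) := by field_simp

end Pool.Agent.H8KM
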