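import Pool.Agent.H8KM.Xi
import Pool.Agent.H8KM.IrredMeasure

set_option autoImplicit false

open Set Polynomial Filter

namespace Pool.Agent.H8KM

/-- pigeonhole -/
lemma dirichlet_poly (ξ : ℝ) (hξ : ξ ∈ Icc (0:ℝ) 1) (n H : ℕ) (hn : 1 ≤ n) (hH : 1 ≤ H) :
    ∃ P : ℤ[X], P ≠ 0 ∧ P.natDegree ≤ n ∧ ht P ≤ H ∧
      |(toR P).eval ξ| * (H:ℝ) ^ n ≤ n + 1 := by
  have hHr : (1:ℝ) ≤ H := by exact_mod_cast hH
  have hH0 : (0:ℝ) < H := by linarith
  set v : (Fin (n+1) → Fin (H+1)) → ℝ := fun c => ∑ i, ((c i : ℕ) : ℝ) * ξ ^ (i:ℕ) with hv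
  have hv0 : ∀ c, 0 ≤ v c := fun c => Finset.sum_nonneg fun i _ =>
    mul_nonneg (Nat.cast_nonneg _) (pow_nonneg hξ.1 _)
  have hv1 : ∀ c, v c ≤ (n + 1) * H := by
    intro c
    calc v c ≤ ∑ _i : Fin (n+1), (H:ℝ) := by
          refine Finset.sum_le_sum fun i _ => ?_
          have h1 : ((c i : ℕ) : ℝ) ≤ H := by
            have := (c i).2
            exact_mod_cast (by omega : (c i : ℕ) ≤ H)
          have h2 : ξ ^ (i:ℕ) ≤ 1 := pow_le_one₀ hξ.1 hξ.2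
          calc ((c i : ℕ) : ℝ) * ξ ^ (i:ℕ) ≤ H * 1 :=
                mul_le_mul h1 h2 (pow_nonneg hξ.1 _) hH0.le
            _ = H := mul_one _
      _ = (n + 1) * H := by simp
  set L : ℝ := (n + 1) / (H:ℝ) ^ n with hL
  have hL0 : 0 < L := by positivity
  have hbox : ∀ c, ⌊v c / L⌋₊ < H ^ (n+1) + 1 := by
    intro c
    have h1 : v c / L ≤ ((H ^ (n+1) : ℕ) : ℝ) := by
      rw [div_le_iff₀ hL0]
      calc v c ≤ (n + 1) * H := hv1 c
        _ = ((H ^ (n+1) : ℕ) : ℝ) * L := by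
            rw [hL]; push_cast; rw [pow_succ]; field_simp
    have h2 := Nat.floor_le_of_le h1
    omega
  have hcard : Fintype.card (Fin (H ^ (n+1) + 1)) < Fintype.card (Fin (n+1) → Fin (H+1)) := by
    rw [Fintype.card_fin, Fintype.card_fun, Fintype.card_fin, Fintype.card_fin]
    have h1 : 2 ≤ (H+1) ^ n := by
      calc 2 = 2 ^ 1 := by norm_num
        _ ≤ (H+1) ^ 1 := Nat.pow_le_pow_left (by omega) 1
        _ ≤ (H+1) ^ n := Nat.pow_le_pow_right (by omega) hn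
    have h2 : H * H ^ n ≤ H * (H+1) ^ n := Nat.mul_le_mul_left _ (Nat.pow_le_pow_left (by omega) n)
    have h3 : (H+1) ^ (n+1) = H * (H+1) ^ n + (H+1) ^ n := by ring
    have h4 : H ^ (n+1) = H * H ^ n := by ring
    rw [h3, h4]; omega
  obtain ⟨c, c', hne, heq⟩ := Fintype.exists_ne_map_eq_of_card_lt
    (fun c : Fin (n+1) → Fin (H+1) => (⟨⌊v c / L⌋₊, hbox c⟩ : Fin (H ^ (n+1) + 1))) hcard
  have heq' : ⌊v c / L⌋₊ = ⌊v c' / L⌋₊ := by
    have := congrArg Fin.val heq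
    exact this
  have hdiff : |v c - v c'| ≤ L := by
    have h1 := Nat.floor_le (div_nonneg (hv0 c) hL0.le)
    have h2 := Nat.lt_floor_add_one (v c / L)
    have h3 := Nat.floor_le (div_nonneg (hv0 c') hL0.le)
    have h4 := Nat.lt_floor_add_one (v c' / L)
    rw [heq'] at h1 h2
    rw [div_lt_iff₀ hL0] at h2 h4
    rw [le_div_iff₀ hL0] at h1 h3
    rw [abs_le]
    constructor <;> nlinarith
  set P : ℤ[X] := ∑ i : Fin (n+1), C (((c i : ℕ) : ℤ) - ((c' i : ℕ) : ℤ)) * X ^ (i:ℕ) with hP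
  have hcoeff : ∀ i : Fin (n+1), P.coeff i = ((c i : ℕ) : ℤ) - ((c' i : ℕ) : ℤ) := by
    intro i
    rw [hP, finsetSum_coeff]
    simp only [coeff_C_mul, coeff_X_pow, mul_ite, mul_one, mul_zero]
    rw [Finset.sum_eq_single i]
    · simp
    · intro b _ hb
      rw [if_neg]
      intro h
      exact hb (Fin.ext h.symm)
    · simp
  have hPn : P.natDegree ≤ n := by
    refine natDegree_sum_le_of_forall_le _ _ fun i _ => ?_
    refine (natDegree_C_mul_le _ _).trans ?_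
    rw [natDegree_X_pow]; omega
  refine ⟨P, ?_, hPn, ?_, ?_⟩
  · intro h0
    apply hne
    funext i
    have := hcoeff i
    rw [h0, coeff_zero] at this
    apply Fin.ext
    omega
  · apply ht_le
    intro i
    by_cases hi : i < n + 1
    · have := hcoeff ⟨i, hi⟩
      simp only at this
      rw [this]
      have h1 := (c ⟨i, hi⟩).2
      have h2 := (c' ⟨i, hi⟩).2
      omega
    · rw [coeff_eq_zero_of_natDegree_lt (by omega)]
      simp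
  · have h1 : (toR P).eval ξ = v c - v c' := by
      rw [hP, hv]
      simp only [toR, Polynomial.map_sum, eval_finsetSum]
      rw [← Finset.sum_sub_distrib]
      refine Finset.sum_congr rfl fun i _ => ?_
      simp
      ring
    rw [h1]
    calc |v c - v c'| * (H:ℝ) ^ n ≤ L * (H:ℝ) ^ n :=
          mul_le_mul_of_nonneg_right hdiff (by positivity)
      _ = n + 1 := by rw [hL]; field_simp

/-- the set of polynomials attached to an exponent -/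
def PS (ξ : ℝ) (n : ℕ) (w : ℝ) : Set ℤ[X] :=
  {P : ℤ[X] | P ≠ 0 ∧ P.natDegree ≤ n ∧ 0 < |Polynomial.aeval ξ P| ∧
    |Polynomial.aeval ξ P| ≤
      ((P.support.sup (fun i => (P.coeff i).natAbs) : ℕ) : ℝ) ^ (-w)}

/-- the exponents -/
def WS (ξ : ℝ) (n : ℕ) : Set ℝ := {w : ℝ | (PS ξ n w).Infinite}

lemma aeval_eq_toR (ξ : ℝ) (P : ℤ[X]) : Polynomial.aeval ξ P = (toR P).eval ξ := by
  rw [aeval_def, eval₂_eq_eval_map]; rfl

lemma WS_mono (ξ : ℝ) {n n' : ℕ} (h : n ≤ n') : WS ξ n ⊆ WS ξ n' := by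
  intro w hw
  exact Set.Infinite.mono (fun P hP => ⟨hP.1, hP.2.1.trans h, hP.2.2⟩) hw

lemma WS_upper (ξ : ℝ) (n κ : ℕ) (c : ℝ) (hc : 0 < c)
    (h : ∀ P : ℤ[X], P ≠ 0 → P.natDegree ≤ n → c ≤ |(toR P).eval ξ| * (ht P : ℝ) ^ κ) :
    ∀ w ∈ WS ξ n, w ≤ κ := by
  intro w hw
  by_contra hcon
  push Not at hcon
  apply hw
  have hu : 0 < w - κ := by linarith
  set B : ℝ := (1 / c) ^ (1 / (w - κ)) with hB
  apply Set.Finite.subset (polysOf n ⌊B⌋₊).finite_toSet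
  rintro P ⟨hP0, hPn, hP1, hP2⟩
  apply mem_polysOf hPn
  apply Nat.le_floor
  have hH1 : (1:ℝ) ≤ ht P := by exact_mod_cast one_le_ht hP0
  have hH0 : (0:ℝ) < ht P := by linarith
  rw [aeval_eq_toR] at hP2
  have h1 := h P hP0 hPn
  have h2 : c ≤ (ht P : ℝ) ^ (-w) * (ht P : ℝ) ^ κ :=
    h1.trans (mul_le_mul_of_nonneg_right hP2 (by positivity))
  have h3 : (ht P : ℝ) ^ (w - κ) ≤ 1 / c := by
    rw [le_div_iff₀ hc]
    calc (ht P : ℝ) ^ (w - κ) * c ≤ (ht P : ℝ) ^ (w - κ) * ((ht P : ℝ) ^ (-w) * (ht P : ℝ) ^ κ) :=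
          mul_le_mul_of_nonneg_left h2 (by positivity)
      _ = 1 := by
          rw [← Real.rpow_natCast, ← Real.rpow_add hH0, ← Real.rpow_add hH0]
          ring_nf
          rw [Real.rpow_zero]
  calc (ht P : ℝ) = ((ht P : ℝ) ^ (w - κ)) ^ (1 / (w - κ)) := by
        rw [← Real.rpow_mul hH0.le, mul_one_div_cancel hu.ne', Real.rpow_one]
    _ ≤ B := by
        rw [hB]
        exact Real.rpow_le_rpow (by positivity) h3 (by positivity)

lemma WS_one (ξ : ℝ) (hξ : ξ ∈ Icc (0:ℝ) 1) (htr : ∀ P : ℤ[X], P ≠ 0 → (toR P).eval ξ ≠ 0)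
    (h : ∀ M : ℕ, ∃ (q : ℕ) (p : ℤ), M ≤ q ∧ 2 ≤ q ∧ ξ ∈ Iv q p) : (398:ℝ) ∈ WS ξ 1 := by
  change (PS ξ 1 398).Infinite
  intro hfin
  obtain ⟨B, hB⟩ := (hfin.image ht).bddAbove
  obtain ⟨q, p, hq, hq2, hIv⟩ := h (B + 1)
  have hqr : (2:ℝ) ≤ q := by exact_mod_cast hq2
  have hq0 : (0:ℝ) < q := by linarith
  have hpos : 0 < ((q:ℝ) ^ 400)⁻¹ := by positivity
  obtain ⟨h1, h2⟩ := hIv
  -- |p| ≤ q
  have hsmall : 2 * ((q:ℝ) ^ 400)⁻¹ ≤ 1 := by
    have h3 : (2:ℝ) ≤ (q:ℝ) ^ 400 := hqr.trans (le_self_pow₀ (by linarith) (by norm_num))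
    rw [← div_eq_mul_inv, div_le_one (by positivity)]
    exact h3
  have hpq1 : (p:ℝ) ≤ q := by
    have h3 : (p:ℝ) / q ≤ 1 := by linarith [hξ.2]
    rwa [div_le_one hq0] at h3
  have hpq2 : -(q:ℝ) ≤ p := by
    have h3 : -1 ≤ (p:ℝ) / q := by linarith [hξ.1]
    rw [le_div_iff₀ hq0] at h3
    linarith
  have hpq : p.natAbs ≤ q := by
    have h3 : p ≤ q := by exact_mod_cast hpq1
    have h4 : -(q:ℤ) ≤ p := by exact_mod_cast hpq2
    omega
  set P : ℤ[X] := C (q:ℤ) * X - C p with hP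
  have hc1 : P.coeff 1 = q := by
    rw [hP, coeff_sub, coeff_C_mul, coeff_X_one, coeff_C_of_ne_zero one_ne_zero]; simp
  have hc0 : P.coeff 0 = -p := by
    rw [hP, coeff_sub, coeff_C_mul, coeff_X_zero, coeff_C_zero]; simp
  have hP0 : P ≠ 0 := by
    intro h0
    rw [h0, coeff_zero] at hc1
    omega
  have hPn : P.natDegree ≤ 1 := by
    rw [hP]
    refine (natDegree_sub_le _ _).trans (max_le ?_ ?_)
    · exact (natDegree_C_mul_le _ _).trans natDegree_X_le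
    · rw [natDegree_C]; omega
  have hht : ht P = q := by
    apply le_antisymm
    · apply ht_le
      intro i
      rcases i with _ | _ | i
      · rw [hc0, Int.natAbs_neg]; exact hpq
      · rw [zero_add, hc1]; simp
      · rw [coeff_eq_zero_of_natDegree_lt (by omega)]; simp
    · have := natAbs_coeff_le_ht P 1
      rw [hc1] at this
      simpa using this
  have hev : (toR P).eval ξ = q * ξ - p := by
    rw [hP]; simp [toR]
  have hmem : P ∈ PS ξ 1 398 := by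
    refine ⟨hP0, hPn, ?_, ?_⟩
    · rw [aeval_eq_toR]; exact abs_pos.2 (htr P hP0)
    · rw [aeval_eq_toR, hev]
      change |(q:ℝ) * ξ - p| ≤ ((ht P : ℕ) : ℝ) ^ (-(398:ℝ))
      rw [hht]
      have h3 : (q:ℝ) * ξ - p = q * (ξ - p / q) := by field_simp
      have h4 : |ξ - (p:ℝ) / q| ≤ 2 * ((q:ℝ) ^ 400)⁻¹ := by
        rw [abs_le]; constructor <;> linarith
      rw [h3, abs_mul, abs_of_pos hq0, Real.rpow_neg hq0.le]
      have h5 : (q:ℝ) ^ (398:ℝ) = (q:ℝ) ^ 398 := by norm_cast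
      rw [h5]
      have h400 : (q:ℝ) ^ 400 = q * (q * (q:ℝ) ^ 398) := by ring
      calc (q:ℝ) * |ξ - p / q| ≤ q * (2 * ((q:ℝ) ^ 400)⁻¹) := mul_le_mul_of_nonneg_left h4 hq0.le
        _ = (2 / q) * ((q:ℝ) ^ 398)⁻¹ := by rw [h400]; field_simp
        _ ≤ 1 * ((q:ℝ) ^ 398)⁻¹ := by
            apply mul_le_mul_of_nonneg_right _ (by positivity)
            rw [div_le_one hq0]; exact hqr
        _ = ((q:ℝ) ^ 398)⁻¹ := one_mul _
  have := hB ⟨P, hmem, rfl⟩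
  omega

lemma WS_lower (ξ : ℝ) (hξ : ξ ∈ Icc (0:ℝ) 1) (htr : ∀ P : ℤ[X], P ≠ 0 → (toR P).eval ξ ≠ 0)
    (n : ℕ) (hn : 2 ≤ n) : ((n:ℝ) - 1) ∈ WS ξ n := by
  change (PS ξ n ((n:ℝ) - 1)).Infinite
  intro hfin
  have hn1 : (1:ℝ) ≤ (n:ℝ) - 1 := by
    have : (2:ℝ) ≤ n := by exact_mod_cast hn
    linarith
  -- a positive lower bound on the finite set
  obtain ⟨δ, hδ, hδm⟩ : ∃ δ : ℝ, 0 < δ ∧ ∀ P ∈ PS ξ n ((n:ℝ) - 1), δ ≤ |(toR P).eval ξ| := by
    rcases (PS ξ n ((n:ℝ) - 1)).eq_empty_or_nonempty with he | hne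
    · exact ⟨1, one_pos, by rw [he]; simp⟩
    · obtain ⟨P0, hP0, hmin⟩ := Set.exists_min_image _ (fun P => |(toR P).eval ξ|) hfin hne
      exact ⟨|(toR P0).eval ξ|, abs_pos.2 (htr P0 hP0.1), hmin⟩
  -- choose the height
  obtain ⟨H, hH⟩ := exists_nat_gt (max ((n:ℝ) + 1) (1 / δ))
  have hH1 : (n:ℝ) + 1 < H := (le_max_left _ _).trans_lt hH
  have hH2 : 1 / δ < H := (le_max_right _ _).trans_lt hH
  have hHr : (1:ℝ) ≤ H := by have : (0:ℝ) ≤ n := Nat.cast_nonneg n; linarith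
  have hH0 : (0:ℝ) < H := by linarith
  obtain ⟨P, hP0, hPn, hPH, hPs⟩ := dirichlet_poly ξ hξ n H (by omega) (by exact_mod_cast hHr)
  have hle : |(toR P).eval ξ| ≤ (H:ℝ) ^ (-((n:ℝ) - 1)) := by
    have h1 : |(toR P).eval ξ| * (H:ℝ) ^ n ≤ H := hPs.trans hH1.le
    rw [← le_div_iff₀ (by positivity)] at h1
    refine h1.trans (le_of_eq ?_)
    rw [neg_sub, Real.rpow_sub hH0, Real.rpow_one, Real.rpow_natCast]
  have hHt1 : (1:ℝ) ≤ ht P := by exact_mod_cast one_le_ht hP0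
  have hHt : (ht P : ℝ) ≤ H := by exact_mod_cast hPH
  have hmem : P ∈ PS ξ n ((n:ℝ) - 1) := by
    refine ⟨hP0, hPn, ?_, ?_⟩
    · rw [aeval_eq_toR]; exact abs_pos.2 (htr P hP0)
    · rw [aeval_eq_toR]
      change |(toR P).eval ξ| ≤ ((ht P : ℕ) : ℝ) ^ (-((n:ℝ) - 1))
      refine hle.trans ?_
      exact Real.rpow_le_rpow_of_nonpos (by linarith) hHt (by linarith)
  have h1 := hδm P hmem
  have h2 : (H:ℝ) ^ (-((n:ℝ) - 1)) ≤ (H:ℝ)⁻¹ := by
    rw [← Real.rpow_neg_one]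
    exact Real.rpow_le_rpow_of_exponent_le hHr (by linarith)
  have h3 : (H:ℝ)⁻¹ < δ := by
    rw [inv_lt_comm₀ hH0 hδ, ← one_div]; exact hH2
  linarith

theorem final :
    ∃ ξ : ℝ, ∃ f : ℕ → ℝ,
      (∀ n : ℕ, 1 ≤ n →
        IsLUB {w : ℝ | {P : Polynomial ℤ | P ≠ 0 ∧ P.natDegree ≤ n ∧
            0 < |Polynomial.aeval ξ P| ∧
            |Polynomial.aeval ξ P| ≤
              ((P.support.sup (fun i => (P.coeff i).natAbs) : ℕ) : ℝ) ^ (-w)}.Infinite}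
          (f n)) ∧
      (∃ C : ℝ, ∀ n : ℕ, 1 ≤ n → f n / (n : ℝ) ≤ C) ∧
      (∃ ε : ℝ, 0 < ε ∧ ∃ᶠ n : ℕ in Filter.atTop, ε ≤ f n / (n : ℝ)) ∧
      (∃ m : ℕ, 1 ≤ m ∧ ∃ c : ℝ, c < (f m + 1) / ((m : ℝ) + 1) ∧
        ∀ᶠ n : ℕ in Filter.atTop, (f n + 1) / ((n : ℝ) + 1) ≤ c) := by
  obtain ⟨ξ, hξ, htr, hq, hlow⟩ := exists_xi
  have hup : ∀ n : ℕ, 4 ≤ n → ∀ w ∈ WS ξ n, w ≤ 180 * ((n:ℝ) + 1) := by
    intro n hn w hw
    obtain ⟨c, hc, hcP⟩ := hlow n hn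
    have := WS_upper ξ n ((n+1) * 180) c hc hcP w hw
    push_cast at this
    linarith
  have h398 : ∀ n : ℕ, 1 ≤ n → (398:ℝ) ∈ WS ξ n := fun n hn =>
    WS_mono ξ hn (WS_one ξ hξ htr hq)
  have hbdd : ∀ n : ℕ, BddAbove (WS ξ n) := by
    intro n
    refine ⟨180 * (((max n 4 : ℕ):ℝ) + 1), fun w hw => ?_⟩
    exact hup (max n 4) (le_max_right _ _) w (WS_mono ξ (le_max_left _ _) hw)
  have hlub : ∀ n : ℕ, 1 ≤ n → IsLUB (WS ξ n) (sSup (WS ξ n)) := fun n hn =>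
    isLUB_csSup ⟨398, h398 n hn⟩ (hbdd n)
  have hfup : ∀ n : ℕ, 4 ≤ n → sSup (WS ξ n) ≤ 180 * ((n:ℝ) + 1) := fun n hn =>
    csSup_le ⟨398, h398 n (by omega)⟩ (hup n hn)
  refine ⟨ξ, fun n => sSup (WS ξ n), hlub, ⟨900, ?_⟩, ⟨1/2, by norm_num, ?_⟩,
    1, le_rfl, 181, ?_, ?_⟩
  · intro n hn
    have hn0 : (0:ℝ) < n := by exact_mod_cast hn
    have hn1 : (1:ℝ) ≤ n := by exact_mod_cast hn
    rw [div_le_iff₀ hn0]
    rcases le_total 4 n with h | h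
    · have := hfup n h
      linarith
    · have h1 : sSup (WS ξ n) ≤ sSup (WS ξ 4) :=
        csSup_le_csSup (hbdd 4) ⟨398, h398 n hn⟩ (WS_mono ξ h)
      have h2 := hfup 4 le_rfl
      push_cast at h2
      linarith
  · apply Filter.Eventually.frequently
    filter_upwards [eventually_ge_atTop 2] with n hn
    have hn2 : (2:ℝ) ≤ n := by exact_mod_cast hn
    have h1 : (n:ℝ) - 1 ≤ sSup (WS ξ n) := le_csSup (hbdd n) (WS_lower ξ hξ htr n hn)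
    rw [le_div_iff₀ (by linarith)]
    linarith
  · have h1 : (398:ℝ) ≤ sSup (WS ξ 1) := le_csSup (hbdd 1) (h398 1 le_rfl)
    push_cast
    rw [lt_div_iff₀ (by norm_num)]
    linarith
  · filter_upwards [eventually_ge_atTop 4] with n hn
    have h1 := hfup n hn
    have hn0 : (0:ℝ) ≤ n := Nat.cast_nonneg n
    rw [div_le_iff₀ (by linarith)]
    linarith

end Pool.Agent.H8KM
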