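import Pool.Agent.H8KM.KM
import Pool.Agent.H8KM.PolyGood

set_option autoImplicit false

open MeasureTheory Set Polynomial

namespace Pool.Agent.H8KM

variable {m κ : Type*} [Fintype m] [Fintype κ]

/-- the value polynomial of the form `s` at the integer vector `v` -/
noncomputable def formP (L : κ → m → ℤ[X]) (s : κ) (v : m → ℤ) : ℤ[X] := ∑ c, L s c * C (v c)

/-- minors -/
noncomputable def minorP (L : κ → m → ℤ[X]) {j : ℕ} (σ : Fin j → κ) (v : Fin j → m → ℤ) : ℤ[X] :=
  Matrix.det (Matrix.of fun i k => formP L (σ i) (v k))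

lemma formP_add (L : κ → m → ℤ[X]) (s : κ) (v w : m → ℤ) :
    formP L s (v + w) = formP L s v + formP L s w := by
  unfold formP
  rw [← Finset.sum_add_distrib]
  refine Finset.sum_congr rfl fun c _ => ?_
  simp [mul_add]

lemma formP_smul (L : κ → m → ℤ[X]) (s : κ) (a : ℤ) (v : m → ℤ) :
    formP L s (a • v) = C a * formP L s v := by
  unfold formP
  rw [Finset.mul_sum]
  refine Finset.sum_congr rfl fun c _ => ?_
  simp; ring

/-- the form as a linear map -/
noncomputable def formLin (L : κ → m → ℤ[X]) (s : κ) : (m → ℤ) →ₗ[ℤ] ℤ[X] where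
  toFun := formP L s
  map_add' := formP_add L s
  map_smul' := fun a v => by
    rw [formP_smul]; simp [Algebra.smul_def]

lemma formP_sum (L : κ → m → ℤ[X]) (s : κ) {ι : Type*} (t : Finset ι) (a : ι → ℤ)
    (b : ι → m → ℤ) : formP L s (∑ l ∈ t, a l • b l) = ∑ l ∈ t, C (a l) * formP L s (b l) := by
  have := map_sum (formLin L s) (fun l => a l • b l) t
  change formP L s _ = _ at this
  rw [this]
  refine Finset.sum_congr rfl fun l _ => ?_
  exact formP_smul L s (a l) (b l)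

lemma minorP_mul (L : κ → m → ℤ[X]) {j : ℕ} (σ : Fin j → κ) (b c : Fin j → m → ℤ)
    (T : Matrix (Fin j) (Fin j) ℤ) (h : ∀ k, c k = ∑ l, T l k • b l) :
    minorP L σ c = minorP L σ b * C T.det := by
  unfold minorP
  have h1 : (Matrix.of fun i k => formP L (σ i) (c k)) =
      (Matrix.of fun i k => formP L (σ i) (b k)) * (T.map (C : ℤ →+* ℤ[X])) := by
    ext1 i k
    rw [Matrix.mul_apply]
    simp only [Matrix.of_apply, Matrix.map_apply]
    rw [h k, formP_sum]
    refine Finset.sum_congr rfl fun l _ => ?_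
    ring
  rw [h1, Matrix.det_mul]
  congr 1
  have := RingHom.map_det (C : ℤ →+* ℤ[X]) T
  rw [this]
  rfl

lemma minorP_cons (L : κ → m → ℤ[X]) {j : ℕ} (σ : Fin (j+1) → κ) (b : Fin j → m → ℤ)
    (v : m → ℤ) : minorP L σ (Fin.cons v b : Fin (j+1) → m → ℤ) =
      ∑ i : Fin (j+1), (-1)^(i:ℕ) * formP L (σ i) v * minorP L (σ ∘ i.succAbove) b := by
  unfold minorP
  rw [Matrix.det_succ_column_zero]
  refine Finset.sum_congr rfl fun i _ => ?_
  congr 1

lemma natDegree_formP_le (L : κ → m → ℤ[X]) (Δ : ℕ) (hL : ∀ s c, (L s c).natDegree ≤ Δ)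
    (s : κ) (v : m → ℤ) : (formP L s v).natDegree ≤ Δ := by
  unfold formP
  refine natDegree_sum_le_of_forall_le _ _ fun c _ => ?_
  exact (natDegree_mul_C_le _ _).trans (hL s c)

lemma natDegree_minorP_le (L : κ → m → ℤ[X]) (Δ : ℕ) (hL : ∀ s c, (L s c).natDegree ≤ Δ)
    {j : ℕ} (σ : Fin j → κ) (v : Fin j → m → ℤ) : (minorP L σ v).natDegree ≤ j * Δ := by
  unfold minorP
  rw [Matrix.det_apply]
  refine natDegree_sum_le_of_forall_le _ _ fun π _ => ?_
  refine (natDegree_smul_le _ _).trans ?_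
  refine (natDegree_prod_le _ _).trans ?_
  calc ∑ i, (Matrix.of (fun i k => formP L (σ i) (v k)) (π i) i).natDegree
      ≤ ∑ _i : Fin j, Δ := Finset.sum_le_sum fun i _ => natDegree_formP_le L Δ hL _ _
    _ = j * Δ := by simp

/-- the real polynomial attached to an integer polynomial -/
noncomputable abbrev toR (f : ℤ[X]) : ℝ[X] := f.map (Int.castRingHom ℝ)

/-- the size function -/
noncomputable def psi (L : κ → m → ℤ[X]) (d : κ → ℝ) {j : ℕ} (v : Fin j → m → ℤ) (x : ℝ) : ℝ :=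
  ‖fun σ : Fin j → κ => (∏ i, d (σ i)) * (toR (minorP L σ v)).eval x‖

lemma psi_continuous (L : κ → m → ℤ[X]) (d : κ → ℝ) {j : ℕ} (v : Fin j → m → ℤ) :
    Continuous (psi L d v) := by
  unfold psi
  apply Continuous.norm
  apply continuous_pi
  intro σ
  exact continuous_const.mul (toR (minorP L σ v)).continuous

lemma psi_good (L : κ → m → ℤ[X]) (d : κ → ℝ) {j : ℕ} (v : Fin j → m → ℤ) (D : ℕ) (hD : 1 ≤ D)
    (hdeg : ∀ σ : Fin j → κ, (minorP L σ v).natDegree ≤ D) (ε : ℝ) (hε : 0 < ε) (a b : ℝ)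
    (hab : a < b) (hy : ∃ y ∈ Icc a b, 1 ≤ psi L d v y) :
    volume {x ∈ Icc a b | psi L d v x < ε} ≤
      ENNReal.ofReal (4 * D * ε ^ ((1:ℝ) / D) * (b - a)) := by
  obtain ⟨y, hyab, hy1⟩ := hy
  have hex : ∃ σ : Fin j → κ, 1 ≤ |(∏ i, d (σ i)) * (toR (minorP L σ v)).eval y| := by
    by_contra hcon
    push Not at hcon
    have : psi L d v y < 1 := by
      unfold psi
      rw [pi_norm_lt_iff one_pos]
      intro σ
      rw [Real.norm_eq_abs]
      exact hcon σ
    linarith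
  obtain ⟨σ, hσ⟩ := hex
  set f : ℝ[X] := C (∏ i, d (σ i)) * toR (minorP L σ v) with hf
  have hfe : ∀ x, f.eval x = (∏ i, d (σ i)) * (toR (minorP L σ v)).eval x := by
    intro x; rw [hf, eval_mul, eval_C]
  have hfd : f.natDegree ≤ D := by
    rw [hf]
    exact (natDegree_C_mul_le _ _).trans ((natDegree_map_le).trans (hdeg σ))
  have := sublevel_bound f D hD hfd a b hab ⟨y, hyab, by rw [hfe]; exact hσ⟩ ε hε
  refine (measure_mono ?_).trans this
  rintro x ⟨hx, hxε⟩
  refine ⟨hx, ?_⟩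
  rw [hfe]
  unfold psi at hxε
  rw [pi_norm_lt_iff hε] at hxε
  have := hxε σ
  rwa [Real.norm_eq_abs] at this

lemma psi_cons_le (L : κ → m → ℤ[X]) (d : κ → ℝ) {j : ℕ} (b : Fin j → m → ℤ) (v : m → ℤ)
    (x δ : ℝ) (hδ : 0 ≤ δ) (hv : ∀ s, |d s * (toR (formP L s v)).eval x| ≤ δ) :
    psi L d (Fin.cons v b : Fin (j+1) → m → ℤ) x ≤ (j + 1) * δ * psi L d b x := by
  have hψ0 : 0 ≤ psi L d b x := norm_nonneg _
  unfold psi
  rw [pi_norm_le_iff_of_nonneg (by positivity)]
  intro σ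
  rw [minorP_cons, Real.norm_eq_abs]
  have h1 : (∏ i, d (σ i)) * (toR (∑ i : Fin (j+1), (-1)^(i:ℕ) * formP L (σ i) v *
      minorP L (σ ∘ i.succAbove) b)).eval x =
      ∑ i : Fin (j+1), (-1)^(i:ℕ) * (d (σ i) * (toR (formP L (σ i) v)).eval x) *
        ((∏ i', d ((σ ∘ i.succAbove) i')) * (toR (minorP L (σ ∘ i.succAbove) b)).eval x) := by
    simp only [toR, Polynomial.map_sum, eval_finsetSum, Finset.mul_sum]
    refine Finset.sum_congr rfl fun i _ => ?_
    rw [Fin.prod_univ_succAbove (fun i => d (σ i)) i]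
    simp only [Polynomial.map_mul, Polynomial.map_pow, Polynomial.map_neg, Polynomial.map_one,
      eval_mul, eval_pow, eval_neg, eval_one, Function.comp]
    ring
  rw [h1]
  refine (Finset.abs_sum_le_sum_abs _ _).trans ?_
  calc ∑ i : Fin (j+1), |(-1)^(i:ℕ) * (d (σ i) * (toR (formP L (σ i) v)).eval x) *
        ((∏ i', d ((σ ∘ i.succAbove) i')) * (toR (minorP L (σ ∘ i.succAbove) b)).eval x)|
      ≤ ∑ _i : Fin (j+1), δ * psi L d b x := by
        refine Finset.sum_le_sum fun i _ => ?_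
        rw [abs_mul, abs_mul, abs_pow, abs_neg, abs_one, one_pow, one_mul]
        apply mul_le_mul (hv (σ i)) _ (abs_nonneg _) hδ
        unfold psi
        exact norm_le_pi_norm (fun σ' : Fin j → κ => (∏ i, d (σ' i)) *
          (toR (minorP L σ' b)).eval x) (σ ∘ i.succAbove)
    _ = (j + 1) * δ * psi L d b x := by
        rw [Finset.sum_const, Finset.card_univ, Fintype.card_fin, nsmul_eq_mul]; push_cast; ring

lemma psi_le_of_det (L : κ → m → ℤ[X]) (d : κ → ℝ) {j : ℕ} (b c : Fin j → m → ℤ)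
    (T : Matrix (Fin j) (Fin j) ℤ) (h : ∀ k, c k = ∑ l, T l k • b l) (hT : T.det ≠ 0) (x : ℝ) :
    psi L d b x ≤ psi L d c x := by
  have h0 : 0 ≤ psi L d c x := norm_nonneg _
  have hT1 : (1:ℝ) ≤ |(T.det : ℝ)| := by
    rw [← Int.cast_abs]
    exact_mod_cast Int.one_le_abs hT
  conv_lhs => unfold psi
  rw [pi_norm_le_iff_of_nonneg h0]
  intro σ
  have h1 := norm_le_pi_norm (fun σ' : Fin j → κ => (∏ i, d (σ' i)) *
          (toR (minorP L σ' c)).eval x) σ
  change _ ≤ psi L d c x at h1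
  refine le_trans ?_ h1
  have hTe : (toR (minorP L σ b * C T.det)).eval x = (toR (minorP L σ b)).eval x * (T.det : ℝ) := by
    simp [toR]
  simp only [minorP_mul L σ b c T h, Real.norm_eq_abs, abs_mul]
  rw [hTe, abs_mul]
  have h2 : 0 ≤ |∏ i, d (σ i)| * |(toR (minorP L σ b)).eval x| := by
    positivity
  nlinarith

end Pool.Agent.H8KM
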