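import Pool.Agent.H8KM.Height
import Pool.Agent.H8KM.Minor

set_option autoImplicit false

open Polynomial

namespace Pool.Agent.H8KM

/-- Mahler measure of an integer polynomial -/
noncomputable def MM (P : ℤ[X]) : ℝ := (P.map (Int.castRingHom ℂ)).mahlerMeasure

lemma MM_mul (P Q : ℤ[X]) : MM (P * Q) = MM P * MM Q := by
  unfold MM
  rw [Polynomial.map_mul, mahlerMeasure_mul]

lemma MM_nonneg (P : ℤ[X]) : 0 ≤ MM P := mahlerMeasure_nonneg _

lemma one_le_MM {P : ℤ[X]} (hP : P ≠ 0) : 1 ≤ MM P := by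
  unfold MM
  apply one_le_mahlerMeasure_of_one_le_norm_leadingCoeff
  rw [leadingCoeff_map_of_injective (Int.cast_injective (α := ℂ))]
  simp only [eq_intCast, Complex.norm_intCast]
  rw [← Int.cast_abs]
  exact_mod_cast Int.one_le_abs (leadingCoeff_ne_zero.2 hP)

lemma ht_le_MM {n : ℕ} {P : ℤ[X]} (hn : P.natDegree ≤ n) : (ht P : ℝ) ≤ 2 ^ n * MM P := by
  have h0 : 0 ≤ (2:ℝ) ^ n * MM P := mul_nonneg (by positivity) (MM_nonneg P)
  have h1 : ∀ i, ((P.coeff i).natAbs : ℝ) ≤ 2 ^ n * MM P := by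
    intro i
    have h2 := norm_coeff_le_choose_mul_mahlerMeasure i (P.map (Int.castRingHom ℂ))
    rw [coeff_map, natDegree_map_eq_of_injective (Int.cast_injective (α := ℂ))] at h2
    simp only [eq_intCast, Complex.norm_intCast] at h2
    have h3 : ((P.coeff i).natAbs : ℝ) = |((P.coeff i : ℤ) : ℝ)| := by
      rw [← Int.cast_abs, Int.abs_eq_natAbs]; simp
    rw [h3]
    refine h2.trans ?_
    apply mul_le_mul_of_nonneg_right _ (MM_nonneg P)
    have h4 : P.natDegree.choose i ≤ 2 ^ n :=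
      (Nat.choose_le_two_pow _ _).trans (Nat.pow_le_pow_right (by norm_num) hn)
    exact_mod_cast h4
  have h2 : ht P ≤ ⌊2 ^ n * MM P⌋₊ := by
    apply ht_le
    intro i
    exact Nat.le_floor (h1 i)
  calc (ht P : ℝ) ≤ (⌊2 ^ n * MM P⌋₊ : ℝ) := by exact_mod_cast h2
    _ ≤ _ := Nat.floor_le h0

lemma MM_le_ht {n : ℕ} {P : ℤ[X]} (hn : P.natDegree ≤ n) : MM P ≤ (n + 1) * ht P := by
  unfold MM
  refine (mahlerMeasure_le_sum_norm_coeff _).trans ?_
  rw [sum_over_range' _ (by simp) (n+1)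
    (by rw [natDegree_map_eq_of_injective (Int.cast_injective (α := ℂ))]; omega)]
  calc ∑ a ∈ Finset.range (n+1), ‖(P.map (Int.castRingHom ℂ)).coeff a‖
      ≤ ∑ _a ∈ Finset.range (n+1), (ht P : ℝ) := by
        refine Finset.sum_le_sum fun i _ => ?_
        rw [coeff_map]
        simp only [eq_intCast, Complex.norm_intCast]
        exact abs_coeff_le_ht P i
    _ = (n + 1) * ht P := by simp

theorem gelfond_lower (ξ : ℝ) (n κ : ℕ) (c : ℝ) (hc : 0 < c) (hc1 : c ≤ 1)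
    (h : ∀ P : ℤ[X], Irreducible P → 1 ≤ P.natDegree → P.natDegree ≤ n →
      c ≤ |(toR P).eval ξ| * (ht P : ℝ) ^ κ) :
    ∃ c' : ℝ, 0 < c' ∧ ∀ P : ℤ[X], P ≠ 0 → P.natDegree ≤ n →
      c' ≤ |(toR P).eval ξ| * (ht P : ℝ) ^ κ := by
  set c1 : ℝ := c / ((2:ℝ) ^ n) ^ κ with hc1d
  have hc10 : 0 < c1 := by positivity
  have h2n : (1:ℝ) ≤ ((2:ℝ) ^ n) ^ κ := one_le_pow₀ (one_le_pow₀ (by norm_num))
  have hc11 : c1 ≤ 1 := by
    rw [hc1d, div_le_one (by positivity)]; linarith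
  have hconst : ∀ a : ℤ, a ≠ 0 → 1 ≤ |(toR (C a)).eval ξ| * MM (C a) ^ κ := by
    intro a ha
    have h1 : (1:ℝ) ≤ |(a:ℝ)| := by
      rw [← Int.cast_abs]; exact_mod_cast Int.one_le_abs ha
    have h2 : (toR (C a)).eval ξ = a := by simp [toR]
    have h3 : 1 ≤ MM (C a) := one_le_MM (by rwa [Ne, C_eq_zero])
    rw [h2]
    have h4 : 1 ≤ MM (C a) ^ κ := one_le_pow₀ h3
    nlinarith
  have hirr : ∀ P : ℤ[X], Irreducible P → 1 ≤ P.natDegree → P.natDegree ≤ n →
      c1 ≤ |(toR P).eval ξ| * MM P ^ κ := by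
    intro P hP h1 h2
    have h3 := h P hP h1 h2
    have h4 : (ht P : ℝ) ^ κ ≤ ((2:ℝ) ^ n) ^ κ * MM P ^ κ := by
      rw [← mul_pow]
      exact pow_le_pow_left₀ (by positivity) (ht_le_MM h2) κ
    rw [hc1d, div_le_iff₀ (by positivity)]
    calc c ≤ |(toR P).eval ξ| * (ht P : ℝ) ^ κ := h3
      _ ≤ |(toR P).eval ξ| * (((2:ℝ) ^ n) ^ κ * MM P ^ κ) :=
          mul_le_mul_of_nonneg_left h4 (abs_nonneg _)
      _ = _ := by ring
  have hall : ∀ P : ℤ[X], P ≠ 0 → P.natDegree ≤ n →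
      c1 ^ P.natDegree ≤ |(toR P).eval ξ| * MM P ^ κ := by
    intro P
    refine WfDvdMonoid.induction_on_irreducible (motive := fun P : ℤ[X] =>
      P ≠ 0 → P.natDegree ≤ n → c1 ^ P.natDegree ≤ |(toR P).eval ξ| * MM P ^ κ) P ?_ ?_ ?_
    · intro h0; exact absurd rfl h0
    · intro u hu hu0 _
      have hd : u.natDegree = 0 := natDegree_eq_zero_of_isUnit hu
      rw [hd, pow_zero]
      obtain ⟨a, rfl⟩ := natDegree_eq_zero.1 hd
      exact hconst a (by rwa [Ne, C_eq_zero] at hu0)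
    · intro a i ha hi IH hne hdeg
      have hi0 := hi.ne_zero
      rw [natDegree_mul hi0 ha] at hdeg ⊢
      have h1 := IH ha (by omega)
      have h2 : c1 ^ i.natDegree ≤ |(toR i).eval ξ| * MM i ^ κ := by
        by_cases hd : i.natDegree = 0
        · rw [hd, pow_zero]
          obtain ⟨b, rfl⟩ := natDegree_eq_zero.1 hd
          exact hconst b (by rwa [Ne, C_eq_zero] at hi0)
        · have h3 := hirr i hi (by omega) (by omega)
          refine le_trans ?_ h3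
          calc c1 ^ i.natDegree ≤ c1 ^ 1 := pow_le_pow_of_le_one hc10.le hc11 (by omega)
            _ = c1 := pow_one _
      have h4 : toR (i * a) = toR i * toR a := by simp [toR]
      rw [h4, eval_mul, abs_mul, MM_mul, mul_pow, pow_add]
      calc c1 ^ i.natDegree * c1 ^ a.natDegree ≤
          (|(toR i).eval ξ| * MM i ^ κ) * (|(toR a).eval ξ| * MM a ^ κ) :=
            mul_le_mul h2 h1 (by positivity) (mul_nonneg (abs_nonneg _)
              (pow_nonneg (MM_nonneg _) _))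
        _ = _ := by ring
  refine ⟨c1 ^ n / ((n:ℝ) + 1) ^ κ, by positivity, ?_⟩
  intro P hP hPn
  have h1 := hall P hP hPn
  rw [div_le_iff₀ (by positivity)]
  calc c1 ^ n ≤ c1 ^ P.natDegree := pow_le_pow_of_le_one hc10.le hc11 hPn
    _ ≤ |(toR P).eval ξ| * MM P ^ κ := h1
    _ ≤ |(toR P).eval ξ| * (((n:ℝ) + 1) * ht P) ^ κ := by
        apply mul_le_mul_of_nonneg_left _ (abs_nonneg _)
        exact pow_le_pow_left₀ (MM_nonneg P) (MM_le_ht hPn) κ
    _ = _ := by rw [mul_pow]; ring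

end Pool.Agent.H8KM
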