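import Mathlib

set_option autoImplicit false

open Module Set

namespace Pool.Agent.H8KM

lemma rank_ker {K : Type*} [Field K] {κ : Type*} [Fintype κ] {j : ℕ} (M : κ → Fin j → K) (S : Set κ)
    (D : Submodule K (Fin j → K))
    (hD : ∀ c : Fin j → K, (∀ s ∈ S, ∑ k, M s k * c k = 0) → c ∈ D) :
    j ≤ finrank K (Submodule.span K (M '' S)) + finrank K D := by
  classical
  set A : Matrix S (Fin j) K := Matrix.of fun s k => M s k with hA
  have h1 : A.rank = finrank K (Submodule.span K (M '' S)) := by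
    rw [Matrix.rank_eq_finrank_span_row]
    have : range A.row = M '' S := by
      ext z
      constructor
      · rintro ⟨s, rfl⟩
        exact ⟨s, s.2, rfl⟩
      · rintro ⟨s, hs, rfl⟩
        exact ⟨⟨s, hs⟩, rfl⟩
    rw [this]
  have h2 := LinearMap.finrank_range_add_finrank_ker A.mulVecLin
  have h3 : LinearMap.ker A.mulVecLin ≤ D := by
    intro c hc
    apply hD
    intro s hs
    have h4 : A.mulVecLin c = 0 := hc
    have := congrFun h4 ⟨s, hs⟩
    exact this
  have h4 : finrank K (LinearMap.ker A.mulVecLin) ≤ finrank K D := Submodule.finrank_mono h3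
  have h5 : finrank K (Fin j → K) = j := by simp
  have h6 : A.rank = finrank K (LinearMap.range A.mulVecLin) := rfl
  omega

theorem greedy {K : Type*} [Field K] {κ : Type*} [Fintype κ] {j : ℕ} (M : κ → Fin j → K) (S1 S2 : Set κ)
    (h12 : S1 ⊆ S2) (hfull : finrank K (Submodule.span K (range M)) = j) :
    ∃ σ : Fin j → κ, Matrix.det (Matrix.of fun i k => M (σ i) k) ≠ 0 ∧
      ∃ F1 F2 : Finset (Fin j), (∀ i, i ∈ F1 ↔ σ i ∈ S1) ∧ (∀ i, i ∈ F2 ↔ σ i ∈ S2) ∧
      finrank K (Submodule.span K (M '' S1)) ≤ F1.card ∧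
      finrank K (Submodule.span K (M '' S2)) ≤ F2.card := by
  classical
  have h0 : LinearIndepOn K M (∅ : Set κ) := linearIndepOn_empty K M
  set I1 := h0.extend (empty_subset S1) with hI1
  have hI1i : LinearIndepOn K M I1 := h0.linearIndepOn_extend _
  have hI1s : I1 ⊆ S1 := h0.extend_subset _
  have hI1p : Submodule.span K (M '' I1) = Submodule.span K (M '' S1) :=
    h0.span_image_extend_eq_span_image _
  set I2 := hI1i.extend (hI1s.trans h12) with hI2
  have hI2i : LinearIndepOn K M I2 := hI1i.linearIndepOn_extend _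
  have hI2s : I2 ⊆ S2 := hI1i.extend_subset _
  have hI12 : I1 ⊆ I2 := hI1i.subset_extend _
  have hI2p : Submodule.span K (M '' I2) = Submodule.span K (M '' S2) :=
    hI1i.span_image_extend_eq_span_image _
  set I3 := hI2i.extend (subset_univ I2) with hI3
  have hI3i : LinearIndepOn K M I3 := hI2i.linearIndepOn_extend _
  have hI23 : I2 ⊆ I3 := hI2i.subset_extend _
  have hI3p : Submodule.span K (M '' I3) = Submodule.span K (M '' univ) :=
    hI2i.span_image_extend_eq_span_image _
  have hcard : ∀ I : Set κ, LinearIndepOn K M I →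
      finrank K (Submodule.span K (M '' I)) = I.toFinset.card := by
    intro I hI
    have h1 : LinearIndependent K (fun x : I => M x) := hI
    have := finrank_span_eq_card h1
    have h2 : range (fun x : I => M x) = M '' I := by
      ext z; simp
    rw [h2] at this
    rw [this, Set.toFinset_card]
  have hc3 : Fintype.card I3 = Fintype.card (Fin j) := by
    have := hcard I3 hI3i
    rw [hI3p, image_univ, hfull, Set.toFinset_card] at this
    rw [Fintype.card_fin]; exact this.symm
  set e : Fin j ≃ I3 := (Fintype.equivOfCardEq hc3).symm with he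
  refine ⟨fun i => (e i : κ), ?_, Finset.univ.filter (fun i => (e i : κ) ∈ S1),
    Finset.univ.filter (fun i => (e i : κ) ∈ S2), by simp, by simp, ?_, ?_⟩
  · have hli : LinearIndependent K (fun i : Fin j => M (e i : κ)) := by
      have h1 : LinearIndependent K (fun x : I3 => M x) := hI3i
      exact h1.comp e e.injective
    have h2 : LinearIndependent K
        (Matrix.row (Matrix.of fun (i : Fin j) (k : Fin j) => M (e i : κ) k)) := hli
    rw [Matrix.linearIndependent_rows_iff_isUnit, Matrix.isUnit_iff_isUnit_det] at h2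
    exact h2.ne_zero
  · rw [← hI1p, hcard I1 hI1i]
    have : I1.toFinset.card ≤ (Finset.univ.filter (fun i => (e i : κ) ∈ S1)).card := by
      apply Finset.card_le_card_of_surjOn (fun i => (e i : κ))
      intro s hs
      rw [Finset.mem_coe, Set.mem_toFinset] at hs
      refine ⟨e.symm ⟨s, hI23 (hI12 hs)⟩, ?_, ?_⟩
      · simp [hI1s hs]
      · simp
    exact this
  · rw [← hI2p, hcard I2 hI2i]
    have : I2.toFinset.card ≤ (Finset.univ.filter (fun i => (e i : κ) ∈ S2)).card := by
      apply Finset.card_le_card_of_surjOn (fun i => (e i : κ))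
      intro s hs
      rw [Finset.mem_coe, Set.mem_toFinset] at hs
      refine ⟨e.symm ⟨s, hI23 hs⟩, ?_, ?_⟩
      · simp [hI2s hs]
      · simp
    exact this

/-- product of weights -/
lemma weight_prod {κ : Type*} {j : ℕ} (σ : Fin j → κ) (S1 S2 : Set κ) (F1 F2 : Finset (Fin j))
    (h12 : S1 ⊆ S2) (hF1 : ∀ i, i ∈ F1 ↔ σ i ∈ S1) (hF2 : ∀ i, i ∈ F2 ↔ σ i ∈ S2)
    (d : κ → ℝ) (Q E : ℝ) (hQ : 0 < Q)
    (hd1 : ∀ s ∈ S1, d s = Q ^ (3:ℤ) / E) (hd2 : ∀ s ∈ S2, s ∉ S1 → d s = Q ^ (1:ℤ) / E)
    (hd3 : ∀ s, s ∉ S2 → d s = Q ^ (-1:ℤ) / E) :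
    ∏ i, d (σ i) = Q ^ (2 * (F1.card : ℤ) + 2 * F2.card - j) / E ^ j := by
  classical
  have hd : ∀ i, d (σ i) = Q ^ ((if i ∈ F1 then (2:ℤ) else 0) + (if i ∈ F2 then (2:ℤ) else 0) - 1) / E := by
    intro i
    by_cases h1 : σ i ∈ S1
    · have h2 := h12 h1
      rw [if_pos ((hF1 i).2 h1), if_pos ((hF2 i).2 h2), hd1 _ h1]
      norm_num
    · rw [if_neg (fun h => h1 ((hF1 i).1 h))]
      by_cases h2 : σ i ∈ S2
      · rw [if_pos ((hF2 i).2 h2), hd2 _ h2 h1]
        norm_num
      · rw [if_neg (fun h => h2 ((hF2 i).1 h)), hd3 _ h2]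
        norm_num
  simp_rw [hd]
  rw [Finset.prod_div_distrib, Finset.prod_const, Finset.card_univ, Fintype.card_fin]
  congr 1
  have : ∀ f : Fin j → ℤ, ∏ i, Q ^ (f i) = Q ^ (∑ i, f i) := by
    intro f
    have key : ∀ s : Finset (Fin j), ∏ i ∈ s, Q ^ (f i) = Q ^ (∑ i ∈ s, f i) := by
      intro s
      induction s using Finset.induction_on with
      | empty => simp
      | insert a s ha ih => rw [Finset.prod_insert ha, Finset.sum_insert ha, zpow_add₀ hQ.ne', ih]
    exact key _
  rw [this]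
  congr 1
  rw [Finset.sum_sub_distrib, Finset.sum_add_distrib]
  simp [Finset.sum_ite_mem]
  ring

end Pool.Agent.H8KM
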