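import Mathlib

set_option autoImplicit false

open Polynomial

namespace Pool.Agent.H8KM

/-- naive height -/
def ht (P : ℤ[X]) : ℕ := P.support.sup (fun i => (P.coeff i).natAbs)

lemma natAbs_coeff_le_ht (P : ℤ[X]) (i : ℕ) : (P.coeff i).natAbs ≤ ht P := by
  by_cases hi : i ∈ P.support
  · exact Finset.le_sup (f := fun i => (P.coeff i).natAbs) hi
  · rw [notMem_support_iff.1 hi]; simp

lemma abs_coeff_le_ht (P : ℤ[X]) (i : ℕ) : |((P.coeff i : ℤ) : ℝ)| ≤ ht P := by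
  have h := natAbs_coeff_le_ht P i
  have h1 : |((P.coeff i : ℤ) : ℝ)| = ((P.coeff i).natAbs : ℝ) := by
    rw [← Int.cast_abs, Int.abs_eq_natAbs]; simp
  rw [h1]; exact_mod_cast h

lemma one_le_ht {P : ℤ[X]} (hP : P ≠ 0) : 1 ≤ ht P := by
  have h := natAbs_coeff_le_ht P P.natDegree
  have h1 : P.coeff P.natDegree ≠ 0 := by
    rw [coeff_natDegree]; exact leadingCoeff_ne_zero.2 hP
  have : 1 ≤ (P.coeff P.natDegree).natAbs := Int.natAbs_pos.2 h1
  omega

lemma ht_le {P : ℤ[X]} {N : ℕ} (h : ∀ i, (P.coeff i).natAbs ≤ N) : ht P ≤ N :=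
  Finset.sup_le fun i _ => h i

/-- a constant depending on the degree only -/
noncomputable def Kc (n : ℕ) : ℝ := ((n:ℝ) + 1) * ((n + 1) * 2 ^ n)

lemma Kc_pos (n : ℕ) : 0 < Kc n := by unfold Kc; positivity

lemma one_le_Kc (n : ℕ) : 1 ≤ Kc n := by
  unfold Kc
  have h1 : (1:ℝ) ≤ (n:ℝ) + 1 := by have : (0:ℝ) ≤ n := Nat.cast_nonneg n; linarith
  have h2 : (1:ℝ) ≤ 2 ^ n := one_le_pow₀ (by norm_num)
  nlinarith [mul_le_mul h1 h2 zero_le_one (by linarith)]

lemma abs_eval_le {n : ℕ} (f : ℝ[X]) (hf : f.natDegree ≤ n) (B : ℝ) (hB : ∀ i, |f.coeff i| ≤ B)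
    (x : ℝ) (hx : |x| ≤ 1) : |f.eval x| ≤ (n + 1) * B := by
  rw [eval_eq_sum_range' (lt_of_le_of_lt hf (Nat.lt_succ_self n))]
  refine (Finset.abs_sum_le_sum_abs _ _).trans ?_
  have hB0 : 0 ≤ B := (abs_nonneg _).trans (hB 0)
  calc ∑ i ∈ Finset.range (n+1), |f.coeff i * x ^ i| ≤ ∑ _i ∈ Finset.range (n+1), B := by
        refine Finset.sum_le_sum fun i _ => ?_
        rw [abs_mul, abs_pow]
        have : |x| ^ i ≤ 1 := pow_le_one₀ (abs_nonneg _) hx
        calc |f.coeff i| * |x| ^ i ≤ B * 1 := mul_le_mul (hB i) this (by positivity) hB0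
          _ = B := mul_one B
    _ = (n + 1) * B := by simp

lemma hasse_bound {n : ℕ} (P : ℤ[X]) (hP : P.natDegree ≤ n) (t : ℕ) (x : ℝ) (hx : |x| ≤ 1) :
    |(hasseDeriv t (P.map (Int.castRingHom ℝ))).eval x| ≤ (n + 1) * 2 ^ n * ht P := by
  have hdeg : (hasseDeriv t (P.map (Int.castRingHom ℝ))).natDegree ≤ n :=
    (natDegree_hasseDeriv_le _ _).trans ((Nat.sub_le _ _).trans (natDegree_map_le.trans hP))
  have := abs_eval_le _ hdeg (2 ^ n * ht P) (by
    intro i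
    rw [hasseDeriv_coeff, coeff_map]
    by_cases hi : i + t ≤ n
    · rw [abs_mul, Nat.abs_cast]
      have h1 : ((i+t).choose t : ℝ) ≤ 2 ^ n := by
        have h2 : (i+t).choose t ≤ 2 ^ (i+t) := Nat.choose_le_two_pow _ _
        have h3 : 2 ^ (i+t) ≤ 2 ^ n := Nat.pow_le_pow_right (by norm_num) hi
        exact_mod_cast h2.trans h3
      exact mul_le_mul h1 (abs_coeff_le_ht P _) (abs_nonneg _) (by positivity)
    · rw [coeff_eq_zero_of_natDegree_lt (by omega)]
      simp) x hx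
  rw [mul_assoc]; exact this

lemma hasse_bound' {n : ℕ} (P : ℤ[X]) (hP : P.natDegree ≤ n) (t : ℕ) (x : ℝ) (hx : |x| ≤ 1) :
    |(hasseDeriv t (P.map (Int.castRingHom ℝ))).eval x| ≤ Kc n * ht P := by
  refine (hasse_bound P hP t x hx).trans ?_
  unfold Kc
  have h1 : (1:ℝ) ≤ (n:ℝ) + 1 := by have : (0:ℝ) ≤ n := Nat.cast_nonneg n; linarith
  have h2 : (0:ℝ) ≤ (n + 1) * 2 ^ n * ht P := by positivity
  nlinarith

lemma taylor_sum {n : ℕ} (f : ℝ[X]) (hf : f.natDegree ≤ n) (x r : ℝ) :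
    f.eval r = ∑ t ∈ Finset.range (n+1), (hasseDeriv t f).eval x * (r - x) ^ t := by
  rw [← taylor_eval_sub x f r, eval_eq_sum_range' (n := n+1) (by rw [natDegree_taylor]; omega)]
  refine Finset.sum_congr rfl fun t _ => ?_
  rw [taylor_coeff]

lemma first_order {n : ℕ} (P : ℤ[X]) (hP : P.natDegree ≤ n) (x r : ℝ) (hx : |x| ≤ 1)
    (hr : |r - x| ≤ 1) :
    |(P.map (Int.castRingHom ℝ)).eval r - (P.map (Int.castRingHom ℝ)).eval x| ≤
      Kc n * ht P * |r - x| := by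
  have hf : (P.map (Int.castRingHom ℝ)).natDegree ≤ n := natDegree_map_le.trans hP
  rw [taylor_sum _ hf x r, Finset.sum_range_succ']
  simp only [hasseDeriv_zero', pow_zero, mul_one, add_sub_cancel_right]
  refine (Finset.abs_sum_le_sum_abs _ _).trans ?_
  calc ∑ t ∈ Finset.range n, |(hasseDeriv (t+1) (P.map (Int.castRingHom ℝ))).eval x *
        (r - x) ^ (t+1)| ≤ ∑ _t ∈ Finset.range n, ((n + 1) * 2 ^ n * ht P) * |r - x| := by
        refine Finset.sum_le_sum fun t _ => ?_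
        rw [abs_mul, abs_pow, pow_succ]
        have h1 : |r - x| ^ t ≤ 1 := pow_le_one₀ (abs_nonneg _) hr
        have h2 : |r - x| ^ t * |r - x| ≤ |r - x| := by
          nlinarith [abs_nonneg (r - x)]
        exact mul_le_mul (hasse_bound P hP _ x hx) h2 (by positivity) (by positivity)
    _ = n * (((n + 1) * 2 ^ n * ht P) * |r - x|) := by simp
    _ ≤ Kc n * ht P * |r - x| := by
        unfold Kc
        have : (0:ℝ) ≤ ((n + 1) * 2 ^ n * ht P) * |r - x| := by positivity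
        nlinarith

lemma second_order {n : ℕ} (P : ℤ[X]) (hP : P.natDegree ≤ n) (x r : ℝ) (hx : |x| ≤ 1)
    (hr : |r - x| ≤ 1) :
    |(P.map (Int.castRingHom ℝ)).eval r - (P.map (Int.castRingHom ℝ)).eval x -
      (derivative (P.map (Int.castRingHom ℝ))).eval x * (r - x)| ≤
      Kc n * ht P * |r - x| ^ 2 := by
  have hf : (P.map (Int.castRingHom ℝ)).natDegree ≤ n + 1 := natDegree_map_le.trans (by omega)
  rw [taylor_sum _ hf x r, Finset.sum_range_succ', Finset.sum_range_succ']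
  simp only [hasseDeriv_zero', hasseDeriv_one', pow_zero, mul_one, zero_add, pow_one,
    add_sub_cancel_right]
  refine (Finset.abs_sum_le_sum_abs _ _).trans ?_
  calc ∑ t ∈ Finset.range n, |(hasseDeriv (t+1+1) (P.map (Int.castRingHom ℝ))).eval x *
        (r - x) ^ (t+1+1)| ≤ ∑ _t ∈ Finset.range n, ((n + 1) * 2 ^ n * ht P) * |r - x| ^ 2 := by
        refine Finset.sum_le_sum fun t _ => ?_
        rw [abs_mul, abs_pow, show t + 1 + 1 = t + 2 from rfl, pow_add]
        have h1 : |r - x| ^ t ≤ 1 := pow_le_one₀ (abs_nonneg _) hr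
        have h2 : |r - x| ^ t * |r - x| ^ 2 ≤ |r - x| ^ 2 := by
          nlinarith [sq_nonneg (|r - x|)]
        exact mul_le_mul (hasse_bound P hP _ x hx) h2 (by positivity) (by positivity)
    _ = n * (((n + 1) * 2 ^ n * ht P) * |r - x| ^ 2) := by simp
    _ ≤ Kc n * ht P * |r - x| ^ 2 := by
        unfold Kc
        have : (0:ℝ) ≤ ((n + 1) * 2 ^ n * ht P) * |r - x| ^ 2 := by positivity
        nlinarith

end Pool.Agent.H8KM
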