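import Pool.Agent.H8KM.Cover

set_option autoImplicit false

open MeasureTheory Set

namespace Pool.Agent.H8KM

/-- left end of the component of the complement of `Z` in `[a,b]` containing `x` -/
noncomputable def lf (Z : Set ℝ) (a x : ℝ) : ℝ := sSup ({a} ∪ (Z ∩ Icc a x))
/-- right end of the component -/
noncomputable def rf (Z : Set ℝ) (b x : ℝ) : ℝ := sInf ({b} ∪ (Z ∩ Icc x b))

lemma lf_set_compact {Z : Set ℝ} (hZ : IsClosed Z) (a x : ℝ) :
    IsCompact ({a} ∪ (Z ∩ Icc a x)) :=
  isCompact_singleton.union (isCompact_Icc.inter_left hZ)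

lemma rf_set_compact {Z : Set ℝ} (hZ : IsClosed Z) (b x : ℝ) :
    IsCompact ({b} ∪ (Z ∩ Icc x b)) :=
  isCompact_singleton.union (isCompact_Icc.inter_left hZ)

lemma lf_mem {Z : Set ℝ} (hZ : IsClosed Z) (a x : ℝ) :
    lf Z a x ∈ ({a} ∪ (Z ∩ Icc a x) : Set ℝ) :=
  (lf_set_compact hZ a x).sSup_mem ⟨a, by simp⟩

lemma rf_mem {Z : Set ℝ} (hZ : IsClosed Z) (b x : ℝ) :
    rf Z b x ∈ ({b} ∪ (Z ∩ Icc x b) : Set ℝ) :=
  (rf_set_compact hZ b x).sInf_mem ⟨b, by simp⟩

lemma le_lf {Z : Set ℝ} (hZ : IsClosed Z) {a x y : ℝ} (hy : y ∈ ({a} ∪ (Z ∩ Icc a x) : Set ℝ)) :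
    y ≤ lf Z a x :=
  le_csSup (lf_set_compact hZ a x).bddAbove hy

lemma rf_le {Z : Set ℝ} (hZ : IsClosed Z) {b x y : ℝ} (hy : y ∈ ({b} ∪ (Z ∩ Icc x b) : Set ℝ)) :
    rf Z b x ≤ y :=
  csInf_le (rf_set_compact hZ b x).bddBelow hy

lemma a_le_lf {Z : Set ℝ} (hZ : IsClosed Z) (a x : ℝ) : a ≤ lf Z a x :=
  le_lf hZ (by simp)

lemma rf_le_b {Z : Set ℝ} (hZ : IsClosed Z) (b x : ℝ) : rf Z b x ≤ b :=
  rf_le hZ (by simp)

lemma lf_le {Z : Set ℝ} (hZ : IsClosed Z) {a x : ℝ} (hax : a ≤ x) : lf Z a x ≤ x := by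
  rcases lf_mem hZ a x with h | h
  · rw [mem_singleton_iff] at h; rw [h]; exact hax
  · exact h.2.2

lemma le_rf {Z : Set ℝ} (hZ : IsClosed Z) {b x : ℝ} (hxb : x ≤ b) : x ≤ rf Z b x := by
  rcases rf_mem hZ b x with h | h
  · rw [mem_singleton_iff] at h; rw [h]; exact hxb
  · exact h.2.1

lemma notMem_of_lf_lt {Z : Set ℝ} (hZ : IsClosed Z) {a x y : ℝ} (h1 : lf Z a x < y)
    (h2 : y ≤ x) : y ∉ Z := by
  intro hy
  have : y ≤ lf Z a x := le_lf hZ (Or.inr ⟨hy, (a_le_lf hZ a x).trans h1.le, h2⟩)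
  linarith

lemma notMem_of_lt_rf {Z : Set ℝ} (hZ : IsClosed Z) {b x y : ℝ} (h1 : y < rf Z b x)
    (h2 : x ≤ y) : y ∉ Z := by
  intro hy
  have : rf Z b x ≤ y := rf_le hZ (Or.inr ⟨hy, h2, h1.le.trans (rf_le_b hZ b x)⟩)
  linarith

lemma lf_lt_rf {Z : Set ℝ} (hZ : IsClosed Z) {a b x : ℝ} (hab : a < b) (hx : x ∈ Icc a b)
    (hxZ : x ∉ Z) : lf Z a x < rf Z b x := by
  have h1 := lf_le hZ (x := x) hx.1
  have h2 := le_rf hZ (x := x) hx.2
  rcases lt_or_eq_of_le (h1.trans h2) with h | h
  · exact h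
  · exfalso
    have e1 : lf Z a x = x := le_antisymm h1 (h ▸ h2)
    have e2 : rf Z b x = x := by linarith
    rcases lf_mem hZ a x with h3 | h3
    · rcases rf_mem hZ b x with h4 | h4
      · rw [mem_singleton_iff] at h3 h4; linarith
      · rw [e2] at h4; exact hxZ h4.1
    · rw [e1] at h3; exact hxZ h3.1

/-- the component is the same for every point of its interior -/
lemma lf_rf_eq {Z : Set ℝ} (hZ : IsClosed Z) {a b x y : ℝ} (hx : x ∈ Icc a b)
    (hxZ : x ∉ Z) (hy : y ∈ Ioo (lf Z a x) (rf Z b x)) :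
    lf Z a y = lf Z a x ∧ rf Z b y = rf Z b x := by
  have key : ∀ z, z ∈ Z → (lf Z a x < z) → (z < rf Z b x) → False := by
    intro z hz h1 h2
    rcases le_total z x with h | h
    · exact notMem_of_lf_lt hZ h1 h hz
    · exact notMem_of_lt_rf hZ h2 h hz
  have hlx := lf_le hZ (x := x) hx.1
  have hrx := le_rf hZ (x := x) hx.2
  have hlxlt : lf Z a x < x ∨ lf Z a x = x := lt_or_eq_of_le hlx
  constructor
  · unfold lf
    congr 1
    ext z
    simp only [mem_union, mem_singleton_iff, mem_inter_iff, mem_Icc]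
    constructor
    · rintro (h | ⟨hz, h1, h2⟩)
      · exact Or.inl h
      · right
        refine ⟨hz, h1, ?_⟩
        by_contra h3
        push Not at h3
        exact key z hz (hlx.trans_lt h3) (h2.trans_lt hy.2)
    · rintro (h | ⟨hz, h1, h2⟩)
      · exact Or.inl h
      · right
        refine ⟨hz, h1, ?_⟩
        by_contra h3
        push Not at h3
        rcases lt_or_eq_of_le h2 with h4 | h4
        · exact key z hz (hy.1.trans h3) (h4.trans_le hrx)
        · rw [h4] at hz; exact hxZ hz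
  · unfold rf
    congr 1
    ext z
    simp only [mem_union, mem_singleton_iff, mem_inter_iff, mem_Icc]
    constructor
    · rintro (h | ⟨hz, h1, h2⟩)
      · exact Or.inl h
      · right
        refine ⟨hz, ?_, h2⟩
        by_contra h3
        push Not at h3
        exact key z hz (hy.1.trans_le h1) (h3.trans_le hrx)
    · rintro (h | ⟨hz, h1, h2⟩)
      · exact Or.inl h
      · right
        refine ⟨hz, ?_, h2⟩
        by_contra h3
        push Not at h3
        rcases lt_or_eq_of_le h1 with h4 | h4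
        · exact key z hz (hlx.trans_lt h4) (h3.trans hy.2)
        · rw [← h4] at hz; exact hxZ hz

/-- `x` is marked by a chain of `F`. -/
def Marked {S : Type*} (cmp : S → S → Prop) (ψ : S → ℝ → ℝ) (ε : ℝ) (F : Finset S) (x : ℝ) :
    Prop :=
  ∃ T ⊆ F, (∀ s ∈ T, ∀ t ∈ T, s ≠ t → cmp s t) ∧ (∀ s ∈ T, ε ≤ ψ s x ∧ ψ s x ≤ 1) ∧
    (∀ s ∈ F, s ∉ T → (∀ t ∈ T, cmp s t) → 1 ≤ ψ s x)

lemma marked_insert {S : Type*} [DecidableEq S] {cmp : S → S → Prop}
    (hsymm : ∀ s t, cmp s t → cmp t s) {ψ : S → ℝ → ℝ} {ε : ℝ} {F : Finset S} {s₀ : S}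
    (hs₀ : s₀ ∈ F) {F' : Finset S} (hF' : ∀ s, s ∈ F' ↔ s ∈ F ∧ s ≠ s₀ ∧ cmp s s₀) {x : ℝ}
    (h : Marked cmp ψ ε F' x) (h1 : ε ≤ ψ s₀ x) (h2 : ψ s₀ x ≤ 1) : Marked cmp ψ ε F x := by
  obtain ⟨T, hT, hch, hm1, hm2⟩ := h
  refine ⟨insert s₀ T, ?_, ?_, ?_, ?_⟩
  · intro s hs
    rw [Finset.mem_insert] at hs
    rcases hs with rfl | hs
    · exact hs₀
    · exact ((hF' s).1 (hT hs)).1
  · intro s hs t ht hst
    rw [Finset.mem_insert] at hs ht
    rcases hs with rfl | hs
    · rcases ht with rfl | ht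
      · exact absurd rfl hst
      · exact hsymm _ _ ((hF' t).1 (hT ht)).2.2
    · rcases ht with rfl | ht
      · exact ((hF' s).1 (hT hs)).2.2
      · exact hch s hs t ht hst
  · intro s hs
    rw [Finset.mem_insert] at hs
    rcases hs with rfl | hs
    · exact ⟨h1, h2⟩
    · exact hm1 s hs
  · intro s hs hsT hc
    rw [Finset.mem_insert] at hsT
    push Not at hsT
    have hc0 : cmp s s₀ := hc s₀ (Finset.mem_insert_self _ _)
    exact hm2 s ((hF' s).2 ⟨hs, hsT.1, hc0⟩) hsT.2 (fun t ht => hc t (Finset.mem_insert_of_mem ht))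

theorem km_abstract {S : Type*} [DecidableEq S] (cmp : S → S → Prop)
    (hsymm : ∀ s t, cmp s t → cmp t s)
    (ψ : S → ℝ → ℝ) (hψ : ∀ s, Continuous (ψ s)) (ε κ : ℝ) (hκ : 0 ≤ κ)
    (good : ∀ s (a b : ℝ), a < b → (∃ y ∈ Icc a b, 1 ≤ ψ s y) →
      volume {x ∈ Icc a b | ψ s x < ε} ≤ ENNReal.ofReal (κ * (b - a)))
    (k : ℕ) : ∀ (F : Finset S),
      (∀ T ⊆ F, (∀ s ∈ T, ∀ t ∈ T, s ≠ t → cmp s t) → T.card ≤ k) →
      ∀ a b : ℝ, a < b → (∀ s ∈ F, ∃ y ∈ Icc a b, 1 ≤ ψ s y) →
      volume {x ∈ Icc a b | ¬ Marked cmp ψ ε F x} ≤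
        ENNReal.ofReal (((2:ℝ)^(k+1) - 2) * κ * (b - a)) := by
  induction k with
  | zero =>
    intro F hch a b hab hsup
    have hF : F = ∅ := by
      by_contra hne
      obtain ⟨s, hs⟩ := Finset.nonempty_iff_ne_empty.2 hne
      have := hch {s} (by simpa using hs) (by
        intro s1 h1 t1 h2 h3
        rw [Finset.mem_singleton] at h1 h2
        exact absurd (h1.trans h2.symm) h3)
      simp at this
    have : {x ∈ Icc a b | ¬ Marked cmp ψ ε F x} = ∅ := by
      ext x
      simp only [mem_ofPred_eq, mem_empty_iff_false, iff_false, not_and, not_not]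
      intro _
      exact ⟨∅, by simp, by simp, by simp, by simp [hF]⟩
    rw [this]
    simp
  | succ k ih =>
    intro F hch a b hab hsup
    classical
    set Z : S → Set ℝ := fun s => {y | 1 ≤ ψ s y} with hZdef
    have hZ : ∀ s, IsClosed (Z s) := fun s => isClosed_le continuous_const (hψ s)
    set J : S × ℚ → Set ℝ := fun i => Icc (lf (Z i.1) a i.2) (rf (Z i.1) b i.2) with hJ
    -- good indices
    set Gd : Set (S × ℚ) := {i | i.1 ∈ F ∧ lf (Z i.1) a i.2 < rf (Z i.1) b i.2 ∧
      a ≤ lf (Z i.1) a i.2 ∧ rf (Z i.1) b i.2 ≤ b ∧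
      (∀ x ∈ J i, ψ i.1 x ≤ 1) ∧ (∀ s ∈ F, ∃ y ∈ J i, 1 ≤ ψ s y)} with hGd
    set Bad : Set ℝ := {x ∈ Icc a b | ¬ Marked cmp ψ ε F x} with hBad
    -- local estimate
    have hloc : ∀ i ∈ Gd, volume (Bad ∩ J i) ≤
        ENNReal.ofReal (((2:ℝ)^(k+1) - 1) * κ) * volume (J i) := by
      rintro ⟨s₀, q⟩ ⟨hs₀, hlt, hal, hrb, hle1, hsupJ⟩
      simp only at hs₀ hlt hal hrb hle1 hsupJ
      set l := lf (Z s₀) a q
      set r := rf (Z s₀) b q
      set F' := F.filter (fun s => s ≠ s₀ ∧ cmp s s₀) with hF'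
      have hmemF' : ∀ s, s ∈ F' ↔ s ∈ F ∧ s ≠ s₀ ∧ cmp s s₀ := by
        intro s; rw [hF', Finset.mem_filter]
      have hch' : ∀ T ⊆ F', (∀ s ∈ T, ∀ t ∈ T, s ≠ t → cmp s t) → T.card ≤ k := by
        intro T hT hTc
        have h0 : s₀ ∉ T := fun h => ((hmemF' s₀).1 (hT h)).2.1 rfl
        have := hch (insert s₀ T) (by
          intro s hs
          rw [Finset.mem_insert] at hs
          rcases hs with rfl | hs
          · exact hs₀
          · exact ((hmemF' s).1 (hT hs)).1) (by
          intro s hs t ht hst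
          rw [Finset.mem_insert] at hs ht
          rcases hs with rfl | hs
          · rcases ht with rfl | ht
            · exact absurd rfl hst
            · exact hsymm _ _ ((hmemF' t).1 (hT ht)).2.2
          · rcases ht with rfl | ht
            · exact ((hmemF' s).1 (hT hs)).2.2
            · exact hTc s hs t ht hst)
        rw [Finset.card_insert_of_notMem h0] at this
        omega
      have hIH := ih F' hch' l r hlt (fun s hs => hsupJ s ((hmemF' s).1 hs).1)
      have hgood := good s₀ l r hlt (hsupJ s₀ hs₀)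
      have hsub : Bad ∩ J (s₀, q) ⊆ {x ∈ Icc l r | ¬ Marked cmp ψ ε F' x} ∪
          {x ∈ Icc l r | ψ s₀ x < ε} := by
        rintro x ⟨hxB, hxJ⟩
        by_contra hcon
        rw [mem_union] at hcon
        push Not at hcon
        obtain ⟨h1, h2⟩ := hcon
        have h1' : Marked cmp ψ ε F' x := by
          by_contra h; exact h1 ⟨hxJ, h⟩
        have h2' : ε ≤ ψ s₀ x := by
          by_contra h; push Not at h; exact h2 ⟨hxJ, h⟩
        exact hxB.2 (marked_insert hsymm hs₀ hmemF' h1' h2' (hle1 x hxJ))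
      have hvJ : volume (J (s₀, q)) = ENNReal.ofReal (r - l) := by
        simp only [hJ]; rw [Real.volume_Icc]
      have hpow : (2:ℝ) ≤ 2^(k+1) := by
        have : (1:ℝ) ≤ 2^k := one_le_pow₀ (by norm_num)
        rw [pow_succ]; linarith
      calc volume (Bad ∩ J (s₀, q)) ≤ volume ({x ∈ Icc l r | ¬ Marked cmp ψ ε F' x} ∪
          {x ∈ Icc l r | ψ s₀ x < ε}) := measure_mono hsub
        _ ≤ volume {x ∈ Icc l r | ¬ Marked cmp ψ ε F' x} + volume {x ∈ Icc l r | ψ s₀ x < ε} :=
          measure_union_le _ _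
        _ ≤ ENNReal.ofReal (((2:ℝ)^(k+1) - 2) * κ * (r - l)) + ENNReal.ofReal (κ * (r - l)) :=
          add_le_add hIH hgood
        _ = ENNReal.ofReal (((2:ℝ)^(k+1) - 1) * κ) * volume (J (s₀, q)) := by
          rw [hvJ, ← ENNReal.ofReal_add, ← ENNReal.ofReal_mul]
          · congr 1; ring
          · exact mul_nonneg (by linarith) hκ
          · exact mul_nonneg (mul_nonneg (by linarith) hκ) (by linarith)
          · exact mul_nonneg hκ (by linarith)
    -- covering
    have hcover : ∀ x ∈ Bad, ∃ i ∈ Gd, x ∈ J i := by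
      rintro x ⟨hxab, hxM⟩
      have hex : ∃ s ∈ F, ψ s x < 1 := by
        by_contra hno
        push Not at hno
        exact hxM ⟨∅, by simp, by simp, by simp, fun s hs _ _ => hno s hs⟩
      obtain ⟨s₁, hs₁, hs₁x⟩ := hex
      obtain ⟨s₀, hs₀A, hmax⟩ := Finset.exists_max_image (F.filter (fun s => ψ s x < 1))
        (fun s => rf (Z s) b x - lf (Z s) a x) ⟨s₁, by simp [hs₁, hs₁x]⟩
      rw [Finset.mem_filter] at hs₀A
      obtain ⟨hs₀, hs₀x⟩ := hs₀A
      have hxZ : x ∉ Z s₀ := by simp only [hZdef]; exact not_le.2 hs₀x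
      have hlr := lf_lt_rf (hZ s₀) hab hxab hxZ
      obtain ⟨q, hq1, hq2⟩ := exists_rat_btwn hlr
      obtain ⟨e1, e2⟩ := lf_rf_eq (hZ s₀) hxab hxZ ⟨hq1, hq2⟩
      have hlx := lf_le (hZ s₀) hxab.1
      have hxr := le_rf (hZ s₀) hxab.2
      refine ⟨(s₀, q), ⟨hs₀, ?_, ?_, ?_, ?_, ?_⟩, ?_⟩
      · simp only [e1, e2]; exact hlr
      · simp only [e1]; exact a_le_lf (hZ s₀) a x
      · simp only [e2]; exact rf_le_b (hZ s₀) b x
      · intro y hy
        simp only [hJ, e1, e2] at hy
        rw [← closure_Ioo hlr.ne] at hy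
        have hcl : IsClosed {y | ψ s₀ y ≤ 1} := isClosed_le (hψ s₀) continuous_const
        have hsub : Ioo (lf (Z s₀) a x) (rf (Z s₀) b x) ⊆ {y | ψ s₀ y ≤ 1} := by
          intro z hz
          by_contra hcon
          have hzZ : z ∈ Z s₀ := by
            have h0 : ¬ ψ s₀ z ≤ 1 := hcon
            exact (not_le.1 h0).le
          rcases le_total z x with h | h
          · exact notMem_of_lf_lt (hZ s₀) hz.1 h hzZ
          · exact notMem_of_lt_rf (hZ s₀) hz.2 h hzZ
        exact closure_minimal hsub hcl hy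
      · intro s hs
        by_cases hsx : ψ s x < 1
        · by_contra hcon
          push Not at hcon
          simp only [hJ, e1, e2] at hcon
          have hZs : ∀ z ∈ Z s, z < lf (Z s₀) a x ∨ rf (Z s₀) b x < z := by
            intro z hz
            by_contra hc
            push Not at hc
            exact absurd hz (not_le.2 (hcon z ⟨hc.1, hc.2⟩))
          have hm := hmax s (by rw [Finset.mem_filter]; exact ⟨hs, hsx⟩)
          have hl' : lf (Z s) a x ≤ lf (Z s₀) a x := by
            rcases lf_mem (hZ s) a x with h | h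
            · rw [mem_singleton_iff] at h; rw [h]; exact a_le_lf (hZ s₀) a x
            · rcases hZs _ h.1 with h' | h'
              · exact h'.le
              · exact absurd (h.2.2.trans hxr) (not_le.2 h')
          have hr' : rf (Z s₀) b x ≤ rf (Z s) b x := by
            rcases rf_mem (hZ s) b x with h | h
            · rw [mem_singleton_iff] at h; rw [h]; exact rf_le_b (hZ s₀) b x
            · rcases hZs _ h.1 with h' | h'
              · exact absurd (hlx.trans h.2.1) (not_le.2 h')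
              · exact h'.le
          have hle : lf (Z s) a x = lf (Z s₀) a x := by linarith
          have hre : rf (Z s) b x = rf (Z s₀) b x := by linarith
          obtain ⟨y, hy, hy1⟩ := hsup s hs
          have hyZ : y ∈ Z s := hy1
          rcases le_total y x with h | h
          · have h5 : y ≤ lf (Z s) a x := le_lf (hZ s) (Or.inr ⟨hyZ, hy.1, h⟩)
            rcases lf_mem (hZ s) a x with h6 | h6
            · rw [mem_singleton_iff] at h6
              have h7 : y = a := le_antisymm (h6 ▸ h5) hy.1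
              have : lf (Z s) a x ∈ Z s := by rw [h6, ← h7]; exact hyZ
              rcases hZs _ this with h8 | h8
              · linarith
              · linarith
            · rcases hZs _ h6.1 with h8 | h8
              · linarith
              · linarith
          · have h5 : rf (Z s) b x ≤ y := rf_le (hZ s) (Or.inr ⟨hyZ, h, hy.2⟩)
            rcases rf_mem (hZ s) b x with h6 | h6
            · rw [mem_singleton_iff] at h6
              have h7 : y = b := le_antisymm hy.2 (h6 ▸ h5)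
              have : rf (Z s) b x ∈ Z s := by rw [h6, ← h7]; exact hyZ
              rcases hZs _ this with h8 | h8
              · linarith
              · linarith
            · rcases hZs _ h6.1 with h8 | h8
              · linarith
              · linarith
        · push Not at hsx
          exact ⟨x, by simp only [hJ, e1, e2]; exact ⟨hlx, hxr⟩, hsx⟩
      · simp only [hJ, e1, e2]; exact ⟨hlx, hxr⟩
    -- finite unions
    have hfin : ∀ G : Finset (S × ℚ), (∀ i ∈ G, i ∈ Gd) → volume (Bad ∩ ⋃ i ∈ G, J i) ≤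
        ENNReal.ofReal (((2:ℝ)^(k+1+1) - 2) * κ * (b - a)) := by
      intro G hG
      obtain ⟨G', hG'G, hU, hsum⟩ := exists_subcover (fun i : S × ℚ => lf (Z i.1) a i.2)
        (fun i => rf (Z i.1) b i.2) a b G (fun i hi => (hG i hi).2.2.1)
        (fun i hi => (hG i hi).2.2.2.1)
      have hU' : (⋃ i ∈ G', J i) = ⋃ i ∈ G, J i := hU
      have hpow : (2:ℝ) ≤ 2^(k+1) := by
        have : (1:ℝ) ≤ 2^k := one_le_pow₀ (by norm_num)
        rw [pow_succ]; linarith
      calc volume (Bad ∩ ⋃ i ∈ G, J i) = volume (⋃ i ∈ G', (Bad ∩ J i)) := by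
            rw [← hU', inter_iUnion₂]
        _ ≤ ∑ i ∈ G', volume (Bad ∩ J i) := measure_biUnion_finset_le _ _
        _ ≤ ∑ i ∈ G', ENNReal.ofReal (((2:ℝ)^(k+1) - 1) * κ) * volume (J i) :=
            Finset.sum_le_sum fun i hi => hloc i (hG i (hG'G hi))
        _ = ENNReal.ofReal (((2:ℝ)^(k+1) - 1) * κ) * ∑ i ∈ G', volume (J i) := by
            rw [Finset.mul_sum]
        _ ≤ ENNReal.ofReal (((2:ℝ)^(k+1) - 1) * κ) * (2 * ENNReal.ofReal (b - a)) := by
            gcongr
        _ = ENNReal.ofReal (((2:ℝ)^(k+1+1) - 2) * κ * (b - a)) := by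
            rw [show (2 : ENNReal) = ENNReal.ofReal 2 by simp, ← ENNReal.ofReal_mul (by norm_num),
              ← ENNReal.ofReal_mul (mul_nonneg (by linarith) hκ)]
            congr 1; ring
    -- conclusion
    rcases Gd.eq_empty_or_nonempty with hemp | hne
    · have : Bad = ∅ := by
        rw [eq_empty_iff_forall_notMem]
        intro x hx
        obtain ⟨i, hi, _⟩ := hcover x hx
        rw [hemp] at hi
        exact hi
      change volume Bad ≤ _
      rw [this]; simp
    · have hcount : Gd.Countable := by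
        have hsub : Gd ⊆ (F : Set S) ×ˢ (univ : Set ℚ) := fun i hi => ⟨hi.1, mem_univ _⟩
        exact ((F.countable_toSet).prod countable_univ).mono hsub
      obtain ⟨e, he⟩ := hcount.exists_eq_range hne
      have hBadeq : Bad = ⋃ n, (Bad ∩ J (e n)) := by
        apply Subset.antisymm
        · intro x hx
          obtain ⟨i, hi, hxi⟩ := hcover x hx
          rw [he] at hi
          obtain ⟨n, rfl⟩ := hi
          exact mem_iUnion.2 ⟨n, hx, hxi⟩
        · exact iUnion_subset fun n => inter_subset_left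
      change volume Bad ≤ _
      rw [hBadeq, measure_iUnion_eq_iSup_accumulate]
      apply iSup_le
      intro n
      refine le_trans (measure_mono ?_) (hfin ((Finset.range (n+1)).image e) ?_)
      · intro x hx
        rw [mem_accumulate] at hx
        obtain ⟨m, hm, hxB, hxJ⟩ := hx
        refine ⟨hxB, ?_⟩
        simp only [mem_iUnion, Finset.mem_image, Finset.mem_range]
        exact ⟨e m, ⟨m, by omega, rfl⟩, hxJ⟩
      · intro i hi
        rw [Finset.mem_image] at hi
        obtain ⟨m, _, rfl⟩ := hi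
        rw [he]; exact mem_range_self m

end Pool.Agent.H8KM
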