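import Pool.Agent.H8KM.Minor

set_option autoImplicit false

open MeasureTheory Set Polynomial Module

namespace Pool.Agent.H8KM

section lattice

variable {m : Type*} [Fintype m]

/-- inclusion of integer vectors -/
def intIncl (m : Type*) : (m → ℤ) →ₗ[ℤ] (m → ℚ) where
  toFun v := fun i => (v i : ℚ)
  map_add' v w := by ext i; simp
  map_smul' a v := by ext i; simp

lemma intIncl_injective (m : Type*) : Function.Injective (intIncl m) := by
  intro v w h
  ext i
  have := congrFun h i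
  simpa [intIncl] using this

/-- the lattice of integer points of a rational subspace -/
def Lam (F : Submodule ℚ (m → ℚ)) : Submodule ℤ (m → ℤ) :=
  (F.restrictScalars ℤ).comap (intIncl m)

lemma mem_Lam {F : Submodule ℚ (m → ℚ)} {v : m → ℤ} : v ∈ Lam F ↔ intIncl m v ∈ F := Iff.rfl

instance (F : Submodule ℚ (m → ℚ)) : Module.Finite ℤ (Lam F) := inferInstance
instance (F : Submodule ℚ (m → ℚ)) : Module.Free ℤ (Lam F) := inferInstance

/-- a lattice basis -/
noncomputable def lb (F : Submodule ℚ (m → ℚ)) : Fin (finrank ℤ (Lam F)) → m → ℤ :=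
  fun k => ((Module.finBasis ℤ (Lam F)) k : m → ℤ)

lemma lb_mem (F : Submodule ℚ (m → ℚ)) (k : Fin (finrank ℤ (Lam F))) : lb F k ∈ Lam F :=
  ((Module.finBasis ℤ (Lam F)) k).2

lemma lb_linearIndependent (F : Submodule ℚ (m → ℚ)) : LinearIndependent ℤ (lb F) :=
  (Module.finBasis ℤ (Lam F)).linearIndependent.map' (Lam F).subtype (Submodule.ker_subtype _)

lemma linInd_rat {ι : Type*} {v : ι → m → ℤ} (h : LinearIndependent ℤ v) :
    LinearIndependent ℚ (fun k => intIncl m (v k)) := by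
  rw [← LinearIndependent.iff_fractionRing (R := ℤ)]
  exact h.map' (intIncl m) (LinearMap.ker_eq_bot.2 (intIncl_injective m))

lemma linInd_int {ι : Type*} {v : ι → m → ℤ} (h : LinearIndependent ℚ (fun k => intIncl m (v k))) :
    LinearIndependent ℤ v := by
  rw [← LinearIndependent.iff_fractionRing (R := ℤ)] at h
  exact LinearIndependent.of_comp (intIncl m) h

lemma finrank_Lam (A : Set (m → ℤ)) :
    finrank ℤ (Lam (Submodule.span ℚ (intIncl m '' A))) =
      finrank ℚ (Submodule.span ℚ (intIncl m '' A)) := by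
  set F := Submodule.span ℚ (intIncl m '' A) with hF
  have hspan : Submodule.span ℚ (range (fun k => intIncl m (lb F k))) = F := by
    apply le_antisymm
    · rw [Submodule.span_le]
      rintro _ ⟨k, rfl⟩
      exact lb_mem F k
    · rw [hF, Submodule.span_le]
      rintro _ ⟨a, ha, rfl⟩
      have haL : a ∈ Lam F := by
        rw [mem_Lam, hF]
        exact Submodule.subset_span ⟨a, ha, rfl⟩
      have h1 := (Module.finBasis ℤ (Lam F)).sum_repr ⟨a, haL⟩
      have h2 : a = ∑ i, (Module.finBasis ℤ (Lam F)).repr ⟨a, haL⟩ i • lb F i := by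
        have := congrArg (fun z : Lam F => (z : m → ℤ)) h1
        simp only [Submodule.coe_sum, Submodule.coe_smul] at this
        exact this.symm
      rw [h2, map_sum]
      refine Submodule.sum_mem _ fun i _ => ?_
      rw [map_smul]
      rw [← hF]
      exact Submodule.smul_of_tower_mem _ _ (Submodule.subset_span ⟨i, rfl⟩)
  have h := finrank_span_eq_card (linInd_rat (lb_linearIndependent F))
  rw [hspan, Fintype.card_fin] at h
  exact h.symm

end lattice

variable {m κ : Type*} [Fintype m] [Fintype κ]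

lemma psi_lb_le (L : κ → m → ℤ[X]) (d : κ → ℝ) (F : Submodule ℚ (m → ℚ)) {j : ℕ}
    (hj : j = finrank ℤ (Lam F)) (w : Fin j → m → ℤ) (hw : LinearIndependent ℤ w)
    (hmem : ∀ k, w k ∈ Lam F) (x : ℝ) : psi L d (lb F) x ≤ psi L d w x := by
  subst hj
  set T : Matrix (Fin (finrank ℤ (Lam F))) (Fin (finrank ℤ (Lam F))) ℤ :=
    Matrix.of fun l k => (Module.finBasis ℤ (Lam F)).repr ⟨w k, hmem k⟩ l with hT
  have hrep : ∀ k, w k = ∑ l, T l k • lb F l := by
    intro k
    have h1 := (Module.finBasis ℤ (Lam F)).sum_repr ⟨w k, hmem k⟩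
    have := congrArg (fun z : Lam F => (z : m → ℤ)) h1
    simp only [Submodule.coe_sum, Submodule.coe_smul] at this
    exact this.symm
  apply psi_le_of_det L d (lb F) w T hrep
  intro hdet
  obtain ⟨c, hc0, hc⟩ := Matrix.exists_mulVec_eq_zero_iff.2 hdet
  apply hc0
  have : ∑ k, c k • w k = 0 := by
    have h1 : ∀ k, c k • w k = ∑ l, (T l k * c k) • lb F l := by
      intro k
      rw [hrep k, Finset.smul_sum]
      refine Finset.sum_congr rfl fun l _ => ?_
      rw [smul_smul, mul_comm]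
    simp_rw [h1]
    rw [Finset.sum_comm]
    refine Finset.sum_eq_zero fun l _ => ?_
    rw [← Finset.sum_smul]
    have : ∑ k, T l k * c k = (T.mulVec c) l := rfl
    rw [this, hc]; simp
  ext k
  exact Fintype.linearIndependent_iff.1 hw c this k

lemma psi_fin_zero (L : κ → m → ℤ[X]) (d : κ → ℝ) {j : ℕ} (hj : j = 0) (w : Fin j → m → ℤ)
    (x : ℝ) : psi L d w x = 1 := by
  subst hj
  unfold psi
  have : (fun σ : Fin 0 → κ => (∏ i, d (σ i)) * (toR (minorP L σ w)).eval x) = fun _ => 1 := by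
    funext σ
    simp [minorP, toR]
  rw [this]
  simp

theorem km_forms_fin (L : κ → m → ℤ[X]) (d : κ → ℝ) (hd : ∀ s, 0 < d s) (Δ : ℕ)
    (hΔ : 1 ≤ Fintype.card m * Δ)
    (hL : ∀ s c, (L s c).natDegree ≤ Δ) (a b : ℝ) (hab : a < b) (c0 : ℝ)
    (hc0 : 1 ≤ c0 * (min 1 ((b - a) / (4 * ((Fintype.card m * Δ : ℕ) + 1)))) ^
      (Fintype.card m * Δ))
    (H : ∀ j (v : Fin j → m → ℤ), 1 ≤ j → LinearIndependent ℤ v →
      ∃ σ : Fin j → κ, minorP L σ v ≠ 0 ∧ c0 ≤ ∏ i, d (σ i))
    (ε : ℝ) (hε : 0 < ε) (hε1 : ε ≤ 1) (𝒱 : Finset (m → ℤ)) (h𝒱 : ∀ v ∈ 𝒱, v ≠ 0) :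
    volume {x ∈ Icc a b | ∃ v ∈ 𝒱, ∀ s, |d s * (toR (formP L s v)).eval x| <
        ε / (2 * Fintype.card m)} ≤
      ENNReal.ofReal (((2:ℝ)^(Fintype.card m + 1) - 2) *
        (4 * (Fintype.card m * Δ : ℕ) * ε ^ ((1:ℝ) / (Fintype.card m * Δ : ℕ))) * (b - a)) := by
  classical
  set N := Fintype.card m with hN
  set D0 := N * Δ with hD0
  have hrankle : ∀ F : Submodule ℚ (m → ℚ), finrank ℤ (Lam F) ≤ N := by
    intro F
    have := (lb_linearIndependent F).fintype_card_le_finrank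
    rw [Fintype.card_fin, Module.finrank_pi] at this
    exact this
  have hdegle : ∀ (F : Submodule ℚ (m → ℚ)) (σ : Fin (finrank ℤ (Lam F)) → κ),
      (minorP L σ (lb F)).natDegree ≤ D0 := by
    intro F σ
    refine (natDegree_minorP_le L Δ hL σ (lb F)).trans ?_
    exact Nat.mul_le_mul_right _ (hrankle F)
  set ψ : Submodule ℚ (m → ℚ) → ℝ → ℝ := fun F x => psi L d (lb F) x with hψ
  set cmp : Submodule ℚ (m → ℚ) → Submodule ℚ (m → ℚ) → Prop := fun F G => F ≤ G ∨ G ≤ F
    with hcmp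
  set SR : Finset (Submodule ℚ (m → ℚ)) :=
    (𝒱.powerset.image (fun A : Finset (m → ℤ) =>
      Submodule.span ℚ (intIncl m '' (A : Set (m → ℤ))))).erase ⊥
    with hSR
  have hmemSR : ∀ F, F ∈ SR ↔ F ≠ ⊥ ∧ ∃ A : Finset (m → ℤ), A ⊆ 𝒱 ∧
      Submodule.span ℚ (intIncl m '' (A : Set (m → ℤ))) = F := by
    intro F
    rw [hSR, Finset.mem_erase, Finset.mem_image]
    refine and_congr_right fun _ => ⟨?_, ?_⟩
    · rintro ⟨A, hA, h⟩; exact ⟨A, Finset.mem_powerset.1 hA, h⟩
    · rintro ⟨A, hA, h⟩; exact ⟨A, Finset.mem_powerset.2 hA, h⟩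
  have hgood : ∀ s (a b : ℝ), a < b → (∃ y ∈ Icc a b, 1 ≤ ψ s y) →
      volume {x ∈ Icc a b | ψ s x < ε} ≤
        ENNReal.ofReal ((4 * D0 * ε ^ ((1:ℝ) / D0)) * (b - a)) := by
    intro F a' b' hab' hy
    exact psi_good L d (lb F) D0 hΔ (hdegle F) ε hε a' b' hab' hy
  have hκ : (0:ℝ) ≤ 4 * D0 * ε ^ ((1:ℝ) / D0) := by positivity
  have hchain : ∀ T ⊆ SR, (∀ s ∈ T, ∀ t ∈ T, s ≠ t → cmp s t) → T.card ≤ N := by
    intro T hT hTc
    have h1 : T.card ≤ (Finset.Icc 1 N).card := by
      apply Finset.card_le_card_of_injOn (fun F : Submodule ℚ (m → ℚ) => finrank ℚ F)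
      · intro F hF
        have hF' := (hmemSR F).1 (hT hF)
        rw [Finset.coe_Icc, mem_Icc]
        refine ⟨?_, ?_⟩
        · have := Submodule.one_le_finrank_iff.2 hF'.1
          exact this
        · have := Submodule.finrank_le F
          rw [Module.finrank_pi] at this
          exact this
      · intro F hF G hG hFG
        by_contra hne
        rcases hTc F hF G hG hne with h | h
        · exact hne (Submodule.eq_of_le_of_finrank_eq h hFG)
        · exact hne (Submodule.eq_of_le_of_finrank_eq h hFG.symm).symm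
    simpa using h1
  have hsup : ∀ s ∈ SR, ∃ y ∈ Icc a b, 1 ≤ ψ s y := by
    intro F hF
    obtain ⟨hF0, A, hA, hAF⟩ := (hmemSR F).1 hF
    have hr : 1 ≤ finrank ℤ (Lam F) := by
      rw [← hAF, finrank_Lam, hAF]
      exact Submodule.one_le_finrank_iff.2 hF0
    obtain ⟨σ, hσ, hσd⟩ := H _ (lb F) hr (lb_linearIndependent F)
    obtain ⟨y, hy, hyv⟩ := exists_large_value (minorP L σ (lb F)) hσ D0 (hdegle F σ) a b hab
    refine ⟨y, hy, ?_⟩
    have hprod : 0 < ∏ i, d (σ i) := Finset.prod_pos fun i _ => hd _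
    have h1 : 1 ≤ |(∏ i, d (σ i)) * (toR (minorP L σ (lb F))).eval y| := by
      rw [abs_mul, abs_of_pos hprod]
      calc (1:ℝ) ≤ c0 * (min 1 ((b - a) / (4 * ((D0 : ℕ) + 1)))) ^ D0 := hc0
        _ ≤ (∏ i, d (σ i)) * (min 1 ((b - a) / (4 * ((D0 : ℕ) + 1)))) ^ D0 := by
            apply mul_le_mul_of_nonneg_right hσd
            apply pow_nonneg
            apply le_min zero_le_one
            apply div_nonneg (by linarith) (by positivity)
        _ ≤ _ := by
            apply mul_le_mul_of_nonneg_left hyv hprod.le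
    refine h1.trans ?_
    simp only [hψ, psi]
    exact norm_le_pi_norm (fun σ : Fin (finrank ℤ (Lam F)) → κ =>
      (∏ i, d (σ i)) * (toR (minorP L σ (lb F))).eval y) σ
  have hkm := km_abstract cmp (fun s t h => h.symm) ψ (fun F => psi_continuous L d (lb F)) ε
    (4 * D0 * ε ^ ((1:ℝ) / D0)) hκ hgood N SR hchain a b hab hsup
  refine (measure_mono ?_).trans hkm
  rintro x ⟨hxab, v, hv, hvs⟩
  refine ⟨hxab, ?_⟩
  rintro ⟨T, hTS, hTc, hT1, hT2⟩
  -- the largest member not containing `v`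
  obtain ⟨F0, ⟨A0, hA0, hAF0⟩, hF0v, hF0T, hψ0⟩ : ∃ F0 : Submodule ℚ (m → ℚ),
      (∃ A : Finset (m → ℤ), A ⊆ 𝒱 ∧ Submodule.span ℚ (intIncl m '' (A : Set (m → ℤ))) = F0) ∧
      intIncl m v ∉ F0 ∧ (∀ F ∈ T, (intIncl m v ∈ F ∧ F0 ≤ F) ∨ F ≤ F0) ∧ ψ F0 x ≤ 1 := by
    rcases (T.filter (fun F => intIncl m v ∉ F)).eq_empty_or_nonempty with hemp | hne
    · refine ⟨⊥, ⟨∅, by simp, by simp⟩, ?_, ?_, ?_⟩
      · rw [Submodule.mem_bot]
        intro h
        exact h𝒱 v hv (intIncl_injective m (by rw [h, map_zero]))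
      · intro F hF
        left
        refine ⟨?_, bot_le⟩
        by_contra hc
        have : F ∈ T.filter (fun F => intIncl m v ∉ F) := Finset.mem_filter.2 ⟨hF, hc⟩
        rw [hemp] at this
        exact absurd this (Finset.notMem_empty _)
      · simp only [hψ]
        rw [psi_fin_zero L d ?_ (lb ⊥) x]
        have := finrank_Lam (m := m) (∅ : Set (m → ℤ))
        rw [image_empty, Submodule.span_empty, finrank_bot] at this
        exact this
    · obtain ⟨F0, hF0, hmax⟩ := Finset.exists_max_image _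
        (fun F : Submodule ℚ (m → ℚ) => finrank ℚ F) hne
      rw [Finset.mem_filter] at hF0
      refine ⟨F0, ((hmemSR F0).1 (hTS hF0.1)).2, hF0.2, ?_, (hT1 F0 hF0.1).2⟩
      intro F hF
      by_cases hvF : intIncl m v ∈ F
      · left
        refine ⟨hvF, ?_⟩
        rcases eq_or_ne F F0 with h | h
        · rw [h]
        rcases hTc F hF F0 hF0.1 h with h' | h'
        · exact absurd (h' hvF) hF0.2
        · exact h'
      · right
        rcases eq_or_ne F F0 with h | h
        · rw [h]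
        rcases hTc F hF F0 hF0.1 h with h' | h'
        · exact h'
        · have := hmax F (Finset.mem_filter.2 ⟨hF, hvF⟩)
          exact absurd (Submodule.eq_of_le_of_finrank_le h' this).symm h
  set F1 : Submodule ℚ (m → ℚ) := F0 ⊔ Submodule.span ℚ {intIncl m v} with hF1
  have hF1A : Submodule.span ℚ (intIncl m '' ((insert v A0 : Finset (m → ℤ)) : Set (m → ℤ))) =
      F1 := by
    rw [hF1, ← hAF0, ← Submodule.span_union]
    congr 1
    rw [Finset.coe_insert, image_insert_eq, insert_eq, union_comm]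
  have hF1mem : F1 ∈ SR := by
    rw [hmemSR]
    refine ⟨?_, insert v A0, ?_, hF1A⟩
    · intro h
      have : intIncl m v ∈ F1 := by
        rw [hF1]
        exact Submodule.mem_sup_right (Submodule.mem_span_singleton_self _)
      rw [h, Submodule.mem_bot] at this
      exact h𝒱 v hv (intIncl_injective m (by rw [this, map_zero]))
    · intro w hw
      rw [Finset.mem_insert] at hw
      rcases hw with rfl | hw
      · exact hv
      · exact hA0 hw
  have hεψ : ε ≤ ψ F1 x := by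
    by_cases hT : F1 ∈ T
    · exact (hT1 F1 hT).1
    · refine hε1.trans (hT2 F1 hF1mem hT ?_)
      intro F hF
      rcases hF0T F hF with ⟨h1, h2⟩ | h
      · left
        rw [hF1]
        apply sup_le h2
        rw [Submodule.span_singleton_le_iff_mem]
        exact h1
      · right
        exact h.trans le_sup_left
  have hdim : finrank ℤ (Lam F0) + 1 = finrank ℤ (Lam F1) := by
    rw [← hF1A, finrank_Lam, hF1A, ← hAF0, finrank_Lam, hAF0, hF1,
      Submodule.finrank_sup_span_singleton hF0v]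
  have hcons : LinearIndependent ℤ (Fin.cons v (lb F0) : Fin (finrank ℤ (Lam F0) + 1) → m → ℤ) := by
    apply linInd_int
    have h1 : (fun k => intIncl m ((Fin.cons v (lb F0) :
        Fin (finrank ℤ (Lam F0) + 1) → m → ℤ) k)) =
        Fin.cons (intIncl m v) (fun k => intIncl m (lb F0 k)) := by
      funext k
      refine Fin.cases ?_ (fun i => ?_) k
      · simp
      · simp
    rw [h1, linearIndependent_finCons]
    refine ⟨linInd_rat (lb_linearIndependent F0), ?_⟩
    intro h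
    apply hF0v
    have h2 : Submodule.span ℚ (range (fun k => intIncl m (lb F0 k))) ≤ F0 := by
      rw [Submodule.span_le]
      rintro _ ⟨k, rfl⟩
      exact lb_mem F0 k
    exact h2 h
  have hmemcons : ∀ k, (Fin.cons v (lb F0) : Fin (finrank ℤ (Lam F0) + 1) → m → ℤ) k ∈ Lam F1 := by
    intro k
    refine Fin.cases ?_ (fun i => ?_) k
    · rw [Fin.cons_zero, mem_Lam, hF1]
      exact Submodule.mem_sup_right (Submodule.mem_span_singleton_self _)
    · rw [Fin.cons_succ, mem_Lam, hF1]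
      exact Submodule.mem_sup_left (lb_mem F0 i)
  have h1 := psi_lb_le L d F1 hdim (Fin.cons v (lb F0)) hcons hmemcons x
  have hN1 : finrank ℤ (Lam F0) + 1 ≤ N := by
    rw [hdim]; exact hrankle F1
  have hNpos : (0:ℝ) < N := by
    have : 0 < N := by omega
    exact_mod_cast this
  have h2 := psi_cons_le L d (lb F0) v x (ε / (2 * N)) (by positivity) (fun s => (hvs s).le)
  have hψ0' : psi L d (lb F0) x ≤ 1 := hψ0
  have hψ00 : 0 ≤ psi L d (lb F0) x := norm_nonneg _
  have h3 : ((finrank ℤ (Lam F0) : ℕ) : ℝ) + 1 ≤ N := by exact_mod_cast hN1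
  have h4 : ε ≤ ε / 2 := by
    calc ε ≤ psi L d (lb F1) x := hεψ
      _ ≤ _ := h1
      _ ≤ (((finrank ℤ (Lam F0) : ℕ) : ℝ) + 1) * (ε / (2 * N)) * psi L d (lb F0) x := h2
      _ ≤ N * (ε / (2 * N)) * 1 := by
          apply mul_le_mul _ hψ0' hψ00 (by positivity)
          apply mul_le_mul_of_nonneg_right h3 (by positivity)
      _ = ε / 2 := by field_simp
  linarith

theorem km_forms (L : κ → m → ℤ[X]) (d : κ → ℝ) (hd : ∀ s, 0 < d s) (Δ : ℕ)
    (hΔ : 1 ≤ Fintype.card m * Δ)
    (hL : ∀ s c, (L s c).natDegree ≤ Δ) (a b : ℝ) (hab : a < b) (c0 : ℝ)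
    (hc0 : 1 ≤ c0 * (min 1 ((b - a) / (4 * ((Fintype.card m * Δ : ℕ) + 1)))) ^
      (Fintype.card m * Δ))
    (H : ∀ j (v : Fin j → m → ℤ), 1 ≤ j → LinearIndependent ℤ v →
      ∃ σ : Fin j → κ, minorP L σ v ≠ 0 ∧ c0 ≤ ∏ i, d (σ i))
    (ε : ℝ) (hε : 0 < ε) (hε1 : ε ≤ 1) :
    volume {x ∈ Icc a b | ∃ v : m → ℤ, v ≠ 0 ∧ ∀ s, |d s * (toR (formP L s v)).eval x| <
        ε / (2 * Fintype.card m)} ≤
      ENNReal.ofReal (((2:ℝ)^(Fintype.card m + 1) - 2) *
        (4 * (Fintype.card m * Δ : ℕ) * ε ^ ((1:ℝ) / (Fintype.card m * Δ : ℕ))) * (b - a)) := by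
  classical
  set A : ℕ → Set ℝ := fun R => {x ∈ Icc a b | ∃ v ∈ (Fintype.piFinset
    (fun _ : m => Finset.Icc (-(R:ℤ)) R)).filter (fun v => v ≠ 0),
    ∀ s, |d s * (toR (formP L s v)).eval x| < ε / (2 * Fintype.card m)} with hA
  have hmono : Monotone A := by
    intro R R' hR x hx
    obtain ⟨hx, v, hv, hvs⟩ := hx
    refine ⟨hx, v, ?_, hvs⟩
    rw [Finset.mem_filter, Fintype.mem_piFinset] at hv ⊢
    refine ⟨fun i => ?_, hv.2⟩
    have := hv.1 i
    rw [Finset.mem_Icc] at this ⊢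
    have hR' : (R:ℤ) ≤ R' := by exact_mod_cast hR
    constructor <;> linarith [this.1, this.2]
  have hUnion : {x ∈ Icc a b | ∃ v : m → ℤ, v ≠ 0 ∧ ∀ s, |d s * (toR (formP L s v)).eval x| <
        ε / (2 * Fintype.card m)} = ⋃ R, A R := by
    ext x
    rw [mem_iUnion]
    constructor
    · rintro ⟨hx, v, hv, hvs⟩
      refine ⟨(∑ i, |v i|).toNat, hx, v, ?_, hvs⟩
      rw [Finset.mem_filter, Fintype.mem_piFinset]
      refine ⟨fun i => ?_, hv⟩
      have h1 : |v i| ≤ ∑ i, |v i| :=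
        Finset.single_le_sum (f := fun i => |v i|) (fun _ _ => abs_nonneg _) (Finset.mem_univ i)
      have h2 : 0 ≤ ∑ i, |v i| := Finset.sum_nonneg fun _ _ => abs_nonneg _
      rw [Finset.mem_Icc, Int.toNat_of_nonneg h2]
      exact abs_le.1 h1
    · rintro ⟨R, hx, v, hv, hvs⟩
      rw [Finset.mem_filter] at hv
      exact ⟨hx, v, hv.2, hvs⟩
  rw [hUnion, hmono.measure_iUnion]
  apply iSup_le
  intro R
  exact km_forms_fin L d hd Δ hΔ hL a b hab c0 hc0 H ε hε hε1 _
    (fun v hv => (Finset.mem_filter.1 hv).2)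

end Pool.Agent.H8KM
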