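import Pool.Agent.H8KM.TensorMeasure
import Pool.Agent.H8KM.Height

set_option autoImplicit false

open MeasureTheory Set Polynomial Filter

namespace Pool.Agent.H8KM

theorem unkilled (n : ℕ) (hn : 4 ≤ n) (a b : ℝ) (ha : 0 ≤ a) (hab : a < b) (hb : b ≤ 1)
    (c : ℝ) (hc : 0 < c) (η : ℝ) (hη : 0 < η) :
    ∀ᶠ Q : ℝ in atTop, volume {x ∈ Icc a b | ∃ (q : ℕ) (p : ℤ), c * Q < q ∧ (q:ℝ) ≤ Q ∧
      |q * x - p| ≤ 1 / Q ∧ ∃ P : ℤ[X], P ≠ 0 ∧ P.natDegree ≤ n ∧ (ht P : ℝ) ≤ Q ^ (gexp n) ∧
      |(toR P).eval ((p:ℝ) / q)| < Q ^ (gexp n - 4)} ≤ ENNReal.ofReal η := by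
  set K : ℝ := 1 + Kc n / c + Kc n / c ^ 2 + Kc n with hK
  have hKc := Kc_pos n
  filter_upwards [tensor_measure n hn a b hab K η hη, eventually_ge_atTop 1] with Q hQ hQ1
  refine le_trans (measure_mono ?_) hQ
  rintro x ⟨hx, q, p, hcq, hqQ, hpq, P, hP0, hPn, hPH, hPr⟩
  have hQ0 : 0 < Q := by linarith
  have hq0 : (0:ℝ) < q := lt_trans (by positivity) hcq
  have hq1 : (1:ℝ) ≤ q := by
    have : 0 < q := by exact_mod_cast hq0
    exact_mod_cast this
  have hqz : q ≠ 0 := by
    rintro rfl; norm_num at hq0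
  have hx1 : |x| ≤ 1 := by rw [abs_le]; constructor <;> linarith [hx.1, hx.2]
  set r : ℝ := (p:ℝ) / q with hr
  have hqr : (q:ℝ) * r = p := by rw [hr]; field_simp
  have hrx : |r - x| ≤ 1 / (q * Q) := by
    have h1 : r - x = -((q * x - p) / q) := by rw [← hqr]; field_simp; ring
    rw [h1, abs_neg, abs_div, abs_of_pos hq0, div_le_div_iff₀ hq0 (by positivity)]
    calc |q * x - p| * (q * Q) ≤ 1 / Q * (q * Q) :=
          mul_le_mul_of_nonneg_right hpq (by positivity)
      _ = 1 * q := by field_simp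
  have hrx2 : |r - x| ≤ 1 / (c * Q ^ 2) := by
    refine hrx.trans ?_
    apply one_div_le_one_div_of_le (by positivity)
    calc c * Q ^ 2 = (c * Q) * Q := by ring
      _ ≤ q * Q := mul_le_mul_of_nonneg_right hcq.le hQ0.le
  have hrx1 : |r - x| ≤ 1 := by
    refine hrx.trans ?_
    rw [div_le_one (by positivity)]
    nlinarith
  set g := gexp n with hg
  have hQg : 0 < Q ^ g := by positivity
  have hH0 : (0:ℝ) ≤ ht P := Nat.cast_nonneg _
  -- powers
  have pw : ∀ e : ℕ, Q ^ (g - (e:ℝ)) = Q ^ g / Q ^ e := by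
    intro e
    rw [Real.rpow_sub hQ0, Real.rpow_natCast]
  have pw4 : Q ^ (g - 4) = Q ^ g / Q ^ 4 := by have := pw 4; push_cast at this; exact this
  have pw3 : Q ^ (g - 3) = Q ^ g / Q ^ 3 := by have := pw 3; push_cast at this; exact this
  have pw1 : Q ^ (g - 1) = Q ^ g / Q := by have := pw 1; simpa using this
  have pwp : Q ^ (g + 1) = Q ^ g * Q := by rw [Real.rpow_add hQ0, Real.rpow_one]
  have hder : ∀ t, |(hasseDeriv t (toR P)).eval x| ≤ Kc n * Q ^ g := by
    intro t
    refine (hasse_bound' P hPn t x hx1).trans ?_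
    exact mul_le_mul_of_nonneg_left hPH hKc.le
  have hfo := first_order P hPn x r hx1 hrx1
  have hso := second_order P hPn x r hx1 hrx1
  have hA : toR (C (q:ℤ) * P) = C (q:ℝ) * toR P := by simp [toR]
  have hB : toR (C p * P) = C (p:ℝ) * toR P := by simp [toR]
  have hK1 : (1 + Kc n / c) ≤ K := by rw [hK]; have : 0 < Kc n / c ^ 2 := by positivity
                                      linarith
  have hK2 : (1 + Kc n / c ^ 2) ≤ K := by rw [hK]; have : 0 < Kc n / c := by positivity
                                          linarith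
  have hK3 : Kc n ≤ K := by
    rw [hK]
    have h1 : 0 < Kc n / c := by positivity
    have h2 : 0 < Kc n / c ^ 2 := by positivity
    linarith
  refine ⟨hx, C (q:ℤ) * P, C p * P, Or.inl ?_, ?_, ?_, ?_, ?_, ?_, ?_⟩
  · apply mul_ne_zero _ hP0
    rw [Ne, C_eq_zero]; exact_mod_cast hqz
  · exact (natDegree_C_mul_le _ _).trans hPn
  · exact (natDegree_C_mul_le _ _).trans hPn
  · rw [hA, hB, eval_mul, eval_mul, eval_C, eval_C]
    have e1 : x * (q * (toR P).eval x) - p * (toR P).eval x = (q * x - p) * (toR P).eval x := by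
      ring
    rw [e1, abs_mul, pw3]
    have e2 : |(toR P).eval x| ≤ (1 + Kc n / c) * (Q ^ g / Q ^ 2) := by
      have e3 : |(toR P).eval x| ≤ |(toR P).eval r| + |(toR P).eval r - (toR P).eval x| := by
        have := abs_sub_abs_le_abs_sub ((toR P).eval x) ((toR P).eval r)
        rw [abs_sub_comm] at this
        linarith
      have e4 : |(toR P).eval r| ≤ Q ^ g / Q ^ 2 := by
        refine hPr.le.trans ?_
        rw [pw4]
        apply div_le_div_of_nonneg_left hQg.le (by positivity)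
        exact pow_le_pow_right₀ hQ1 (by norm_num)
      have e5 : |(toR P).eval r - (toR P).eval x| ≤ Kc n / c * (Q ^ g / Q ^ 2) := by
        refine hfo.trans ?_
        calc Kc n * ht P * |r - x| ≤ Kc n * Q ^ g * (1 / (c * Q ^ 2)) := by
              apply mul_le_mul _ hrx2 (abs_nonneg _) (by positivity)
              exact mul_le_mul_of_nonneg_left hPH hKc.le
          _ = Kc n / c * (Q ^ g / Q ^ 2) := by field_simp
      linarith
    calc |(q:ℝ) * x - p| * |(toR P).eval x| ≤ (1 / Q) * ((1 + Kc n / c) * (Q ^ g / Q ^ 2)) :=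
          mul_le_mul hpq e2 (abs_nonneg _) (by positivity)
      _ = (1 + Kc n / c) * (Q ^ g / Q ^ 3) := by field_simp
      _ ≤ K * (Q ^ g / Q ^ 3) := mul_le_mul_of_nonneg_right hK1 (by positivity)
  · rw [hA, hB]
    simp only [derivative_C_mul, eval_mul, eval_C]
    have e1 : (q:ℝ) * (toR P).eval x - (x * (q * (derivative (toR P)).eval x) -
        p * (derivative (toR P)).eval x) = q * ((toR P).eval r - ((toR P).eval r -
        (toR P).eval x - (derivative (toR P)).eval x * (r - x))) := by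
      rw [← hqr]; ring
    rw [e1, abs_mul, abs_of_pos hq0, pw3]
    have e2 : |(toR P).eval r - ((toR P).eval r -
        (toR P).eval x - (derivative (toR P)).eval x * (r - x))| ≤
        (1 + Kc n / c ^ 2) * (Q ^ g / Q ^ 4) := by
      refine (abs_sub _ _).trans ?_
      have e3 : |(toR P).eval r - (toR P).eval x - (derivative (toR P)).eval x * (r - x)| ≤
          Kc n / c ^ 2 * (Q ^ g / Q ^ 4) := by
        refine hso.trans ?_
        calc Kc n * ht P * |r - x| ^ 2 ≤ Kc n * Q ^ g * (1 / (c * Q ^ 2)) ^ 2 := by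
              apply mul_le_mul _ (pow_le_pow_left₀ (abs_nonneg _) hrx2 2) (by positivity)
                (by positivity)
              exact mul_le_mul_of_nonneg_left hPH hKc.le
          _ = Kc n / c ^ 2 * (Q ^ g / Q ^ 4) := by field_simp
      have e4 : |(toR P).eval r| ≤ Q ^ g / Q ^ 4 := by rw [← pw4]; exact hPr.le
      linarith
    calc (q:ℝ) * |_| ≤ Q * ((1 + Kc n / c ^ 2) * (Q ^ g / Q ^ 4)) :=
          mul_le_mul hqQ e2 (abs_nonneg _) hQ0.le
      _ = (1 + Kc n / c ^ 2) * (Q ^ g / Q ^ 3) := by field_simp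
      _ ≤ K * (Q ^ g / Q ^ 3) := mul_le_mul_of_nonneg_right hK2 (by positivity)
  · intro t
    rw [hA, hB, hasseDeriv_C_mul', hasseDeriv_C_mul', eval_mul, eval_mul, eval_C, eval_C, pw1]
    have e1 : x * (q * (hasseDeriv t (toR P)).eval x) - p * (hasseDeriv t (toR P)).eval x =
      (q * x - p) * (hasseDeriv t (toR P)).eval x := by ring
    rw [e1, abs_mul]
    calc |(q:ℝ) * x - p| * |(hasseDeriv t (toR P)).eval x| ≤ (1 / Q) * (Kc n * Q ^ g) :=
          mul_le_mul hpq (hder t) (abs_nonneg _) (by positivity)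
      _ = Kc n * (Q ^ g / Q) := by field_simp
      _ ≤ K * (Q ^ g / Q) := mul_le_mul_of_nonneg_right hK3 (by positivity)
  · intro t
    rw [hA, hasseDeriv_C_mul', eval_mul, eval_C, abs_mul, abs_of_pos hq0, pwp]
    calc (q:ℝ) * |(hasseDeriv t (toR P)).eval x| ≤ Q * (Kc n * Q ^ g) :=
          mul_le_mul hqQ (hder t) (abs_nonneg _) hQ0.le
      _ = Kc n * (Q ^ g * Q) := by ring
      _ ≤ K * (Q ^ g * Q) := mul_le_mul_of_nonneg_right hK3 (by positivity)

end Pool.Agent.H8KM
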