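import Pool.Agent.H8KM.StepMeasure
import Pool.Agent.H8KM.Unkilled

set_option autoImplicit false

open MeasureTheory Set Polynomial Filter

namespace Pool.Agent.H8KM

/-- the bad set for irreducible polynomials -/
def BadI (n w : ℕ) (τ : ℝ) : Set ℝ :=
  {x ∈ Icc (0:ℝ) 1 | ∃ P : ℤ[X], Irreducible P ∧ 1 ≤ P.natDegree ∧ P.natDegree ≤ n ∧
      τ ≤ (ht P : ℝ) ^ (n+1) ∧
      |(P.map (Int.castRingHom ℝ)).eval x| * ((ht P : ℝ) ^ (n+1)) ^ w < 1}

/-- the bad set for rational points -/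
def BadU (n : ℕ) (a b Q : ℝ) : Set ℝ :=
  {x ∈ Icc a b | ∃ (q : ℕ) (p : ℤ), (1/30) * Q < q ∧ (q:ℝ) ≤ Q ∧
      |q * x - p| ≤ 1 / Q ∧ ∃ P : ℤ[X], P ≠ 0 ∧ P.natDegree ≤ n ∧ (ht P : ℝ) ≤ Q ^ (gexp n) ∧
      |(toR P).eval ((p:ℝ) / q)| < Q ^ (gexp n - 4)}

/-- the bad set for small denominators -/
def BadD (a b : ℝ) (Q : ℕ) : Set ℝ :=
  {x ∈ Icc a b | ∃ (q : ℕ) (p : ℤ), 1 ≤ q ∧ (q:ℝ) ≤ (1/30) * (Q:ℝ) ∧
      |q * x - p| ≤ 1 / ((Q:ℝ) + 1)}

theorem exists_point (k : ℕ) : ∃ θ : ℝ, 0 < θ ∧ ∀ (a b τ : ℝ), 0 ≤ a → a < b → b ≤ 1 → 1 ≤ τ →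
    θ / τ ^ 177 ≤ (b - a) / 5 → ∃ T0 : ℝ, 1 ≤ T0 ∧ ∀ᶠ Q : ℕ in atTop, ∃ x ∈ Icc a b,
      (∀ n ∈ Finset.Icc 4 k, x ∉ BadI n 180 τ) ∧
      (∀ n ∈ Finset.Icc 4 k, x ∉ BadI n 4 T0) ∧
      (∀ n ∈ Finset.Icc 4 k, x ∉ BadU n a b Q) ∧
      x ∉ BadD a b Q := by
  have h180 : ∀ n : ℕ, ∃ K : ℝ, 0 < K ∧ (1 ≤ n → ∀ τ : ℝ, 1 ≤ τ →
      volume (BadI n 180 τ) ≤ ENNReal.ofReal (K / τ ^ 177)) := by
    intro n
    by_cases hn : 1 ≤ n
    · obtain ⟨K, hK, h⟩ := irred_T n 180 hn (by norm_num)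
      exact ⟨K, hK, fun _ => h⟩
    · exact ⟨1, one_pos, fun h => absurd h hn⟩
  have h4 : ∀ n : ℕ, ∃ K : ℝ, 0 < K ∧ (1 ≤ n → ∀ τ : ℝ, 1 ≤ τ →
      volume (BadI n 4 τ) ≤ ENNReal.ofReal (K / τ ^ 1)) := by
    intro n
    by_cases hn : 1 ≤ n
    · obtain ⟨K, hK, h⟩ := irred_T n 4 hn (by norm_num)
      exact ⟨K, hK, fun _ => h⟩
    · exact ⟨1, one_pos, fun h => absurd h hn⟩
  choose K1 hK1 hK1m using h180
  choose K2 hK2 hK2m using h4
  set θ : ℝ := ∑ n ∈ Finset.Icc 4 k, K1 n + 1 with hθ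
  have hθ1 : 0 ≤ ∑ n ∈ Finset.Icc 4 k, K1 n := Finset.sum_nonneg fun n _ => (hK1 n).le
  refine ⟨θ, by linarith, ?_⟩
  intro a b τ ha hab hb hτ hθτ
  have hba : 0 < b - a := by linarith
  have hS2 : 0 ≤ ∑ n ∈ Finset.Icc 4 k, K2 n := Finset.sum_nonneg fun n _ => (hK2 n).le
  set T0 : ℝ := max 1 (5 * (∑ n ∈ Finset.Icc 4 k, K2 n) / (b - a)) with hT0
  have hT01 : 1 ≤ T0 := le_max_left _ _
  refine ⟨T0, hT01, ?_⟩
  set η : ℝ := (b - a) / (5 * (k + 1)) with hη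
  have hη0 : 0 < η := by positivity
  have e3 : ∀ n ∈ Finset.Icc 4 k, ∀ᶠ Q : ℕ in atTop,
      volume (BadU n a b Q) ≤ ENNReal.ofReal η := by
    intro n hn
    rw [Finset.mem_Icc] at hn
    exact tendsto_natCast_atTop_atTop.eventually
      (unkilled n hn.1 a b ha hab hb (1/30) (by norm_num) η hη0)
  have e3' : ∀ᶠ Q : ℕ in atTop, ∀ n ∈ Finset.Icc 4 k, volume (BadU n a b Q) ≤
      ENNReal.ofReal η := by
    rw [Filter.eventually_all_finset]; exact e3
  filter_upwards [e3', dirichlet_measure a b hab] with Q hQ3 hQ4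
  by_contra hcon
  push Not at hcon
  have hsub : Icc a b ⊆ (⋃ n ∈ Finset.Icc 4 k, BadI n 180 τ) ∪
      ((⋃ n ∈ Finset.Icc 4 k, BadI n 4 T0) ∪ ((⋃ n ∈ Finset.Icc 4 k, BadU n a b Q) ∪
        BadD a b Q)) := by
    intro x hx
    by_contra hno
    simp only [mem_union, mem_iUnion, not_or, not_exists] at hno
    obtain ⟨h1, h2, h3, h4⟩ := hno
    exact h4 (hcon x hx (fun n hn => h1 n hn) (fun n hn => h2 n hn) (fun n hn => h3 n hn))
  have hτ177 : 0 < τ ^ 177 := by positivity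
  have v1 : volume (⋃ n ∈ Finset.Icc 4 k, BadI n 180 τ) ≤ ENNReal.ofReal ((b - a) / 5) := by
    calc volume (⋃ n ∈ Finset.Icc 4 k, BadI n 180 τ) ≤
        ∑ n ∈ Finset.Icc 4 k, volume (BadI n 180 τ) := measure_biUnion_finset_le _ _
      _ ≤ ∑ n ∈ Finset.Icc 4 k, ENNReal.ofReal (K1 n / τ ^ 177) := by
          refine Finset.sum_le_sum fun n hn => ?_
          rw [Finset.mem_Icc] at hn
          exact hK1m n (by omega) τ hτ
      _ = ENNReal.ofReal (∑ n ∈ Finset.Icc 4 k, K1 n / τ ^ 177) := by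
          rw [ENNReal.ofReal_sum_of_nonneg]
          intro n _
          have := hK1 n
          positivity
      _ ≤ ENNReal.ofReal ((b - a) / 5) := by
          apply ENNReal.ofReal_le_ofReal
          refine le_trans ?_ hθτ
          rw [← Finset.sum_div]
          apply div_le_div_of_nonneg_right _ hτ177.le
          linarith
  have v2 : volume (⋃ n ∈ Finset.Icc 4 k, BadI n 4 T0) ≤ ENNReal.ofReal ((b - a) / 5) := by
    have hT0pos : 0 < T0 := by linarith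
    calc volume (⋃ n ∈ Finset.Icc 4 k, BadI n 4 T0) ≤
        ∑ n ∈ Finset.Icc 4 k, volume (BadI n 4 T0) := measure_biUnion_finset_le _ _
      _ ≤ ∑ n ∈ Finset.Icc 4 k, ENNReal.ofReal (K2 n / T0 ^ 1) := by
          refine Finset.sum_le_sum fun n hn => ?_
          rw [Finset.mem_Icc] at hn
          exact hK2m n (by omega) T0 hT01
      _ = ENNReal.ofReal (∑ n ∈ Finset.Icc 4 k, K2 n / T0 ^ 1) := by
          rw [ENNReal.ofReal_sum_of_nonneg]
          intro n _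
          have := hK2 n
          positivity
      _ ≤ ENNReal.ofReal ((b - a) / 5) := by
          apply ENNReal.ofReal_le_ofReal
          rw [← Finset.sum_div, pow_one, div_le_iff₀ hT0pos]
          have h5 : 5 * (∑ n ∈ Finset.Icc 4 k, K2 n) / (b - a) ≤ T0 := le_max_right _ _
          rw [div_le_iff₀ hba] at h5
          linarith
  have v3 : volume (⋃ n ∈ Finset.Icc 4 k, BadU n a b Q) ≤ ENNReal.ofReal ((b - a) / 5) := by
    calc volume (⋃ n ∈ Finset.Icc 4 k, BadU n a b Q) ≤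
        ∑ n ∈ Finset.Icc 4 k, volume (BadU n a b Q) := measure_biUnion_finset_le _ _
      _ ≤ ∑ n ∈ Finset.Icc 4 k, ENNReal.ofReal η := by
          refine Finset.sum_le_sum fun n hn => hQ3 n hn
      _ = ENNReal.ofReal (((Finset.Icc 4 k).card : ℝ) * η) := by
          rw [Finset.sum_const, nsmul_eq_mul, ENNReal.ofReal_mul (by positivity),
            ENNReal.ofReal_natCast]
      _ ≤ ENNReal.ofReal ((b - a) / 5) := by
          apply ENNReal.ofReal_le_ofReal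
          have hc : ((Finset.Icc 4 k).card : ℝ) ≤ k + 1 := by
            rw [Nat.card_Icc]
            have : k + 1 - 4 ≤ k + 1 := Nat.sub_le _ _
            exact_mod_cast this
          calc ((Finset.Icc 4 k).card : ℝ) * η ≤ (k + 1) * η :=
                mul_le_mul_of_nonneg_right hc hη0.le
            _ = (b - a) / 5 := by rw [hη]; field_simp
  have v4 : volume (BadD a b Q) ≤ ENNReal.ofReal ((b - a) / 5) := hQ4
  have hv : volume (Icc a b) ≤ ENNReal.ofReal ((b - a) / 5) + (ENNReal.ofReal ((b - a) / 5) +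
      (ENNReal.ofReal ((b - a) / 5) + ENNReal.ofReal ((b - a) / 5))) := by
    refine (measure_mono hsub).trans ((measure_union_le _ _).trans (add_le_add v1 ?_))
    refine (measure_union_le _ _).trans (add_le_add v2 ?_)
    exact (measure_union_le _ _).trans (add_le_add v3 v4)
  rw [Real.volume_Icc, ← ENNReal.ofReal_add (by positivity) (by positivity),
    ← ENNReal.ofReal_add (by positivity) (by positivity),
    ← ENNReal.ofReal_add (by positivity) (by positivity),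
    ENNReal.ofReal_le_ofReal_iff (by positivity)] at hv
  linarith

end Pool.Agent.H8KM
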