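import Pool.Agent.H8KM.Point

set_option autoImplicit false

open MeasureTheory Set Polynomial Filter

namespace Pool.Agent.H8KM

/-- the interval attached to a fraction -/
def Iv (q : ℕ) (p : ℤ) : Set ℝ :=
  Icc ((p:ℝ) / q + ((q:ℝ) ^ 400)⁻¹) ((p:ℝ) / q + 2 * ((q:ℝ) ^ 400)⁻¹)

lemma Kc_mono {n k : ℕ} (h : n ≤ k) : Kc n ≤ Kc k := by
  unfold Kc
  have h1 : (n:ℝ) ≤ k := by exact_mod_cast h
  have h2 : (2:ℝ) ^ n ≤ 2 ^ k := pow_le_pow_right₀ (by norm_num) h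
  gcongr

lemma large_conditions (k : ℕ) (M ℓ T0 : ℝ) (hℓ : 0 < ℓ) : ∃ Z : ℝ, ∀ z : ℝ, Z ≤ z →
    M ≤ z ∧ 2 ≤ z ∧ 3 / z ^ 2 ≤ ℓ ∧ 2 * 30 ^ 4 ≤ z ∧ 2 * Kc k ≤ z ∧
      6 * Kc k ≤ z ^ (0.11:ℝ) ∧ T0 ≤ z ^ (0.01:ℝ) := by
  have e1 : ∀ᶠ z : ℝ in atTop, 6 * Kc k ≤ z ^ (0.11:ℝ) :=
    (tendsto_rpow_atTop (by norm_num)).eventually_ge_atTop _
  have e2 : ∀ᶠ z : ℝ in atTop, T0 ≤ z ^ (0.01:ℝ) :=
    (tendsto_rpow_atTop (by norm_num)).eventually_ge_atTop _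
  have e3 : ∀ᶠ z : ℝ in atTop, 3 / z ^ 2 ≤ ℓ := by
    have h1 : Tendsto (fun z : ℝ => 3 / z ^ 2) atTop (nhds 0) :=
      Tendsto.const_div_atTop (tendsto_pow_atTop (by norm_num)) 3
    exact (h1.eventually_lt_const hℓ).mono fun z hz => hz.le
  have e := (((((eventually_ge_atTop M).and (eventually_ge_atTop (2:ℝ))).and e3).and
    (eventually_ge_atTop (2 * 30 ^ 4 : ℝ))).and (eventually_ge_atTop (2 * Kc k))).and
    (e1.and e2)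
  obtain ⟨Z, hZ⟩ := eventually_atTop.1 e
  refine ⟨Z, fun z hz => ?_⟩
  obtain ⟨⟨⟨⟨⟨h1, h2⟩, h3⟩, h4⟩, h5⟩, h6, h7⟩ := hZ z hz
  exact ⟨h1, h2, h3, h4, h5, h6, h7⟩

lemma step_B1 {n k : ℕ} (hnk : n ≤ k) {q Q : ℕ} {p : ℤ}
    (hq2 : (2:ℝ) ≤ q) (hq30 : (2:ℝ) * 30 ^ 4 ≤ q) (hqK : 2 * Kc k ≤ q)
    (hcQ : (1/30) * (Q:ℝ) < q) (hqQ : (q:ℝ) ≤ Q) {P : ℤ[X]} (hP0 : P ≠ 0) (hPn : P.natDegree ≤ n)
    (hun : (ht P : ℝ) ≤ (Q:ℝ) ^ (gexp n) →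
      (Q:ℝ) ^ (gexp n - 4) ≤ |(toR P).eval ((p:ℝ) / q)|)
    (hT : (ht P : ℝ) ^ (n+1) ≤ (q:ℝ) ^ (2.3:ℝ)) {ξ : ℝ} (hξ : ξ ∈ Iv q p) (hξ1 : |ξ| ≤ 1) :
    ((q:ℝ) ^ 5)⁻¹ ≤ |(toR P).eval ξ| := by
  set z : ℝ := (q:ℝ) with hz
  have hz0 : 0 < z := by linarith
  have hz1 : 1 ≤ z := by linarith
  have hQ0 : (0:ℝ) < Q := by linarith
  have hQ1 : (1:ℝ) ≤ Q := by linarith
  have hH1 : (1:ℝ) ≤ ht P := by exact_mod_cast one_le_ht hP0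
  have hg : 0 < gexp n := by unfold gexp; positivity
  -- height
  have hht : (ht P : ℝ) ≤ (Q:ℝ) ^ (gexp n) := by
    have h1 : (ht P : ℝ) ^ (n+1) ≤ ((Q:ℝ) ^ (gexp n)) ^ (n+1) := by
      refine hT.trans ?_
      rw [← Real.rpow_natCast ((Q:ℝ) ^ gexp n) (n+1), ← Real.rpow_mul hQ0.le]
      have h2 : gexp n * ((n+1 : ℕ) : ℝ) = 2.3 := by
        unfold gexp; push_cast; field_simp
      rw [h2]
      exact Real.rpow_le_rpow hz0.le hqQ (by norm_num)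
    exact le_of_pow_le_pow_left₀ (by omega) (by positivity) h1
  have h1 := hun hht
  have h2 : (30 * z)⁻¹ ^ 4 ≤ (Q:ℝ) ^ (gexp n - 4) := by
    have h3 : ((Q:ℝ)⁻¹) ^ 4 ≤ (Q:ℝ) ^ (gexp n - 4) := by
      have h4 : ((Q:ℝ)⁻¹) ^ 4 = (Q:ℝ) ^ (-4:ℝ) := by
        rw [Real.rpow_neg hQ0.le, inv_pow]
        norm_cast
      rw [h4]
      apply Real.rpow_le_rpow_of_exponent_le hQ1
      linarith
    refine le_trans (pow_le_pow_left₀ (by positivity) ?_ 4) h3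
    apply inv_anti₀ hQ0
    linarith
  have hz3 : (ht P : ℝ) ≤ z ^ 3 := by
    calc (ht P : ℝ) ≤ (ht P : ℝ) ^ (n+1) := le_self_pow₀ hH1 (by omega)
      _ ≤ z ^ (2.3:ℝ) := hT
      _ ≤ z ^ (3:ℝ) := Real.rpow_le_rpow_of_exponent_le hz1 (by norm_num)
      _ = z ^ 3 := by norm_cast
  set r : ℝ := (p:ℝ) / z with hr
  have hξr : |r - ξ| ≤ 2 * (z ^ 400)⁻¹ := by
    obtain ⟨h3, h4⟩ := hξ
    have h5 : 0 < (z ^ 400)⁻¹ := by positivity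
    rw [abs_le]; constructor <;> linarith
  have hzpow : (2:ℝ) ≤ z ^ 400 := hq2.trans (le_self_pow₀ hz1 (by norm_num))
  have hξr1 : |r - ξ| ≤ 1 := by
    refine hξr.trans ?_
    rw [← div_eq_mul_inv, div_le_one (by positivity)]
    exact hzpow
  have hfo := first_order P hPn ξ r hξ1 hξr1
  have hKc := Kc_pos k
  have hdiff : |(toR P).eval r - (toR P).eval ξ| ≤ (z ^ 5)⁻¹ := by
    refine hfo.trans ?_
    calc Kc n * ht P * |r - ξ| ≤ Kc k * z ^ 3 * (2 * (z ^ 400)⁻¹) := by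
          apply mul_le_mul _ hξr (abs_nonneg _) (by positivity)
          exact mul_le_mul (Kc_mono hnk) hz3 (by positivity) hKc.le
      _ = (2 * Kc k) * (z ^ 397)⁻¹ := by
          have : z ^ 400 = z ^ 397 * z ^ 3 := by rw [← pow_add]
          rw [this]; field_simp
      _ ≤ z * (z ^ 397)⁻¹ := mul_le_mul_of_nonneg_right hqK (by positivity)
      _ = (z ^ 396)⁻¹ := by
          have : z ^ 397 = z ^ 396 * z := by rw [← pow_succ]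
          rw [this]; field_simp
      _ ≤ (z ^ 5)⁻¹ := by
          apply inv_anti₀ (by positivity)
          exact pow_le_pow_right₀ hz1 (by norm_num)
  have hmain : 2 * (z ^ 5)⁻¹ ≤ (30 * z)⁻¹ ^ 4 := by
    rw [inv_pow, ← div_eq_mul_inv, ← one_div, div_le_div_iff₀ (by positivity) (by positivity)]
    calc 2 * (30 * z) ^ 4 = (2 * 30 ^ 4) * z ^ 4 := by ring
      _ ≤ z * z ^ 4 := mul_le_mul_of_nonneg_right hq30 (by positivity)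
      _ = 1 * z ^ 5 := by ring
  have h5 : |(toR P).eval r| - |(toR P).eval ξ| ≤ |(toR P).eval r - (toR P).eval ξ| :=
    abs_sub_abs_le_abs_sub _ _
  linarith

lemma step_B2 {n k : ℕ} (hn4 : 4 ≤ n) (hnk : n ≤ k) {z x ξ T0 τ : ℝ}
    (hz2 : 2 ≤ z) (hzK : 6 * Kc k ≤ z ^ (0.11:ℝ)) (hzT : T0 ≤ z ^ (0.01:ℝ))
    (hx1 : |x| ≤ 1) (hξx : |ξ - x| ≤ 3 / z ^ 2) {P : ℤ[X]} (hP0 : P ≠ 0)
    (hPn : P.natDegree ≤ n)
    (h180 : τ ≤ (ht P : ℝ) ^ (n+1) → 1 ≤ |(toR P).eval x| * ((ht P : ℝ) ^ (n+1)) ^ 180)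
    (h4 : T0 ≤ (ht P : ℝ) ^ (n+1) → 1 ≤ |(toR P).eval x| * ((ht P : ℝ) ^ (n+1)) ^ 4)
    (hτ : τ ≤ (ht P : ℝ) ^ (n+1)) (hT : (ht P : ℝ) ^ (n+1) ≤ z ^ (0.45:ℝ)) :
    1 ≤ 2 * |(toR P).eval ξ| * ((ht P : ℝ) ^ (n+1)) ^ 180 := by
  have hz0 : 0 < z := by linarith
  have hz1 : 1 ≤ z := by linarith
  have hH1 : (1:ℝ) ≤ ht P := by exact_mod_cast one_le_ht hP0
  set T : ℝ := (ht P : ℝ) ^ (n+1) with hTdef
  have hT1 : 1 ≤ T := one_le_pow₀ hH1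
  have hHT : (ht P : ℝ) ≤ T := le_self_pow₀ hH1 (by omega)
  have hKc := Kc_pos k
  have hξx1 : |ξ - x| ≤ 1 := by
    refine hξx.trans ?_
    rw [div_le_one (by positivity)]
    nlinarith
  have hfo := first_order P hPn x ξ hx1 hξx1
  have hdiff : |(toR P).eval x| - |(toR P).eval ξ| ≤ Kc k * ht P * (3 / z ^ 2) := by
    have h1 : |(toR P).eval x| - |(toR P).eval ξ| ≤ |(toR P).eval ξ - (toR P).eval x| := by
      rw [abs_sub_comm]; exact abs_sub_abs_le_abs_sub _ _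
    refine h1.trans (hfo.trans ?_)
    apply mul_le_mul _ hξx (abs_nonneg _) (by positivity)
    exact mul_le_mul_of_nonneg_right (Kc_mono hnk) (by positivity)
  -- it suffices to bound the error
  have key : ∀ w : ℕ, w ≤ 180 → 1 ≤ |(toR P).eval x| * T ^ w → (ht P : ℝ) * T ^ w ≤ z ^ (1.89:ℝ) →
      1 ≤ 2 * |(toR P).eval ξ| * T ^ 180 := by
    intro w hw h1 h2
    have h3 : Kc k * ht P * (3 / z ^ 2) * T ^ w ≤ 1 / 2 := by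
      calc Kc k * ht P * (3 / z ^ 2) * T ^ w = (3 * Kc k / z ^ 2) * (ht P * T ^ w) := by ring
        _ ≤ (3 * Kc k / z ^ 2) * z ^ (1.89:ℝ) := mul_le_mul_of_nonneg_left h2 (by positivity)
        _ = 3 * Kc k / z ^ (0.11:ℝ) := by
            have h4 : z ^ 2 = z ^ (1.89:ℝ) * z ^ (0.11:ℝ) := by
              rw [← Real.rpow_add hz0, ← Real.rpow_natCast]; norm_num
            rw [h4]; field_simp
        _ ≤ 1 / 2 := by
            rw [div_le_div_iff₀ (by positivity) (by norm_num)]; linarith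
    have h5 : 1 ≤ 2 * |(toR P).eval ξ| * T ^ w := by
      have h6 : (|(toR P).eval x| - |(toR P).eval ξ|) * T ^ w ≤ 1 / 2 :=
        (mul_le_mul_of_nonneg_right hdiff (by positivity)).trans h3
      nlinarith
    refine h5.trans ?_
    apply mul_le_mul_of_nonneg_left (pow_le_pow_right₀ hT1 hw) (by positivity)
  by_cases hsmall : T ≤ z ^ (0.01:ℝ)
  · apply key 180 le_rfl (h180 hτ)
    calc (ht P : ℝ) * T ^ 180 ≤ T * T ^ 180 := mul_le_mul_of_nonneg_right hHT (by positivity)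
      _ = T ^ 181 := by ring
      _ ≤ (z ^ (0.01:ℝ)) ^ 181 := pow_le_pow_left₀ (by positivity) hsmall _
      _ = z ^ (0.01 * (181:ℕ) : ℝ) := by rw [← Real.rpow_natCast, ← Real.rpow_mul hz0.le]
      _ ≤ z ^ (1.89:ℝ) := Real.rpow_le_rpow_of_exponent_le hz1 (by norm_num)
  · push Not at hsmall
    apply key 4 (by norm_num) (h4 (hzT.trans hsmall.le))
    have hH9 : (ht P : ℝ) ≤ z ^ (0.09:ℝ) := by
      have h1 : (ht P : ℝ) ^ 5 ≤ (z ^ (0.09:ℝ)) ^ 5 := by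
        calc (ht P : ℝ) ^ 5 ≤ T := pow_le_pow_right₀ hH1 (by omega)
          _ ≤ z ^ (0.45:ℝ) := hT
          _ = (z ^ (0.09:ℝ)) ^ 5 := by
              rw [← Real.rpow_natCast, ← Real.rpow_mul hz0.le]; norm_num
      exact le_of_pow_le_pow_left₀ (by norm_num) (by positivity) h1
    calc (ht P : ℝ) * T ^ 4 ≤ z ^ (0.09:ℝ) * (z ^ (0.45:ℝ)) ^ 4 := by
          apply mul_le_mul hH9 (pow_le_pow_left₀ (by positivity) hT _) (by positivity)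
            (by positivity)
      _ = z ^ (1.89:ℝ) := by
          rw [← Real.rpow_natCast, ← Real.rpow_mul hz0.le, ← Real.rpow_add hz0]; norm_num

theorem step (k : ℕ) : ∃ θ : ℝ, ∀ (q : ℕ) (p : ℤ), 2 ≤ q → θ ≤ q → Iv q p ⊆ Icc 0 1 → ∀ M : ℝ,
    ∃ (q' : ℕ) (p' : ℤ), M ≤ q' ∧ 2 ≤ q' ∧ Iv q' p' ⊆ Iv q p ∧
    (∀ n, 4 ≤ n → n ≤ k → ∀ P : ℤ[X], P ≠ 0 → P.natDegree ≤ n →
      (ht P : ℝ) ^ (n+1) ≤ (q':ℝ) ^ (2.3:ℝ) → ∀ ξ ∈ Iv q' p',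
      ((q':ℝ) ^ 5)⁻¹ ≤ |(toR P).eval ξ|) ∧
    (∀ n, 4 ≤ n → n ≤ k → ∀ P : ℤ[X], Irreducible P → 1 ≤ P.natDegree → P.natDegree ≤ n →
      (q:ℝ) ^ (2.3:ℝ) ≤ (ht P : ℝ) ^ (n+1) → (ht P : ℝ) ^ (n+1) ≤ (q':ℝ) ^ (0.45:ℝ) →
      ∀ ξ ∈ Iv q' p', 1 ≤ 2 * |(toR P).eval ξ| * ((ht P : ℝ) ^ (n+1)) ^ 180) := by
  obtain ⟨θ, hθ, hpt⟩ := exists_point k
  refine ⟨15 * θ, ?_⟩
  intro q p hq hθq hIv M
  have hqr : (2:ℝ) ≤ q := by exact_mod_cast hq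
  have hq0 : (0:ℝ) < q := by linarith
  have hq1 : (1:ℝ) ≤ q := by linarith
  set ℓ : ℝ := ((q:ℝ) ^ 400)⁻¹ with hℓ
  have hℓ0 : 0 < ℓ := by positivity
  set a : ℝ := (p:ℝ) / q + ℓ + ℓ / 3 with ha
  set b : ℝ := (p:ℝ) / q + ℓ + 2 * ℓ / 3 with hb
  have hba : b - a = ℓ / 3 := by rw [ha, hb]; ring
  have hab : a < b := by linarith
  have hIvdef : Iv q p = Icc ((p:ℝ) / q + ℓ) ((p:ℝ) / q + 2 * ℓ) := rfl
  have haI : a ∈ Iv q p := by rw [hIvdef]; constructor <;> linarith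
  have hbI : b ∈ Iv q p := by rw [hIvdef]; constructor <;> linarith
  have ha0 := (hIv haI).1
  have hb1 := (hIv hbI).2
  set τ : ℝ := (q:ℝ) ^ (2.3:ℝ) with hτ
  have hτ1 : 1 ≤ τ := Real.one_le_rpow hq1 (by norm_num)
  have hθτ : θ / τ ^ 177 ≤ (b - a) / 5 := by
    rw [hba, div_le_iff₀ (by positivity)]
    have h1 : (q:ℝ) ^ 401 ≤ τ ^ 177 := by
      rw [hτ, ← Real.rpow_natCast, ← Real.rpow_natCast, ← Real.rpow_mul hq0.le]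
      apply Real.rpow_le_rpow_of_exponent_le hq1
      norm_num
    have h2 : θ = ℓ / 3 / 5 * (15 * θ * (q:ℝ) ^ 400) := by
      rw [hℓ]; field_simp; norm_num
    have h3 : 15 * θ * (q:ℝ) ^ 400 ≤ τ ^ 177 := by
      calc 15 * θ * (q:ℝ) ^ 400 ≤ q * (q:ℝ) ^ 400 := mul_le_mul_of_nonneg_right hθq (by positivity)
        _ = (q:ℝ) ^ 401 := by rw [← pow_succ']
        _ ≤ _ := h1
    calc θ = ℓ / 3 / 5 * (15 * θ * (q:ℝ) ^ 400) := h2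
      _ ≤ ℓ / 3 / 5 * τ ^ 177 := mul_le_mul_of_nonneg_left h3 (by positivity)
  obtain ⟨T0, hT01, hev⟩ := hpt a b τ ha0 hab hb1 hτ1 hθτ
  obtain ⟨Z, hZ⟩ := large_conditions k M (ℓ / 3) T0 (by positivity)
  have hlarge : ∀ᶠ Q : ℕ in atTop, Z ≤ (1/30) * (Q:ℝ) := by
    have h1 : Tendsto (fun Q : ℕ => (1/30) * (Q:ℝ)) atTop atTop :=
      Tendsto.const_mul_atTop (by norm_num) tendsto_natCast_atTop_atTop
    exact h1.eventually_ge_atTop Z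
  obtain ⟨Q, ⟨⟨x, hx, hx1, hx2, hx3, hx4⟩, hQZ⟩, hQ1⟩ :=
    ((hev.and hlarge).and (eventually_ge_atTop 1)).exists
  obtain ⟨j, c, hc0, hcQ, hcx⟩ := Real.exists_int_int_abs_mul_sub_le x (n := Q) (by omega)
  obtain ⟨q', rfl⟩ : ∃ q' : ℕ, c = q' := ⟨c.toNat, (Int.toNat_of_nonneg hc0.le).symm⟩
  have hq'1 : 1 ≤ q' := by omega
  have hq'Q : q' ≤ Q := by exact_mod_cast hcQ
  have hq'Qr : (q':ℝ) ≤ Q := by exact_mod_cast hq'Q
  have hcx' : |(q':ℝ) * x - j| ≤ 1 / ((Q:ℝ) + 1) := by exact_mod_cast hcx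
  have hbig : (1/30) * (Q:ℝ) < q' := by
    by_contra hcon
    push Not at hcon
    exact hx4 ⟨hx, q', j, hq'1, hcon, hcx'⟩
  have hZq' : Z ≤ q' := hQZ.trans hbig.le
  obtain ⟨z1, z2, z3, z4, z5, z6, z7⟩ := hZ q' hZq'
  have hQ0 : (0:ℝ) < Q := by exact_mod_cast hQ1
  have hq'0 : (0:ℝ) < q' := by linarith
  have hcx'' : |(q':ℝ) * x - j| ≤ 1 / Q := by
    refine hcx'.trans ?_
    apply one_div_le_one_div_of_le hQ0; linarith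
  have hrx : |(j:ℝ) / q' - x| ≤ 1 / (q':ℝ) ^ 2 := by
    have h1 : (j:ℝ) / q' - x = -((q' * x - j) / q') := by field_simp; ring
    rw [h1, abs_neg, abs_div, abs_of_pos hq'0, div_le_div_iff₀ hq'0 (by positivity)]
    calc |(q':ℝ) * x - j| * (q':ℝ) ^ 2 ≤ 1 / Q * (q':ℝ) ^ 2 :=
          mul_le_mul_of_nonneg_right hcx'' (by positivity)
      _ ≤ 1 / q' * (q':ℝ) ^ 2 := by
          apply mul_le_mul_of_nonneg_right _ (by positivity)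
          exact one_div_le_one_div_of_le hq'0 hq'Qr
      _ = 1 * q' := by field_simp
  have hξx : ∀ ξ ∈ Iv q' j, |ξ - x| ≤ 3 / (q':ℝ) ^ 2 := by
    intro ξ hξ
    have h1 : |ξ - (j:ℝ) / q'| ≤ 2 * ((q':ℝ) ^ 400)⁻¹ := by
      obtain ⟨h3, h4⟩ := hξ
      have h5 : 0 < ((q':ℝ) ^ 400)⁻¹ := by positivity
      rw [abs_le]; constructor <;> linarith
    have h2 : ((q':ℝ) ^ 400)⁻¹ ≤ ((q':ℝ) ^ 2)⁻¹ := by
      apply inv_anti₀ (by positivity)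
      exact pow_le_pow_right₀ (by linarith) (by norm_num)
    have h3 : |ξ - x| ≤ |ξ - (j:ℝ) / q'| + |(j:ℝ) / q' - x| := by
      have := abs_add_le (ξ - (j:ℝ) / q') ((j:ℝ) / q' - x)
      rwa [sub_add_sub_cancel] at this
    rw [one_div] at hrx
    rw [div_eq_mul_inv]
    linarith
  have hsub : Iv q' j ⊆ Iv q p := by
    intro ξ hξ
    have h1 := (hξx ξ hξ).trans z3
    rw [abs_le] at h1
    rw [hIvdef]
    constructor <;> linarith [hx.1, hx.2, h1.1, h1.2]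
  have hx1' : |x| ≤ 1 := by
    rw [abs_le]; constructor <;> linarith [hx.1, hx.2]
  have hx01 : x ∈ Icc (0:ℝ) 1 := ⟨by linarith [hx.1], by linarith [hx.2]⟩
  refine ⟨q', j, z1, by exact_mod_cast z2, hsub, ?_, ?_⟩
  · intro n hn4 hnk P hP0 hPn hT ξ hξ
    have hξ01 := hIv (hsub hξ)
    have hξ1 : |ξ| ≤ 1 := by rw [abs_le]; constructor <;> linarith [hξ01.1, hξ01.2]
    refine step_B1 hnk z2 z4 z5 hbig hq'Qr hP0 hPn ?_ hT hξ hξ1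
    intro hht
    by_contra hcon
    push Not at hcon
    exact hx3 n (Finset.mem_Icc.2 ⟨hn4, hnk⟩) ⟨hx, q', j, hbig, hq'Qr, hcx'', P, hP0, hPn, hht, hcon⟩
  · intro n hn4 hnk P hPi hP1 hPn hτT hT ξ hξ
    refine step_B2 (τ := τ) hn4 hnk z2 z6 z7 hx1' (hξx ξ hξ) hPi.ne_zero hPn ?_ ?_ hτT hT
    · intro h
      by_contra hcon
      push Not at hcon
      exact hx1 n (Finset.mem_Icc.2 ⟨hn4, hnk⟩) ⟨hx01, P, hPi, hP1, hPn, h, hcon⟩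
    · intro h
      by_contra hcon
      push Not at hcon
      exact hx2 n (Finset.mem_Icc.2 ⟨hn4, hnk⟩) ⟨hx01, P, hPi, hP1, hPn, h, hcon⟩

end Pool.Agent.H8KM
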