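import Pool.Agent.H8KM.IrredMeasure

set_option autoImplicit false

open MeasureTheory Set Polynomial Filter

namespace Pool.Agent.H8KM

lemma irred_T (n w : ℕ) (hn : 1 ≤ n) (hw : 4 ≤ w) : ∃ K : ℝ, 0 < K ∧ ∀ τ : ℝ, 1 ≤ τ →
    volume {x ∈ Icc (0:ℝ) 1 | ∃ P : ℤ[X], Irreducible P ∧ 1 ≤ P.natDegree ∧ P.natDegree ≤ n ∧
      τ ≤ (ht P : ℝ) ^ (n+1) ∧
      |(P.map (Int.castRingHom ℝ)).eval x| * ((ht P : ℝ) ^ (n+1)) ^ w < 1} ≤
      ENNReal.ofReal (K / τ ^ (w - 3)) := by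
  obtain ⟨K, hK, hKm⟩ := irred_measure n ((w-3) * (n+1)) hn
  refine ⟨K, hK, ?_⟩
  intro τ hτ
  have hex : ∃ h : ℕ, τ ≤ (h:ℝ) ^ (n+1) := by
    obtain ⟨h, hh⟩ := exists_nat_ge τ
    refine ⟨h, hh.trans ?_⟩
    have h1 : (1:ℝ) ≤ h := hτ.trans hh
    exact le_self_pow₀ h1 (by omega)
  classical
  set H0 := Nat.find hex with hH0
  have h1 : τ ≤ (H0:ℝ) ^ (n+1) := Nat.find_spec hex
  have h2 : ∀ h : ℕ, τ ≤ (h:ℝ) ^ (n+1) → H0 ≤ h := fun h hh => Nat.find_min' hex hh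
  have hH01 : 1 ≤ H0 := by
    by_contra hcon
    have : H0 = 0 := by omega
    rw [this] at h1
    simp at h1
    linarith
  refine le_trans (measure_mono ?_) ((hKm H0 hH01).trans ?_)
  · rintro x ⟨hx, P, hP1, hP2, hP3, hP4, hP5⟩
    refine ⟨hx, P, hP1, hP2, hP3, h2 _ hP4, ?_⟩
    rw [← pow_mul] at hP5
    have : (n+1) * w = 3 * n + 3 + (w - 3) * (n+1) := by
      obtain ⟨u, rfl⟩ : ∃ u, w = u + 3 := ⟨w - 3, by omega⟩
      simp only [Nat.add_sub_cancel]
      ring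
    rwa [this] at hP5
  · apply ENNReal.ofReal_le_ofReal
    apply div_le_div_of_nonneg_left hK.le (by positivity)
    have hH0r : (1:ℝ) ≤ H0 := by exact_mod_cast hH01
    calc τ ^ (w-3) ≤ ((H0:ℝ) ^ (n+1)) ^ (w-3) := pow_le_pow_left₀ (by linarith) h1 _
      _ = (H0:ℝ) ^ ((w-3) * (n+1)) := by rw [← pow_mul]; congr 1; ring
      _ ≤ (H0:ℝ) ^ ((w-3) * (n+1) + 1) := pow_le_pow_right₀ hH0r (by omega)

lemma volume_near_rat (a b δ : ℝ) (hab : a < b) (hδ0 : 0 < δ) (hδ : δ ≤ 1) (q : ℕ) (hq : 1 ≤ q) :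
    volume {x ∈ Icc a b | ∃ p : ℤ, |q * x - p| ≤ δ} ≤
      ENNReal.ofReal ((q * (b - a) + 3) * (2 * δ / q)) := by
  have hq0 : (0:ℝ) < q := by exact_mod_cast hq
  have hsub : {x ∈ Icc a b | ∃ p : ℤ, |q * x - p| ≤ δ} ⊆
      ⋃ p ∈ Finset.Icc ⌈q * a - δ⌉ ⌊q * b + δ⌋, Icc (((p:ℝ) - δ) / q) (((p:ℝ) + δ) / q) := by
    rintro x ⟨hx, p, hp⟩
    rw [abs_le] at hp
    have h1 : q * a ≤ q * x := mul_le_mul_of_nonneg_left hx.1 hq0.le
    have h2 : q * x ≤ q * b := mul_le_mul_of_nonneg_left hx.2 hq0.le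
    simp only [mem_iUnion, Finset.mem_Icc]
    refine ⟨p, ⟨?_, ?_⟩, ?_, ?_⟩
    · rw [Int.ceil_le]; linarith [hp.2]
    · rw [Int.le_floor]; linarith [hp.1]
    · rw [div_le_iff₀ hq0]; linarith [hp.1, mul_comm x (q:ℝ)]
    · rw [le_div_iff₀ hq0]; linarith [hp.2, mul_comm x (q:ℝ)]
  refine (measure_mono hsub).trans ((measure_biUnion_finset_le _ _).trans ?_)
  have hv : ∀ p : ℤ, volume (Icc (((p:ℝ) - δ) / q) (((p:ℝ) + δ) / q)) =
      ENNReal.ofReal (2 * δ / q) := by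
    intro p
    rw [Real.volume_Icc]; congr 1; ring
  simp_rw [hv]
  rw [Finset.sum_const, nsmul_eq_mul, ENNReal.ofReal_mul (by
    have : 0 < b - a := by linarith
    positivity)]
  gcongr
  rw [← ENNReal.ofReal_natCast]
  apply ENNReal.ofReal_le_ofReal
  rw [Int.card_Icc]
  have h3 : 0 ≤ q * (b - a) + 3 := by
    have : 0 < b - a := by linarith
    positivity
  have h4 : (((⌊q * b + δ⌋ + 1 - ⌈q * a - δ⌉ : ℤ)) : ℝ) ≤ q * (b - a) + 3 := by
    push_cast
    have := Int.floor_le (q * b + δ)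
    have := Int.le_ceil (q * a - δ)
    linarith
  rcases le_total 0 (⌊q * b + δ⌋ + 1 - ⌈q * a - δ⌉) with h | h
  · have : (((⌊q * b + δ⌋ + 1 - ⌈q * a - δ⌉).toNat : ℕ) : ℝ) =
        ((⌊q * b + δ⌋ + 1 - ⌈q * a - δ⌉ : ℤ) : ℝ) := by
      exact_mod_cast Int.toNat_of_nonneg h
    rw [this]; exact h4
  · rw [Int.toNat_of_nonpos h]; simpa using h3

theorem dirichlet_measure (a b : ℝ) (hab : a < b) : ∀ᶠ Q : ℕ in atTop,
    volume {x ∈ Icc a b | ∃ (q : ℕ) (p : ℤ), 1 ≤ q ∧ (q:ℝ) ≤ (1/30) * (Q:ℝ) ∧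
      |q * x - p| ≤ 1 / ((Q:ℝ) + 1)} ≤ ENNReal.ofReal ((b - a) / 5) := by
  have hba : 0 < b - a := by linarith
  have e1 : ∀ᶠ Q : ℕ in atTop, 6 * ((1 + Real.log Q) / (1 * Q + 1)) ≤ (b - a) / 15 := by
    have h1 := Real.tendsto_pow_log_div_mul_add_atTop 1 1 1 one_ne_zero
    have h2 := Real.tendsto_pow_log_div_mul_add_atTop 1 1 0 one_ne_zero
    have h3 : Tendsto (fun x : ℝ => 6 * ((1 + Real.log x) / (1 * x + 1))) atTop
        (nhds (6 * (0 + 0))) := by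
      apply Tendsto.const_mul
      have := h2.add h1
      refine this.congr ?_
      intro x
      rw [pow_zero, pow_one, ← add_div]
    norm_num at h3
    have h4 := h3.comp tendsto_natCast_atTop_atTop
    have h5 := h4.eventually_lt_const (show (0:ℝ) < (b - a) / 15 by positivity)
    filter_upwards [h5] with Q hQ
    simp only [Function.comp_apply] at hQ
    rw [one_mul]
    exact hQ.le
  filter_upwards [e1, eventually_ge_atTop 1] with Q hQ hQ1
  set δ : ℝ := 1 / ((Q:ℝ) + 1) with hδ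
  have hQr : (1:ℝ) ≤ Q := by exact_mod_cast hQ1
  have hδ0 : 0 < δ := by positivity
  have hδ1 : δ ≤ 1 := by rw [hδ, div_le_one (by positivity)]; linarith
  set M : ℕ := ⌊(1/30) * (Q:ℝ)⌋₊ with hM
  have hMr : (M:ℝ) ≤ (1/30) * Q := Nat.floor_le (by positivity)
  have hMQ : M ≤ Q := by
    have : (M:ℝ) ≤ Q := by linarith
    exact_mod_cast this
  have hsub : {x ∈ Icc a b | ∃ (q : ℕ) (p : ℤ), 1 ≤ q ∧ (q:ℝ) ≤ (1/30) * (Q:ℝ) ∧
      |q * x - p| ≤ δ} ⊆ ⋃ q ∈ Finset.Icc 1 M, {x ∈ Icc a b | ∃ p : ℤ, |q * x - p| ≤ δ} := by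
    rintro x ⟨hx, q, p, h1, h2, h3⟩
    simp only [mem_iUnion, Finset.mem_Icc]
    exact ⟨q, ⟨h1, Nat.le_floor h2⟩, hx, p, h3⟩
  refine (measure_mono hsub).trans ((measure_biUnion_finset_le _ _).trans ?_)
  calc ∑ q ∈ Finset.Icc 1 M, volume {x ∈ Icc a b | ∃ p : ℤ, |q * x - p| ≤ δ}
      ≤ ∑ q ∈ Finset.Icc 1 M, ENNReal.ofReal ((q * (b - a) + 3) * (2 * δ / q)) := by
        refine Finset.sum_le_sum fun q hq => ?_
        rw [Finset.mem_Icc] at hq
        exact volume_near_rat a b δ hab hδ0 hδ1 q hq.1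
    _ = ENNReal.ofReal (∑ q ∈ Finset.Icc 1 M, ((q * (b - a) + 3) * (2 * δ / q))) := by
        rw [ENNReal.ofReal_sum_of_nonneg]
        intro q _
        positivity
    _ ≤ ENNReal.ofReal ((b - a) / 5) := by
        apply ENNReal.ofReal_le_ofReal
        have h1 : ∀ q ∈ Finset.Icc 1 M, ((q * (b - a) + 3) * (2 * δ / q)) =
            2 * δ * (b - a) + 6 * δ * (q:ℝ)⁻¹ := by
          intro q hq
          rw [Finset.mem_Icc] at hq
          have : (0:ℝ) < q := by exact_mod_cast hq.1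
          field_simp; ring
        rw [Finset.sum_congr rfl h1, Finset.sum_add_distrib, Finset.sum_const, Nat.card_Icc,
          ← Finset.mul_sum, nsmul_eq_mul]
        have hharm : ∑ q ∈ Finset.Icc 1 M, (q:ℝ)⁻¹ ≤ 1 + Real.log Q := by
          rcases Nat.eq_zero_or_pos M with h0 | hpos
          · rw [h0]
            simp
            have := Real.log_nonneg hQr
            linarith
          · have h2 := harmonic_le_one_add_log M
            rw [harmonic_eq_sum_Icc] at h2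
            push_cast at h2
            refine h2.trans ?_
            have : Real.log M ≤ Real.log Q := by
              apply Real.log_le_log (by exact_mod_cast hpos)
              exact_mod_cast hMQ
            linarith
        have h3 : ((M + 1 - 1 : ℕ) : ℝ) * (2 * δ * (b - a)) ≤ (b - a) / 15 := by
          rw [Nat.add_sub_cancel]
          have h4 : (M:ℝ) * δ ≤ 1 / 30 := by
            calc (M:ℝ) * δ ≤ (1/30) * Q * δ := mul_le_mul_of_nonneg_right hMr hδ0.le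
              _ = (1/30) * (Q / (Q + 1)) := by rw [hδ]; ring
              _ ≤ (1/30) * 1 := by
                  apply mul_le_mul_of_nonneg_left _ (by norm_num)
                  rw [div_le_one (by positivity)]; linarith
              _ = 1/30 := by ring
          calc (M:ℝ) * (2 * δ * (b - a)) = 2 * (b - a) * (M * δ) := by ring
            _ ≤ 2 * (b - a) * (1 / 30) := mul_le_mul_of_nonneg_left h4 (by positivity)
            _ = (b - a) / 15 := by ring
        have h5 : 6 * δ * ∑ q ∈ Finset.Icc 1 M, (q:ℝ)⁻¹ ≤ (b - a) / 15 := by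
          calc 6 * δ * ∑ q ∈ Finset.Icc 1 M, (q:ℝ)⁻¹ ≤ 6 * δ * (1 + Real.log Q) :=
                mul_le_mul_of_nonneg_left hharm (by positivity)
            _ = 6 * ((1 + Real.log Q) / (1 * Q + 1)) := by rw [hδ]; ring
            _ ≤ _ := hQ
        linarith

end Pool.Agent.H8KM
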