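import Pool.Agent.H8KM.Greedy
import Pool.Agent.H8KM.LatticeKM

set_option autoImplicit false

open MeasureTheory Set Polynomial Module

namespace Pool.Agent.H8KM

/-- index type of the coefficients of a pair of polynomials -/
abbrev MI (n : ℕ) := Fin (n+1) ⊕ Fin (n+1)
/-- index type of the forms -/
abbrev KI (n : ℕ) := Bool ⊕ (Fin (n+1) ⊕ Fin (n+1))

variable {n : ℕ}

/-- first polynomial -/
noncomputable def polyA (v : MI n → ℤ) : ℤ[X] := ∑ i : Fin (n+1), C (v (.inl i)) * X ^ (i:ℕ)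
/-- second polynomial -/
noncomputable def polyB (v : MI n → ℤ) : ℤ[X] := ∑ i : Fin (n+1), C (v (.inr i)) * X ^ (i:ℕ)

/-- the forms -/
noncomputable def LT (n : ℕ) : KI n → MI n → ℤ[X]
  | .inl true, .inl i => X * X ^ (i:ℕ)
  | .inl true, .inr i => - X ^ (i:ℕ)
  | .inl false, .inl i => C 2 * X ^ (i:ℕ) - derivative (X * X ^ (i:ℕ))
  | .inl false, .inr i => derivative (X ^ (i:ℕ))
  | .inr (.inl t), .inl i => X * hasseDeriv (t:ℕ) (X ^ (i:ℕ))
  | .inr (.inl t), .inr i => - hasseDeriv (t:ℕ) (X ^ (i:ℕ))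
  | .inr (.inr t), .inl i => hasseDeriv (t:ℕ) (X ^ (i:ℕ))
  | .inr (.inr _), .inr _ => 0

lemma natDegree_LT_le (s : KI n) (c : MI n) : (LT n s c).natDegree ≤ n + 1 := by
  have hX : ∀ i : Fin (n+1), ((X : ℤ[X]) ^ (i:ℕ)).natDegree ≤ n := by
    intro i; rw [natDegree_X_pow]; omega
  have hXX : ∀ i : Fin (n+1), ((X : ℤ[X]) * X ^ (i:ℕ)).natDegree ≤ n + 1 := by
    intro i; rw [← pow_succ', natDegree_X_pow]; omega
  rcases s with (_ | _) | (t | t) <;> rcases c with i | i <;> simp only [LT]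
  · refine (natDegree_sub_le _ _).trans (max_le ?_ ?_)
    · exact (natDegree_C_mul_le _ _).trans ((hX i).trans (by omega))
    · exact (natDegree_derivative_le _).trans ((Nat.sub_le_sub_right (hXX i) 1).trans (by omega))
  · exact (natDegree_derivative_le _).trans ((Nat.sub_le_sub_right (hX i) 1).trans (by omega))
  · exact hXX i
  · rw [natDegree_neg]; exact (hX i).trans (by omega)
  · refine (natDegree_mul_le).trans ?_
    rw [natDegree_X]
    have := (natDegree_hasseDeriv_le ((X : ℤ[X]) ^ (i:ℕ)) (t:ℕ)).trans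
      ((Nat.sub_le _ _).trans (hX i))
    omega
  · rw [natDegree_neg]
    have := (natDegree_hasseDeriv_le ((X : ℤ[X]) ^ (i:ℕ)) (t:ℕ)).trans
      ((Nat.sub_le _ _).trans (hX i))
    omega
  · have := (natDegree_hasseDeriv_le ((X : ℤ[X]) ^ (i:ℕ)) (t:ℕ)).trans
      ((Nat.sub_le _ _).trans (hX i))
    omega
  · simp

lemma hasseDeriv_C_mul' {R : Type*} [CommSemiring R] (t : ℕ) (a : R) (p : R[X]) :
    hasseDeriv t (C a * p) = C a * hasseDeriv t p := by
  rw [← smul_eq_C_mul, ← smul_eq_C_mul, map_smul]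

lemma hasseDeriv_map' {R S : Type*} [CommSemiring R] [CommSemiring S] (f : R →+* S) (t : ℕ)
    (p : R[X]) : (hasseDeriv t p).map f = hasseDeriv t (p.map f) := by
  ext i
  simp [hasseDeriv_coeff]

lemma formP_Y1 (v : MI n → ℤ) : formP (LT n) (.inl true) v = X * polyA v - polyB v := by
  unfold formP polyA polyB
  rw [Fintype.sum_sum_type, Finset.mul_sum, sub_eq_add_neg, ← Finset.sum_neg_distrib]
  congr 1
  · refine Finset.sum_congr rfl fun i _ => ?_
    simp only [LT]; ring
  · refine Finset.sum_congr rfl fun i _ => ?_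
    simp only [LT]; ring

lemma formP_Y0 (v : MI n → ℤ) : formP (LT n) (.inl false) v =
    C 2 * polyA v - derivative (X * polyA v - polyB v) := by
  unfold formP polyA polyB
  rw [Fintype.sum_sum_type, derivative_sub, Finset.mul_sum, Finset.mul_sum, derivative_sum,
    derivative_sum, ← sub_add, ← Finset.sum_sub_distrib]
  congr 1
  · refine Finset.sum_congr rfl fun i _ => ?_
    simp only [LT]
    have : (X : ℤ[X]) * (C (v (.inl i)) * X ^ (i:ℕ)) = C (v (.inl i)) * (X * X ^ (i:ℕ)) := by ring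
    rw [this, derivative_C_mul]; ring
  · refine Finset.sum_congr rfl fun i _ => ?_
    simp only [LT]
    rw [derivative_C_mul]; ring

lemma formP_X1 (t : Fin (n+1)) (v : MI n → ℤ) : formP (LT n) (.inr (.inl t)) v =
    X * hasseDeriv (t:ℕ) (polyA v) - hasseDeriv (t:ℕ) (polyB v) := by
  unfold formP polyA polyB
  rw [Fintype.sum_sum_type, map_sum, map_sum, Finset.mul_sum, sub_eq_add_neg,
    ← Finset.sum_neg_distrib]
  congr 1
  · refine Finset.sum_congr rfl fun i _ => ?_
    simp only [LT]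
    rw [hasseDeriv_C_mul']; ring
  · refine Finset.sum_congr rfl fun i _ => ?_
    simp only [LT]
    rw [hasseDeriv_C_mul']; ring

lemma formP_X0 (t : Fin (n+1)) (v : MI n → ℤ) : formP (LT n) (.inr (.inr t)) v =
    hasseDeriv (t:ℕ) (polyA v) := by
  unfold formP polyA
  rw [Fintype.sum_sum_type, map_sum]
  simp only [LT]
  rw [← add_zero (∑ i, hasseDeriv _ _)]
  congr 1
  · refine Finset.sum_congr rfl fun i _ => ?_
    rw [hasseDeriv_C_mul']; ring
  · simp

/-- rational version -/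
noncomputable def pA (n : ℕ) : (MI n → ℚ) →ₗ[ℚ] ℚ[X] where
  toFun w := ∑ i : Fin (n+1), C (w (.inl i)) * X ^ (i:ℕ)
  map_add' w z := by simp [add_mul, Finset.sum_add_distrib]
  map_smul' a w := by simp [Finset.smul_sum, smul_eq_C_mul, mul_assoc]

/-- rational version -/
noncomputable def pB (n : ℕ) : (MI n → ℚ) →ₗ[ℚ] ℚ[X] where
  toFun w := ∑ i : Fin (n+1), C (w (.inr i)) * X ^ (i:ℕ)
  map_add' w z := by simp [add_mul, Finset.sum_add_distrib]
  map_smul' a w := by simp [Finset.smul_sum, smul_eq_C_mul, mul_assoc]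

/-- base change -/
noncomputable abbrev toQ (f : ℤ[X]) : ℚ[X] := f.map (Int.castRingHom ℚ)

lemma toQ_polyA (v : MI n → ℤ) : toQ (polyA v) = pA n (intIncl _ v) := by
  simp [toQ, polyA, pA, intIncl, Polynomial.map_sum]

lemma toQ_polyB (v : MI n → ℤ) : toQ (polyB v) = pB n (intIncl _ v) := by
  simp [toQ, polyB, pB, intIncl, Polynomial.map_sum]

lemma pA_coeff (w : MI n → ℚ) (i : Fin (n+1)) : (pA n w).coeff i = w (.inl i) := by
  change (∑ i : Fin (n+1), C (w (.inl i)) * X ^ (i:ℕ)).coeff i = _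
  rw [finsetSum_coeff]
  simp only [coeff_C_mul, coeff_X_pow, mul_ite, mul_one, mul_zero]
  rw [Finset.sum_eq_single i]
  · simp
  · intro b _ hb
    rw [if_neg]
    intro h
    exact hb (Fin.ext h.symm)
  · simp

lemma pB_coeff (w : MI n → ℚ) (i : Fin (n+1)) : (pB n w).coeff i = w (.inr i) := by
  change (∑ i : Fin (n+1), C (w (.inr i)) * X ^ (i:ℕ)).coeff i = _
  rw [finsetSum_coeff]
  simp only [coeff_C_mul, coeff_X_pow, mul_ite, mul_one, mul_zero]
  rw [Finset.sum_eq_single i]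
  · simp
  · intro b _ hb
    rw [if_neg]
    intro h
    exact hb (Fin.ext h.symm)
  · simp

lemma pA_natDegree (w : MI n → ℚ) : (pA n w).natDegree ≤ n := by
  change (∑ i : Fin (n+1), C (w (.inl i)) * X ^ (i:ℕ)).natDegree ≤ n
  refine natDegree_sum_le_of_forall_le _ _ fun i _ => ?_
  refine (natDegree_C_mul_le _ _).trans ?_
  rw [natDegree_X_pow]; omega

lemma pB_natDegree (w : MI n → ℚ) : (pB n w).natDegree ≤ n := by
  change (∑ i : Fin (n+1), C (w (.inr i)) * X ^ (i:ℕ)).natDegree ≤ n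
  refine natDegree_sum_le_of_forall_le _ _ fun i _ => ?_
  refine (natDegree_C_mul_le _ _).trans ?_
  rw [natDegree_X_pow]; omega

lemma eq_zero_of_pA_pB {w : MI n → ℚ} (hA : pA n w = 0) (hB : pB n w = 0) : w = 0 := by
  ext c
  rcases c with i | i
  · rw [← pA_coeff w i, hA]; simp
  · rw [← pB_coeff w i, hB]; simp

/-- the forms as rational functionals -/
noncomputable def PhiQ (n : ℕ) (x : ℚ) : KI n → ((MI n → ℚ) →ₗ[ℚ] ℚ)
  | .inl true => x • (leval x ∘ₗ pA n) - leval x ∘ₗ pB n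
  | .inl false => (2:ℚ) • (leval x ∘ₗ pA n) -
      leval x ∘ₗ derivative ∘ₗ (LinearMap.mulLeft ℚ (X : ℚ[X]) ∘ₗ pA n - pB n)
  | .inr (.inl t) => x • (leval x ∘ₗ hasseDeriv (t:ℕ) ∘ₗ pA n) - leval x ∘ₗ hasseDeriv (t:ℕ) ∘ₗ pB n
  | .inr (.inr t) => leval x ∘ₗ hasseDeriv (t:ℕ) ∘ₗ pA n

lemma formP_eval (s : KI n) (v : MI n → ℤ) (x : ℚ) :
    (toQ (formP (LT n) s v)).eval x = PhiQ n x s (intIncl _ v) := by
  rcases s with (_ | _) | (t | t)
  · rw [formP_Y0]
    simp only [toQ, Polynomial.map_sub, Polynomial.map_mul, map_C, ← derivative_map, map_X,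
      PhiQ, LinearMap.sub_apply, LinearMap.smul_apply, LinearMap.comp_apply, leval_apply,
      LinearMap.mulLeft_apply, ← toQ_polyA, ← toQ_polyB]
    simp
  · rw [formP_Y1]
    simp only [toQ, Polynomial.map_sub, Polynomial.map_mul, map_X,
      PhiQ, LinearMap.sub_apply, LinearMap.smul_apply, LinearMap.comp_apply, leval_apply,
      ← toQ_polyA, ← toQ_polyB]
    simp
  · rw [formP_X1]
    simp only [toQ, Polynomial.map_sub, Polynomial.map_mul, map_X, hasseDeriv_map',
      PhiQ, LinearMap.sub_apply, LinearMap.smul_apply, LinearMap.comp_apply, leval_apply,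
      ← toQ_polyA, ← toQ_polyB]
    simp
  · rw [formP_X0]
    simp only [toQ, hasseDeriv_map', PhiQ, LinearMap.comp_apply, leval_apply, ← toQ_polyA]

/-- forms of the first class -/
def S1 (n : ℕ) : Set (KI n) := {s | s.isLeft}
/-- forms of the first two classes -/
def S2 (n : ℕ) : Set (KI n) := {s | s.isLeft ∨ ∃ t, s = .inr (.inl t)}

lemma hasse_zero_of (w : MI n → ℚ) (x : ℚ)
    (h : ∀ t : Fin (n+1), x * (hasseDeriv (t:ℕ) (pA n w)).eval x =
      (hasseDeriv (t:ℕ) (pB n w)).eval x) : C x * pA n w = pB n w := by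
  rw [← sub_eq_zero]
  apply eq_zero_of_hasseDeriv_eq_zero _ x
  intro k
  by_cases hk : k < n + 1
  · rw [map_sub, hasseDeriv_C_mul', eval_sub, eval_mul, eval_C, h ⟨k, hk⟩, sub_self]
  · rw [hasseDeriv_eq_zero_of_lt_natDegree, eval_zero]
    refine lt_of_le_of_lt ((natDegree_sub_le _ _).trans (max_le ?_ (pB_natDegree w)))
      (by omega : n < k)
    exact (natDegree_C_mul_le _ _).trans (pA_natDegree w)

lemma ker_S2 (w : MI n → ℚ) (x : ℚ) (hn : 1 ≤ n) (h : ∀ s ∈ S2 n, PhiQ n x s w = 0) :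
    C x * pA n w = pB n w ∧ (pA n w).eval x = 0 := by
  have h1 : ∀ t : Fin (n+1), x * (hasseDeriv (t:ℕ) (pA n w)).eval x =
      (hasseDeriv (t:ℕ) (pB n w)).eval x := by
    intro t
    have := h (.inr (.inl t)) (Or.inr ⟨t, rfl⟩)
    simp only [PhiQ, LinearMap.sub_apply, LinearMap.smul_apply, LinearMap.comp_apply,
      leval_apply, smul_eq_mul] at this
    linarith
  refine ⟨hasse_zero_of w x h1, ?_⟩
  have h2 := h (.inl false) (Or.inl rfl)
  simp only [PhiQ, LinearMap.sub_apply, LinearMap.smul_apply, LinearMap.comp_apply,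
      leval_apply, smul_eq_mul, LinearMap.mulLeft_apply, derivative_mul, derivative_X, one_mul,
      derivative_sub, map_sub, eval_sub, eval_add, eval_mul, eval_X] at h2
  have h3 := h1 ⟨1, by omega⟩
  simp only [hasseDeriv_one'] at h3
  linarith

lemma ker_full (w : MI n → ℚ) (x : ℚ) (h : ∀ s, PhiQ n x s w = 0) : w = 0 := by
  have h1 : ∀ t : Fin (n+1), x * (hasseDeriv (t:ℕ) (pA n w)).eval x =
      (hasseDeriv (t:ℕ) (pB n w)).eval x := by
    intro t
    have := h (.inr (.inl t))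
    simp only [PhiQ, LinearMap.sub_apply, LinearMap.smul_apply, LinearMap.comp_apply,
      leval_apply, smul_eq_mul] at this
    linarith
  have h2 := hasse_zero_of w x h1
  have h3 : pA n w = 0 := by
    apply eq_zero_of_hasseDeriv_eq_zero _ x
    intro k
    by_cases hk : k < n + 1
    · have := h (.inr (.inr ⟨k, hk⟩))
      simpa only [PhiQ, LinearMap.comp_apply, leval_apply] using this
    · rw [hasseDeriv_eq_zero_of_lt_natDegree, eval_zero]
      exact lt_of_le_of_lt (pA_natDegree w) (by omega : n < k)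
  rw [h3, mul_zero] at h2
  exact eq_zero_of_pA_pB h3 h2.symm

end Pool.Agent.H8KM
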