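import Pool.Agent.H8KM.TensorForms

set_option autoImplicit false

open MeasureTheory Set Polynomial Module

namespace Pool.Agent.H8KM

variable {n : ℕ}

/-- combination of the tuple -/
noncomputable def comb {j : ℕ} (v : Fin j → MI n → ℤ) : (Fin j → ℚ) →ₗ[ℚ] (MI n → ℚ) where
  toFun c := ∑ k, c k • intIncl _ (v k)
  map_add' c c' := by simp [add_smul, Finset.sum_add_distrib]
  map_smul' a c := by simp [Finset.smul_sum, smul_smul]

lemma comb_injective {j : ℕ} {v : Fin j → MI n → ℤ} (hv : LinearIndependent ℤ v) :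
    Function.Injective (comb v) := by
  rw [← LinearMap.ker_eq_bot, LinearMap.ker_eq_bot']
  intro c hc
  ext k
  exact Fintype.linearIndependent_iff.1 (linInd_rat hv) c hc k

/-- matrix of values -/
noncomputable def MX {j : ℕ} (v : Fin j → MI n → ℤ) (x : ℚ) (s : KI n) (k : Fin j) : ℚ :=
  (toQ (formP (LT n) s (v k))).eval x

lemma MX_sum {j : ℕ} (v : Fin j → MI n → ℤ) (x : ℚ) (s : KI n) (c : Fin j → ℚ) :
    ∑ k, MX v x s k * c k = PhiQ n x s (comb v c) := by
  have : comb v c = ∑ k, c k • intIncl _ (v k) := rfl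
  rw [this, map_sum]
  refine Finset.sum_congr rfl fun k _ => ?_
  rw [map_smul, MX, formP_eval, smul_eq_mul, mul_comm]

lemma MX_full {j : ℕ} {v : Fin j → MI n → ℤ} (hv : LinearIndependent ℤ v) (x : ℚ) :
    finrank ℚ (Submodule.span ℚ (range (MX v x))) = j := by
  have h1 := rank_ker (MX v x) univ ⊥ (by
    intro c hc
    rw [Submodule.mem_bot]
    apply comb_injective hv
    rw [map_zero]
    apply ker_full (comb v c) x
    intro s
    rw [← MX_sum]
    exact hc s (mem_univ s))
  rw [image_univ, finrank_bot] at h1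
  have h2 : finrank ℚ (Submodule.span ℚ (range (MX v x))) ≤ finrank ℚ (Fin j → ℚ) :=
    Submodule.finrank_le _
  rw [Module.finrank_fin_fun] at h2
  omega

/-- the subspace `D(x)` -/
noncomputable def DX {j : ℕ} (v : Fin j → MI n → ℤ) (x : ℚ) : Submodule ℚ (Fin j → ℚ) :=
  LinearMap.ker ((x • pA n - pB n) ∘ₗ comb v) ⊓ LinearMap.ker (leval x ∘ₗ pA n ∘ₗ comb v)

lemma mem_DX {j : ℕ} {v : Fin j → MI n → ℤ} {x : ℚ} {c : Fin j → ℚ} :
    c ∈ DX v x ↔ C x * pA n (comb v c) = pB n (comb v c) ∧ (pA n (comb v c)).eval x = 0 := by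
  unfold DX
  rw [Submodule.mem_inf, LinearMap.mem_ker, LinearMap.mem_ker]
  simp only [LinearMap.comp_apply, LinearMap.sub_apply, LinearMap.smul_apply, leval_apply,
    smul_eq_C_mul, sub_eq_zero]

lemma DX_finite {j : ℕ} (hj : 1 ≤ j) {v : Fin j → MI n → ℤ} (hv : LinearIndependent ℤ v) :
    {x : ℚ | j ≤ 2 * finrank ℚ (DX v x)}.Finite := by
  by_contra hinf
  have hinf : {x : ℚ | j ≤ 2 * finrank ℚ (DX v x)}.Infinite := hinf
  obtain ⟨z, hz⟩ := hinf.nonempty
  have hz1 : 1 ≤ finrank ℚ (DX v z) := by
    have : j ≤ 2 * finrank ℚ (DX v z) := hz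
    omega
  have hz2 : DX v z ≠ ⊥ := Submodule.one_le_finrank_iff.1 hz1
  obtain ⟨c, hc, hc0⟩ := Submodule.exists_mem_ne_zero_of_ne_bot hz2
  rw [mem_DX] at hc
  set Cc := pA n (comb v c) with hCc
  have hCc0 : Cc ≠ 0 := by
    intro h
    apply hc0
    apply comb_injective hv
    rw [map_zero]
    apply eq_zero_of_pA_pB h
    rw [← hc.1, h, mul_zero]
  apply hCc0
  apply eq_zero_of_infinite_isRoot
  refine (hinf.sdiff (finite_singleton z)).mono ?_
  rintro x ⟨hx, hxz⟩
  rw [mem_singleton_iff] at hxz
  change Cc.eval x = 0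
  obtain ⟨y, hy, hyn⟩ := (hinf.sdiff ((finite_singleton z).union (finite_singleton x))).nonempty
  rw [mem_union, mem_singleton_iff, mem_singleton_iff, not_or] at hyn
  obtain ⟨hyz, hyx⟩ := hyn
  have hinfx : DX v x ⊓ DX v y = ⊥ := by
    rw [eq_bot_iff]
    intro w hw
    rw [Submodule.mem_inf, mem_DX, mem_DX] at hw
    rw [Submodule.mem_bot]
    apply comb_injective hv
    rw [map_zero]
    have h1 : C (x - y) * pA n (comb v w) = 0 := by
      rw [C_sub, sub_mul, hw.1.1, hw.2.1, sub_self]
    have h2 : pA n (comb v w) = 0 := by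
      rcases mul_eq_zero.1 h1 with h | h
      · rw [C_eq_zero, sub_eq_zero] at h
        exact absurd h.symm hyx
      · exact h
    apply eq_zero_of_pA_pB h2
    rw [← hw.1.1, h2, mul_zero]
  have hsup : DX v x ⊔ DX v y = ⊤ := by
    have h1 := Submodule.finrank_sup_add_finrank_inf_eq (DX v x) (DX v y)
    rw [hinfx, finrank_bot, add_zero] at h1
    have h2 : j ≤ 2 * finrank ℚ (DX v x) := hx
    have h3 : j ≤ 2 * finrank ℚ (DX v y) := hy
    apply Submodule.eq_top_of_finrank_eq
    have h4 : finrank ℚ (DX v x ⊔ DX v y : Submodule ℚ (Fin j → ℚ)) ≤ finrank ℚ (Fin j → ℚ) :=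
      Submodule.finrank_le _
    rw [Module.finrank_fin_fun] at h4 ⊢
    omega
  have hcm : c ∈ DX v x ⊔ DX v y := by rw [hsup]; trivial
  obtain ⟨c1, hc1, c2, hc2, hcc⟩ := Submodule.mem_sup.1 hcm
  rw [mem_DX] at hc1 hc2
  set A1 := pA n (comb v c1)
  set A2 := pA n (comb v c2)
  have hA : Cc = A1 + A2 := by
    rw [hCc, ← hcc, map_add, map_add]
  have hB : C z * Cc = C x * A1 + C y * A2 := by
    rw [hc.1, ← hcc, map_add, map_add, hc1.1, hc2.1]
  -- evaluate at x
  have e1 : Cc.eval x = A2.eval x := by rw [hA, eval_add, hc1.2, zero_add]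
  have e2 : z * Cc.eval x = y * A2.eval x := by
    have := congrArg (fun p => eval x p) hB
    simp only [eval_mul, eval_C, eval_add, hc1.2, mul_zero, zero_add] at this
    exact this
  rw [← e1] at e2
  have : (z - y) * Cc.eval x = 0 := by linarith
  rcases mul_eq_zero.1 this with h | h
  · exact absurd (sub_eq_zero.1 h).symm hyz
  · exact h

lemma exists_good (Z : Set ℚ) (hZ : Z.Finite) (f : ℤ[X]) (hf : f ≠ 0) :
    ∃ x : ℚ, x ∉ Z ∧ (toQ f).eval x ≠ 0 := by
  have hf' : toQ f ≠ 0 := by
    intro h
    apply hf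
    exact (Polynomial.map_eq_zero_iff (Int.cast_injective (α := ℚ))).1 h
  have h1 : {x : ℚ | IsRoot (toQ f) x}.Finite := by
    by_contra h
    exact hf' (eq_zero_of_infinite_isRoot _ h)
  obtain ⟨x, hx⟩ := (hZ.union h1).exists_notMem
  rw [mem_union, not_or] at hx
  exact ⟨x, hx.1, hx.2⟩

/-- case `β` -/
lemma beta_case {j : ℕ} {v : Fin j → MI n → ℤ} (hv : LinearIndependent ℤ v)
    (h : ∀ k l, formP (LT n) (.inl true) (v k) * formP (LT n) (.inl false) (v l) =
      formP (LT n) (.inl true) (v l) * formP (LT n) (.inl false) (v k)) : j ≤ n + 2 := by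
  -- rational polynomials
  set u : (Fin j → ℚ) →ₗ[ℚ] ℚ[X] := (LinearMap.mulLeft ℚ (X : ℚ[X]) ∘ₗ pA n - pB n) ∘ₗ comb v
    with hu
  set w : (Fin j → ℚ) →ₗ[ℚ] ℚ[X] := (2:ℚ) • (pA n ∘ₗ comb v) - derivative ∘ₗ u with hw
  have hu1 : ∀ c, u c = ∑ k, C (c k) * toQ (formP (LT n) (.inl true) (v k)) := by
    intro c
    have : comb v c = ∑ k, c k • intIncl _ (v k) := rfl
    rw [hu, LinearMap.comp_apply, this, map_sum]
    refine Finset.sum_congr rfl fun k _ => ?_
    rw [map_smul, smul_eq_C_mul, formP_Y1]
    congr 1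
    simp only [toQ, Polynomial.map_sub, Polynomial.map_mul, map_X, LinearMap.sub_apply,
      LinearMap.comp_apply, LinearMap.mulLeft_apply, ← toQ_polyA, ← toQ_polyB]
  have hw1 : ∀ c, w c = ∑ k, C (c k) * toQ (formP (LT n) (.inl false) (v k)) := by
    intro c
    rw [hw, LinearMap.sub_apply, LinearMap.smul_apply, LinearMap.comp_apply, LinearMap.comp_apply,
      hu1]
    have : comb v c = ∑ k, c k • intIncl _ (v k) := rfl
    rw [this, map_sum, Finset.smul_sum, derivative_sum, ← Finset.sum_sub_distrib]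
    refine Finset.sum_congr rfl fun k _ => ?_
    rw [map_smul, smul_eq_C_mul, smul_eq_C_mul, formP_Y0, formP_Y1, derivative_C_mul]
    simp only [toQ, Polynomial.map_sub, Polynomial.map_mul, map_X, ← derivative_map, map_C,
      ← toQ_polyA]
    simp
    ring
  have hcomm : ∀ c c', u c * w c' = u c' * w c := by
    intro c c'
    rw [hu1, hw1, hu1, hw1, Finset.sum_mul_sum, Finset.sum_mul_sum, Finset.sum_comm]
    refine Finset.sum_congr rfl fun k _ => Finset.sum_congr rfl fun l _ => ?_
    have h1 := congrArg toQ (h k l)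
    simp only [toQ, Polynomial.map_mul] at h1
    simp only [toQ]
    linear_combination (-(C (c l) * C (c' k))) * h1
  -- coefficient map
  have key : ∀ (f : (Fin j → ℚ) →ₗ[ℚ] ℚ[X]), (∀ c, (f c).natDegree ≤ n + 1) →
      (∀ c, f c = 0 → c = 0) → j ≤ n + 2 := by
    intro f hdeg hinj
    set g : (Fin j → ℚ) →ₗ[ℚ] (Fin (n+2) → ℚ) :=
      { toFun := fun c i => (f c).coeff i
        map_add' := by intro c c'; ext i; simp
        map_smul' := by intro a c; ext i; simp } with hg
    have hgi : Function.Injective g := by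
      rw [← LinearMap.ker_eq_bot, LinearMap.ker_eq_bot']
      intro c hc
      apply hinj
      ext i
      by_cases hi : i < n + 2
      · have := congrFun hc ⟨i, hi⟩
        simpa [hg] using this
      · rw [coeff_eq_zero_of_natDegree_lt (by have := hdeg c; omega)]
        simp
    have := LinearMap.finrank_le_finrank_of_injective hgi
    rwa [Module.finrank_fin_fun, Module.finrank_fin_fun] at this
  by_cases hu0 : ∃ c, u c ≠ 0
  · obtain ⟨c0, hc0⟩ := hu0
    apply key u
    · intro c
      rw [hu]
      simp only [LinearMap.comp_apply, LinearMap.sub_apply, LinearMap.mulLeft_apply]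
      refine (natDegree_sub_le _ _).trans (max_le ?_ ?_)
      · refine natDegree_mul_le.trans ?_
        rw [natDegree_X]
        have := pA_natDegree (comb v c)
        omega
      · exact (pB_natDegree _).trans (by omega)
    · intro c hc
      have h1 := hcomm c0 c
      rw [hc, zero_mul] at h1
      have h2 : w c = 0 := by
        rcases mul_eq_zero.1 h1 with h | h
        · exact absurd h hc0
        · exact h
      have h3 : pA n (comb v c) = 0 := by
        rw [hw] at h2
        simp only [LinearMap.sub_apply, LinearMap.smul_apply, LinearMap.comp_apply, hc,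
          derivative_zero, sub_zero] at h2
        rcases smul_eq_zero.1 h2 with h | h
        · norm_num at h
        · exact h
      apply comb_injective hv
      rw [map_zero]
      apply eq_zero_of_pA_pB h3
      have h4 : u c = X * pA n (comb v c) - pB n (comb v c) := by
        rw [hu]
        simp only [LinearMap.comp_apply, LinearMap.sub_apply, LinearMap.mulLeft_apply]
      rw [h4, h3, mul_zero, zero_sub, neg_eq_zero] at hc
      exact hc
  · push Not at hu0
    apply key (pA n ∘ₗ comb v)
    · intro c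
      exact (pA_natDegree _).trans (by omega)
    · intro c hc
      rw [LinearMap.comp_apply] at hc
      apply comb_injective hv
      rw [map_zero]
      apply eq_zero_of_pA_pB hc
      have h4 : u c = X * pA n (comb v c) - pB n (comb v c) := by
        rw [hu]
        simp only [LinearMap.comp_apply, LinearMap.sub_apply, LinearMap.mulLeft_apply]
      have h5 := hu0 c
      rw [h4, hc, mul_zero, zero_sub, neg_eq_zero] at h5
      exact h5

/-- the real exponent used for the weights -/
noncomputable def hexp (n : ℕ) : ℝ := 2.4 / ((n:ℝ) + 1)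

/-- weights -/
noncomputable def dT (n : ℕ) (Q : ℝ) : KI n → ℝ
  | .inl _ => Q ^ (3:ℤ) / Q ^ (hexp n)
  | .inr (.inl _) => Q ^ (1:ℤ) / Q ^ (hexp n)
  | .inr (.inr _) => Q ^ (-1:ℤ) / Q ^ (hexp n)

lemma dT_pos (n : ℕ) {Q : ℝ} (hQ : 0 < Q) (s : KI n) : 0 < dT n Q s := by
  rcases s with s | s | s <;> simp only [dT] <;> positivity

theorem tensor_H (hn : 4 ≤ n) {Q : ℝ} (hQ : 1 ≤ Q) (j : ℕ) (v : Fin j → MI n → ℤ) (hj : 1 ≤ j)
    (hv : LinearIndependent ℤ v) :
    ∃ σ : Fin j → KI n, minorP (LT n) σ v ≠ 0 ∧ Q ^ (0.12:ℝ) ≤ ∏ i, dT n Q (σ i) := by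
  have hQ0 : 0 < Q := by linarith
  have hZ := DX_finite hj hv
  -- choose the point
  obtain ⟨x, hxZ, hx⟩ : ∃ x : ℚ, x ∉ {x : ℚ | j ≤ 2 * finrank ℚ (DX v x)} ∧
      (2 ≤ finrank ℚ (Submodule.span ℚ (MX v x '' S1 n)) ∨
        (1 ≤ finrank ℚ (Submodule.span ℚ (MX v x '' S1 n)) ∧ j ≤ n + 2)) := by
    by_cases hβ : ∀ k l, formP (LT n) (.inl true) (v k) * formP (LT n) (.inl false) (v l) =
      formP (LT n) (.inl true) (v l) * formP (LT n) (.inl false) (v k)
    · have hjn := beta_case hv hβ
      set k0 : Fin j := ⟨0, by omega⟩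
      have hne : ∃ s : Bool, formP (LT n) (.inl s) (v k0) ≠ 0 := by
        by_contra hcon
        push Not at hcon
        have h1 := hcon true
        have h2 := hcon false
        rw [formP_Y1] at h1
        rw [formP_Y0, h1, derivative_zero, sub_zero] at h2
        have h3 : polyA (v k0) = 0 := by
          rcases mul_eq_zero.1 h2 with h | h
          · rw [C_eq_zero] at h; norm_num at h
          · exact h
        rw [h3, mul_zero, zero_sub, neg_eq_zero] at h1
        have h4 : intIncl _ (v k0) = 0 := by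
          apply eq_zero_of_pA_pB
          · rw [← toQ_polyA, h3]; simp [toQ]
          · rw [← toQ_polyB, h1]; simp [toQ]
        have h5 : v k0 = 0 := intIncl_injective _ (by rw [h4, map_zero])
        exact hv.ne_zero k0 h5
      obtain ⟨s, hs⟩ := hne
      obtain ⟨x, hxZ, hx⟩ := exists_good _ hZ _ hs
      refine ⟨x, hxZ, Or.inr ⟨?_, hjn⟩⟩
      rw [Submodule.one_le_finrank_iff]
      intro hbot
      have h1 : MX v x (.inl s) ∈ Submodule.span ℚ (MX v x '' S1 n) :=
        Submodule.subset_span ⟨.inl s, rfl, rfl⟩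
      rw [hbot, Submodule.mem_bot] at h1
      exact hx (congrFun h1 k0)
    · push Not at hβ
      obtain ⟨k, l, hkl⟩ := hβ
      obtain ⟨x, hxZ, hx⟩ := exists_good _ hZ _ (sub_ne_zero.2 hkl)
      refine ⟨x, hxZ, Or.inl ?_⟩
      have hx' : MX v x (.inl true) k * MX v x (.inl false) l -
          MX v x (.inl true) l * MX v x (.inl false) k ≠ 0 := by
        simpa only [MX, toQ, Polynomial.map_sub, Polynomial.map_mul, eval_sub, eval_mul] using hx
      have hli : LinearIndependent ℚ ![MX v x (.inl true), MX v x (.inl false)] := by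
        rw [LinearIndependent.pair_iff]
        intro a b hab
        have e1 := congrFun hab k
        have e2 := congrFun hab l
        simp only [Pi.add_apply, Pi.smul_apply, smul_eq_mul, Pi.zero_apply] at e1 e2
        constructor
        · have : a * (MX v x (.inl true) k * MX v x (.inl false) l -
            MX v x (.inl true) l * MX v x (.inl false) k) = 0 := by
            linear_combination (MX v x (.inl false) l) * e1 - (MX v x (.inl false) k) * e2
          rcases mul_eq_zero.1 this with h | h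
          · exact h
          · exact absurd h hx'
        · have : b * (MX v x (.inl true) k * MX v x (.inl false) l -
            MX v x (.inl true) l * MX v x (.inl false) k) = 0 := by
            linear_combination (MX v x (.inl true) k) * e2 - (MX v x (.inl true) l) * e1
          rcases mul_eq_zero.1 this with h | h
          · exact h
          · exact absurd h hx'
      have h1 := finrank_span_eq_card hli
      rw [Fintype.card_fin] at h1
      refine le_trans (le_of_eq h1.symm) ?_
      apply Submodule.finrank_mono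
      rw [Submodule.span_le]
      rintro _ ⟨i, rfl⟩
      apply Submodule.subset_span
      fin_cases i
      · exact ⟨.inl true, rfl, rfl⟩
      · exact ⟨.inl false, rfl, rfl⟩
  have hxZ' : 2 * finrank ℚ (DX v x) + 1 ≤ j := by
    have : ¬ (j ≤ 2 * finrank ℚ (DX v x)) := hxZ
    omega
  have hr2 := rank_ker (MX v x) (S2 n) (DX v x) (by
    intro c hc
    rw [mem_DX]
    apply ker_S2 _ _ (by omega)
    intro s hs
    rw [← MX_sum]
    exact hc s hs)
  have h12 : S1 n ⊆ S2 n := fun s hs => Or.inl hs
  obtain ⟨σ, hσ, F1, F2, hF1, hF2, hc1, hc2⟩ := greedy (MX v x) (S1 n) (S2 n) h12 (MX_full hv x)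
  refine ⟨σ, ?_, ?_⟩
  · intro h0
    apply hσ
    have h1 : (toQ (minorP (LT n) σ v)).eval x = Matrix.det (Matrix.of fun i k => MX v x (σ i) k) := by
      unfold minorP
      have h2 : (toQ (Matrix.det (Matrix.of fun i k => formP (LT n) (σ i) (v k)))).eval x =
        ((evalRingHom x).comp (mapRingHom (Int.castRingHom ℚ)))
          (Matrix.det (Matrix.of fun i k => formP (LT n) (σ i) (v k))) := rfl
      rw [h2, RingHom.map_det]
      rfl
    rw [← h1, h0]; simp [toQ]
  · rw [weight_prod σ (S1 n) (S2 n) F1 F2 h12 hF1 hF2 (dT n Q) Q (Q ^ (hexp n)) hQ0]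
    · have hE1 : 1 ≤ Q ^ (hexp n) := Real.one_le_rpow hQ (by unfold hexp; positivity)
      have hjn : j ≤ 2 * (n + 1) := by
        have := hv.fintype_card_le_finrank
        rw [Fintype.card_fin, Module.finrank_pi, Fintype.card_sum, Fintype.card_fin] at this
        omega
      have hcase : ∃ (e : ℤ) (N : ℕ), e ≤ 2 * (F1.card : ℤ) + 2 * F2.card - j ∧ j ≤ N ∧
          (0.12 : ℝ) ≤ e - hexp n * N := by
        have hn' : (4:ℝ) ≤ n := by exact_mod_cast hn
        rcases hx with h | ⟨h, h'⟩
        · refine ⟨5, 2 * (n + 1), by omega, hjn, ?_⟩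
          have : hexp n * ((2 * (n + 1) : ℕ) : ℝ) = 4.8 := by
            unfold hexp; push_cast; field_simp; norm_num
          rw [this]; norm_num
        · refine ⟨3, n + 2, by omega, h', ?_⟩
          have : hexp n * ((n + 2 : ℕ) : ℝ) = 2.4 * (((n:ℝ) + 2) / (n + 1)) := by
            unfold hexp; push_cast; ring
          rw [this]
          have h3 : ((n:ℝ) + 2) / (n + 1) ≤ 1.2 := by
            rw [div_le_iff₀ (by positivity)]; linarith
          push_cast
          linarith
      obtain ⟨e, N, he, hN, hexpo⟩ := hcase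
      rw [le_div_iff₀ (by positivity)]
      calc Q ^ (0.12:ℝ) * (Q ^ hexp n) ^ j ≤ Q ^ (0.12:ℝ) * (Q ^ hexp n) ^ N := by
            apply mul_le_mul_of_nonneg_left (pow_le_pow_right₀ hE1 hN) (by positivity)
        _ = Q ^ (0.12 + hexp n * N) := by
            rw [← Real.rpow_natCast (Q ^ hexp n) N, ← Real.rpow_mul hQ0.le, ← Real.rpow_add hQ0]
        _ ≤ Q ^ (e : ℝ) := by
            apply Real.rpow_le_rpow_of_exponent_le hQ
            linarith
        _ = Q ^ e := Real.rpow_intCast Q e
        _ ≤ _ := zpow_le_zpow_right₀ hQ he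
    · intro s hs
      rcases s with s | s
      · rfl
      · simp [S1] at hs
    · rintro s hs hs'
      rcases hs with h | ⟨t, rfl⟩
      · exact absurd h hs'
      · rfl
    · intro s hs
      rcases s with s | s | s
      · exact absurd (Or.inl rfl) hs
      · exact absurd (Or.inr ⟨s, rfl⟩) hs
      · rfl

end Pool.Agent.H8KM
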