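import Pool.Agent.H8KM.TensorH

set_option autoImplicit false

open MeasureTheory Set Polynomial Module Filter

namespace Pool.Agent.H8KM

/-- exponent -/
noncomputable def gexp (n : ℕ) : ℝ := 2.3 / ((n:ℝ) + 1)

lemma polyA_coeffs {n : ℕ} {A B : ℤ[X]} (hA : A.natDegree ≤ n) :
    polyA (n := n) (Sum.elim (fun i => A.coeff i) (fun i => B.coeff i)) = A := by
  unfold polyA
  have h1 := A.as_sum_range_C_mul_X_pow' (n := n+1) (by omega)
  rw [Finset.sum_range] at h1
  exact h1.symm

lemma polyB_coeffs {n : ℕ} {A B : ℤ[X]} (hB : B.natDegree ≤ n) :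
    polyB (n := n) (Sum.elim (fun i => A.coeff i) (fun i => B.coeff i)) = B := by
  unfold polyB
  have h1 := B.as_sum_range_C_mul_X_pow' (n := n+1) (by omega)
  rw [Finset.sum_range] at h1
  exact h1.symm

theorem tensor_measure (n : ℕ) (hn : 4 ≤ n) (a b : ℝ) (hab : a < b) (K η : ℝ) (hη : 0 < η) :
    ∀ᶠ Q : ℝ in atTop, volume {x ∈ Icc a b | ∃ A B : ℤ[X], (A ≠ 0 ∨ B ≠ 0) ∧
      A.natDegree ≤ n ∧ B.natDegree ≤ n ∧
      |x * (toR A).eval x - (toR B).eval x| ≤ K * Q ^ (gexp n - 3) ∧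
      |(toR A).eval x - (x * (derivative (toR A)).eval x - (derivative (toR B)).eval x)| ≤
        K * Q ^ (gexp n - 3) ∧
      (∀ t, |x * (hasseDeriv t (toR A)).eval x - (hasseDeriv t (toR B)).eval x| ≤
        K * Q ^ (gexp n - 1)) ∧
      (∀ t, |(hasseDeriv t (toR A)).eval x| ≤ K * Q ^ (gexp n + 1))} ≤ ENNReal.ofReal η := by
  set N := Fintype.card (MI n) with hN
  have hNpos : 0 < N := Fintype.card_pos
  set D0 := N * (n + 1) with hD0
  have hD0pos : 0 < D0 := by positivity
  have hD0r : (0:ℝ) < D0 := by exact_mod_cast hD0pos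
  have hpow : (0:ℝ) < 2 ^ (N+1) - 2 := by
    have : (2:ℝ) ^ 2 ≤ 2 ^ (N+1) := pow_le_pow_right₀ (by norm_num) (by omega)
    linarith
  set Kη : ℝ := (2 ^ (N+1) - 2) * (4 * D0) * (b - a) with hKη
  have hKη0 : 0 < Kη := by
    have : 0 < b - a := by linarith
    positivity
  set r : ℝ := min 1 (η / Kη) with hr
  have hr0 : 0 < r := lt_min one_pos (by positivity)
  have hr1 : r ≤ 1 := min_le_left _ _
  set ε : ℝ := r ^ D0 with hε
  have hε0 : 0 < ε := by positivity
  have hε1 : ε ≤ 1 := pow_le_one₀ hr0.le hr1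
  have hεr : ε ^ ((1:ℝ) / (D0 : ℕ)) = r := by
    rw [hε, one_div]
    exact Real.pow_rpow_inv_natCast hr0.le hD0pos.ne'
  have hn1 : (0:ℝ) < (n:ℝ) + 1 := by positivity
  set μ : ℝ := (min 1 ((b - a) / (4 * ((D0 : ℕ) + 1)))) ^ D0 with hμ
  have hμ0 : 0 < μ := by
    have : 0 < b - a := by linarith
    positivity
  have e1 : ∀ᶠ Q : ℝ in atTop, 1 ≤ Q ^ (0.12:ℝ) * μ := by
    have h1 : Tendsto (fun Q : ℝ => Q ^ (0.12:ℝ) * μ) atTop atTop :=
      (tendsto_rpow_atTop (by norm_num)).atTop_mul_const hμ0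
    exact h1.eventually_ge_atTop 1
  have e2 : ∀ᶠ Q : ℝ in atTop, K * Q ^ (-(0.1 / ((n:ℝ) + 1))) < ε / (2 * N) := by
    have h1 : Tendsto (fun Q : ℝ => K * Q ^ (-(0.1 / ((n:ℝ) + 1)))) atTop (nhds (K * 0)) :=
      (tendsto_rpow_neg_atTop (by positivity)).const_mul K
    rw [mul_zero] at h1
    exact h1.eventually_lt_const (by
      have : (0:ℝ) < N := by exact_mod_cast hNpos
      positivity)
  filter_upwards [e1, e2, eventually_ge_atTop 1] with Q hQ1 hQ2 hQ
  have hQ0 : 0 < Q := by linarith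
  have hkm := km_forms (LT n) (dT n Q) (dT_pos n hQ0) (n+1) hD0pos natDegree_LT_le a b hab
    (Q ^ (0.12:ℝ)) hQ1 (fun j v hj hv => tensor_H hn hQ j v hj hv) ε hε0 hε1
  have hbound : (((2:ℝ)^(Fintype.card (MI n) + 1) - 2) *
      (4 * (Fintype.card (MI n) * (n+1) : ℕ) *
        ε ^ ((1:ℝ) / (Fintype.card (MI n) * (n+1) : ℕ))) * (b - a)) ≤ η := by
    rw [← hN, ← hD0, hεr]
    calc ((2:ℝ) ^ (N+1) - 2) * (4 * D0 * r) * (b - a) = Kη * r := by rw [hKη]; ring
      _ ≤ Kη * (η / Kη) := mul_le_mul_of_nonneg_left (min_le_right _ _) hKη0.le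
      _ = η := by field_simp
  refine le_trans (measure_mono ?_) (hkm.trans (ENNReal.ofReal_le_ofReal hbound))
  rintro x ⟨hx, A, B, hAB, hA, hB, hc1, hc2, hc3, hc4⟩
  refine ⟨hx, Sum.elim (fun i => A.coeff i) (fun i => B.coeff i), ?_, ?_⟩
  · intro h0
    rcases hAB with h | h
    · apply h
      rw [← polyA_coeffs (B := B) hA, h0]
      simp [polyA]
    · apply h
      rw [← polyB_coeffs (A := A) hB, h0]
      simp [polyB]
  · have hexpo : gexp n - hexp n = -(0.1 / ((n:ℝ) + 1)) := by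
      unfold gexp hexp; field_simp; norm_num
    have key : ∀ (e : ℤ) (z : ℝ), |z| ≤ K * Q ^ (gexp n - e) →
        |Q ^ e / Q ^ hexp n * z| < ε / (2 * Fintype.card (MI n)) := by
      intro e z hz
      rw [abs_mul, abs_of_pos (by positivity)]
      calc Q ^ e / Q ^ hexp n * |z| ≤ Q ^ e / Q ^ hexp n * (K * Q ^ (gexp n - e)) :=
            mul_le_mul_of_nonneg_left hz (by positivity)
        _ = K * (Q ^ (e:ℝ) / Q ^ hexp n * Q ^ (gexp n - e)) := by
            rw [Real.rpow_intCast]; ring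
        _ = K * Q ^ (-(0.1 / ((n:ℝ) + 1))) := by
            rw [← Real.rpow_sub hQ0, ← Real.rpow_add hQ0, ← hexpo]; congr 2; ring
        _ < _ := hQ2
    intro s
    rcases s with (_ | _) | (t | t)
    · rw [formP_Y0, polyA_coeffs hA, polyB_coeffs hB]
      simp only [dT]
      apply key
      have : (toR (C 2 * A - derivative (X * A - B))).eval x = (toR A).eval x -
          (x * (derivative (toR A)).eval x - (derivative (toR B)).eval x) := by
        simp [toR, derivative_map]; ring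
      rw [this]
      push_cast
      exact hc2
    · rw [formP_Y1, polyA_coeffs hA, polyB_coeffs hB]
      simp only [dT]
      apply key
      have : (toR (X * A - B)).eval x = x * (toR A).eval x - (toR B).eval x := by
        simp [toR]
      rw [this]
      push_cast
      exact hc1
    · rw [formP_X1, polyA_coeffs hA, polyB_coeffs hB]
      simp only [dT]
      apply key
      have : (toR (X * hasseDeriv (t:ℕ) A - hasseDeriv (t:ℕ) B)).eval x =
          x * (hasseDeriv (t:ℕ) (toR A)).eval x - (hasseDeriv (t:ℕ) (toR B)).eval x := by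
        simp [toR, hasseDeriv_map']
      rw [this]
      push_cast
      exact hc3 t
    · rw [formP_X0, polyA_coeffs hA]
      simp only [dT]
      apply key
      have : (toR (hasseDeriv (t:ℕ) A)).eval x = (hasseDeriv (t:ℕ) (toR A)).eval x := by
        simp [toR, hasseDeriv_map']
      rw [this]
      push_cast
      have h5 := hc4 t
      rwa [sub_neg_eq_add]

end Pool.Agent.H8KM
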