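import Pool.Agent.H8KM.Step
import Pool.Agent.H8KM.Gelfond

set_option autoImplicit false

open MeasureTheory Set Polynomial Filter

namespace Pool.Agent.H8KM

theorem exists_xi : ∃ ξ : ℝ, ξ ∈ Icc (0:ℝ) 1 ∧ (∀ P : ℤ[X], P ≠ 0 → (toR P).eval ξ ≠ 0) ∧
    (∀ M : ℕ, ∃ (q : ℕ) (p : ℤ), M ≤ q ∧ 2 ≤ q ∧ ξ ∈ Iv q p) ∧
    (∀ n : ℕ, 4 ≤ n → ∃ c : ℝ, 0 < c ∧ ∀ P : ℤ[X], P ≠ 0 → P.natDegree ≤ n →
      c ≤ |(toR P).eval ξ| * (ht P : ℝ) ^ ((n+1) * 180)) := by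
  choose θ hθ using step
  -- states
  let S : ℕ → Type := fun k => {s : ℕ × ℤ // 2 ≤ s.1 ∧ θ (k+1) ≤ s.1 ∧ Iv s.1 s.2 ⊆ Icc 0 1}
  have hstep : ∀ (k : ℕ) (s : S k), ∃ s' : S (k+1), s.1.1 + 1 ≤ s'.1.1 ∧
      Iv s'.1.1 s'.1.2 ⊆ Iv s.1.1 s.1.2 ∧
      (∀ n, 4 ≤ n → n ≤ k + 1 → ∀ P : ℤ[X], P ≠ 0 → P.natDegree ≤ n →
        (ht P : ℝ) ^ (n+1) ≤ (s'.1.1:ℝ) ^ (2.3:ℝ) → ∀ ξ ∈ Iv s'.1.1 s'.1.2,
        ((s'.1.1:ℝ) ^ 5)⁻¹ ≤ |(toR P).eval ξ|) ∧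
      (∀ n, 4 ≤ n → n ≤ k + 1 → ∀ P : ℤ[X], Irreducible P → 1 ≤ P.natDegree → P.natDegree ≤ n →
        (s.1.1:ℝ) ^ (2.3:ℝ) ≤ (ht P : ℝ) ^ (n+1) →
        (ht P : ℝ) ^ (n+1) ≤ (s'.1.1:ℝ) ^ (0.45:ℝ) →
        ∀ ξ ∈ Iv s'.1.1 s'.1.2, 1 ≤ 2 * |(toR P).eval ξ| * ((ht P : ℝ) ^ (n+1)) ^ 180) := by
    rintro k ⟨⟨q, p⟩, h1, h2, h3⟩
    simp only at h1 h2 h3
    obtain ⟨q', p', hM, h2', hsub, hB1, hB2⟩ := hθ (k+1) q p h1 h2 h3
      (max (θ (k+1+1)) ((q:ℝ) + 1))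
    refine ⟨⟨(q', p'), h2', (le_max_left _ _).trans hM, hsub.trans h3⟩, ?_, hsub, hB1, hB2⟩
    have h4 : (q:ℝ) + 1 ≤ q' := (le_max_right _ _).trans hM
    exact_mod_cast h4
  choose F hF1 hF2 hF3 hF4 using hstep
  -- initial state
  obtain ⟨q0, hq0⟩ : ∃ q0 : ℕ, max 2 (θ 1) ≤ (q0:ℝ) := exists_nat_ge _
  have hq02 : 2 ≤ q0 := by
    have : (2:ℝ) ≤ q0 := (le_max_left _ _).trans hq0
    exact_mod_cast this
  have hq0r : (2:ℝ) ≤ q0 := by exact_mod_cast hq02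
  have hIv0 : Iv q0 0 ⊆ Icc 0 1 := by
    have h1 : (2:ℝ) ≤ (q0:ℝ) ^ 400 := hq0r.trans (le_self_pow₀ (by linarith) (by norm_num))
    have h2 : ((q0:ℝ) ^ 400)⁻¹ ≤ 2⁻¹ := inv_anti₀ (by norm_num) h1
    have h3 : 0 < ((q0:ℝ) ^ 400)⁻¹ := by positivity
    unfold Iv
    apply Icc_subset_Icc
    · simp
    · simp only [Int.cast_zero, zero_div, zero_add]; linarith
  let s0 : S 0 := ⟨(q0, 0), hq02, (le_max_right _ _).trans hq0, hIv0⟩
  let seq : ∀ k, S k := fun k => Nat.rec (motive := S) s0 (fun k s => F k s) k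
  have hseq : ∀ k, seq (k+1) = F k (seq k) := fun k => rfl
  set Q : ℕ → ℕ := fun k => (seq k).1.1 with hQ
  set Pn : ℕ → ℤ := fun k => (seq k).1.2 with hPn
  have hQ2 : ∀ k, 2 ≤ Q k := fun k => (seq k).2.1
  have hQsucc : ∀ k, Q k + 1 ≤ Q (k+1) := by
    intro k
    have := hF1 k (seq k)
    simp only [hQ, hseq]
    exact this
  have hQmono : Monotone Q := monotone_nat_of_le_succ fun k => by have := hQsucc k; omega
  have hQk : ∀ k, k ≤ Q k := by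
    intro k
    induction k with
    | zero => omega
    | succ k ih => have := hQsucc k; omega
  have hsub : ∀ k, Iv (Q (k+1)) (Pn (k+1)) ⊆ Iv (Q k) (Pn k) := fun k => hF2 k (seq k)
  have hne : ∀ k, (Iv (Q k) (Pn k)).Nonempty := by
    intro k
    unfold Iv
    rw [nonempty_Icc]
    have : 0 ≤ ((Q k:ℝ) ^ 400)⁻¹ := by positivity
    linarith
  have hcomp : ∀ k, IsCompact (Iv (Q k) (Pn k)) := fun k => isCompact_Icc
  obtain ⟨ξ, hξ⟩ := IsCompact.nonempty_iInter_of_sequence_nonempty_isCompact_isClosed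
    (fun k => Iv (Q k) (Pn k)) hsub hne (hcomp 0) (fun k => (hcomp k).isClosed)
  rw [mem_iInter] at hξ
  have hB1 : ∀ k n, 4 ≤ n → n ≤ k + 1 → ∀ P : ℤ[X], P ≠ 0 → P.natDegree ≤ n →
      (ht P : ℝ) ^ (n+1) ≤ (Q (k+1):ℝ) ^ (2.3:ℝ) → ((Q (k+1):ℝ) ^ 5)⁻¹ ≤ |(toR P).eval ξ| :=
    fun k n h1 h2 P h3 h4 h5 => hF3 k (seq k) n h1 h2 P h3 h4 h5 ξ (hξ (k+1))
  have hB2 : ∀ k n, 4 ≤ n → n ≤ k + 1 → ∀ P : ℤ[X], Irreducible P → 1 ≤ P.natDegree →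
      P.natDegree ≤ n → (Q k:ℝ) ^ (2.3:ℝ) ≤ (ht P : ℝ) ^ (n+1) →
      (ht P : ℝ) ^ (n+1) ≤ (Q (k+1):ℝ) ^ (0.45:ℝ) →
      1 ≤ 2 * |(toR P).eval ξ| * ((ht P : ℝ) ^ (n+1)) ^ 180 :=
    fun k n h1 h2 P h3 h4 h5 h6 h7 => hF4 k (seq k) n h1 h2 P h3 h4 h5 h6 h7 ξ (hξ (k+1))
  have hQr : ∀ k, (2:ℝ) ≤ Q k := fun k => by exact_mod_cast hQ2 k
  -- unboundedness of the thresholds
  have hunb : ∀ T : ℝ, ∃ K : ℕ, ∀ k, K ≤ k → T < (Q k:ℝ) ^ (2.3:ℝ) := by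
    intro T
    obtain ⟨K, hK⟩ := exists_nat_gt T
    refine ⟨K, fun k hk => ?_⟩
    have h1 : (K:ℝ) ≤ Q k := by exact_mod_cast hk.trans (hQk k)
    have h2 : (Q k:ℝ) ≤ (Q k:ℝ) ^ (2.3:ℝ) := by
      have := Real.rpow_le_rpow_of_exponent_le (show (1:ℝ) ≤ Q k by linarith [hQr k])
        (show (1:ℝ) ≤ 2.3 by norm_num)
      rwa [Real.rpow_one] at this
    linarith
  have hξ01 : ξ ∈ Icc (0:ℝ) 1 := (seq 0).2.2.2 (hξ 0)
  clear_value Q Pn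
  refine ⟨ξ, hξ01, ?_, ?_, ?_⟩
  · intro P hP0 h0
    obtain ⟨K, hK⟩ := hunb ((ht P : ℝ) ^ (max 4 P.natDegree + 1))
    have h1 := hB1 (max K (max 4 P.natDegree)) (max 4 P.natDegree) (le_max_left _ _)
      (by have := le_max_right K (max 4 P.natDegree); omega) P hP0 (le_max_right _ _)
      (hK (max K (max 4 P.natDegree) + 1)
        (by have := le_max_left K (max 4 P.natDegree); omega)).le
    rw [h0, abs_zero] at h1
    have h2 : 0 < ((Q (max K (max 4 P.natDegree) + 1):ℝ) ^ 5)⁻¹ := by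
      have := hQr (max K (max 4 P.natDegree) + 1)
      positivity
    linarith
  · intro M
    exact ⟨Q M, Pn M, hQk M, hQ2 M, hξ M⟩
  · intro n hn
    apply gelfond_lower ξ n ((n+1) * 180) (min (1/2) ((Q (n+1):ℝ) ^ 5)⁻¹)
    · have := hQr (n+1)
      apply lt_min (by norm_num)
      positivity
    · exact (min_le_left _ _).trans (by norm_num)
    · intro P hPi hP1 hPn'
      have hH1 : (1:ℝ) ≤ ht P := by exact_mod_cast one_le_ht hPi.ne_zero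
      rw [pow_mul]
      set T : ℝ := (ht P : ℝ) ^ (n+1) with hT
      have hT1 : 1 ≤ T := one_le_pow₀ hH1
      have hT180 : 1 ≤ T ^ 180 := one_le_pow₀ hT1
      by_cases hsmall : T < (Q n:ℝ) ^ (2.3:ℝ)
      · have h1 : T ≤ (Q (n+1):ℝ) ^ (2.3:ℝ) := by
          refine hsmall.le.trans ?_
          apply Real.rpow_le_rpow (by positivity) _ (by norm_num)
          exact_mod_cast hQmono (Nat.le_succ n)
        have h2 := hB1 n n hn (by omega) P hPi.ne_zero hPn' h1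
        calc min (1/2) ((Q (n+1):ℝ) ^ 5)⁻¹ ≤ ((Q (n+1):ℝ) ^ 5)⁻¹ := min_le_right _ _
          _ ≤ |(toR P).eval ξ| := h2
          _ = |(toR P).eval ξ| * 1 := (mul_one _).symm
          _ ≤ _ := mul_le_mul_of_nonneg_left hT180 (abs_nonneg _)
      · -- find the level
        refine (min_le_left _ _).trans ?_
        obtain ⟨K, hK⟩ := hunb T
        classical
        have hex : ∃ k, T < (Q k:ℝ) ^ (2.3:ℝ) := ⟨K, hK K le_rfl⟩
        set k' := Nat.find hex with hk'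
        have hk'1 : T < (Q k':ℝ) ^ (2.3:ℝ) := Nat.find_spec hex
        have hk'n : n < k' := by
          by_contra hcon
          push Not at hcon
          apply hsmall
          refine hk'1.trans_le ?_
          apply Real.rpow_le_rpow (by positivity) _ (by norm_num)
          exact_mod_cast hQmono hcon
        obtain ⟨k, hk⟩ : ∃ k, k' = k + 1 := ⟨k' - 1, by omega⟩
        have hk2 : (Q k:ℝ) ^ (2.3:ℝ) ≤ T := by
          have := Nat.find_min hex (m := k) (by omega)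
          push Not at this
          exact this
        rw [hk] at hk'1 hk'n
        by_cases hT45 : T ≤ (Q (k+1):ℝ) ^ (0.45:ℝ)
        · have h1 := hB2 k n hn (by omega) P hPi hP1 hPn' hk2 hT45
          linarith
        · push Not at hT45
          have h1 := hB1 k n hn (by omega) P hPi.ne_zero hPn' hk'1.le
          have hz := hQr (k+1)
          have hz0 : (0:ℝ) < Q (k+1) := by linarith
          have h2 : (Q (k+1):ℝ) ^ 5 ≤ T ^ 180 := by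
            calc (Q (k+1):ℝ) ^ 5 ≤ (Q (k+1):ℝ) ^ 81 := pow_le_pow_right₀ (by linarith) (by norm_num)
              _ = ((Q (k+1):ℝ) ^ (0.45:ℝ)) ^ 180 := by
                  rw [← Real.rpow_natCast ((Q (k+1):ℝ) ^ (0.45:ℝ)), ← Real.rpow_mul hz0.le,
                    ← Real.rpow_natCast]
                  norm_num
              _ ≤ T ^ 180 := pow_le_pow_left₀ (by positivity) hT45.le _
          have h3 : 1 ≤ |(toR P).eval ξ| * T ^ 180 := by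
            calc (1:ℝ) = ((Q (k+1):ℝ) ^ 5)⁻¹ * (Q (k+1):ℝ) ^ 5 := by field_simp
              _ ≤ |(toR P).eval ξ| * T ^ 180 := mul_le_mul h1 h2 (by positivity) (abs_nonneg _)
          linarith

end Pool.Agent.H8KM
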